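import Pool.Agent.Helper39.LIP.Drop

/-! LIP(A), (2.2) for systems: on an event of an extension of the space of the triples, if the third point has almost
the same entropy given one label and given both labels, then the form of the larger window is known on the smaller
window up to a small loss. -/

set_option autoImplicit false

namespace Pool.Agent.Helper39.LIP

open Finset Filter Topology Matrix Pool.Agent.Helper69.RK Pool.Agent.Helper31.EC Pool.Agent.Helper40.EL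
open Pool.Agent.Helper89.LX Pool.Agent.Helper3.LF Pool.Agent.Helper48.NS Pool.Agent.Helper48.LIP

noncomputable section

variable {S : Sp} {m : ℕ} (s : Sys S m) {ι : Type}

/-- the space of the triples -/
abbrev S3 (x : ∀ k, FD (S.F k) ι) (l' : Lab S) (c : ℝ) (k : ℕ) : FSp := (Lab3 s x l' c k).T

/-- the label at the first point -/
abbrev K1 (x : ∀ k, FD (S.F k) ι) (l' : Lab S) (c : ℝ) (k : ℕ) : FL (S3 s x l' c k) :=
  k1 ((x k).jn (l' k)).l (jK (x k) (l' k)) (cAs s c k)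

/-- the label at the second point -/
abbrev K2 (x : ∀ k, FD (S.F k) ι) (l' : Lab S) (c : ℝ) (k : ℕ) : FL (S3 s x l' c k) :=
  k2 ((x k).jn (l' k)).l (jK (x k) (l' k)) (cAs s c k)

/-- everything at the first point -/
abbrev T1 (x : ∀ k, FD (S.F k) ι) (l' : Lab S) (c : ℝ) (k : ℕ) : FL (S3 s x l' c k) :=
  (fam3 ((x k).jn (l' k)).l (jK (x k) (l' k)) (cAs s c k)).p1.map
    (pam ((x k).jn (l' k)).l (jK (x k) (l' k)) (cAs s c k)).p1.top

/-- everything at the second point -/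
abbrev T2 (x : ∀ k, FD (S.F k) ι) (l' : Lab S) (c : ℝ) (k : ℕ) : FL (S3 s x l' c k) :=
  (fam3 ((x k).jn (l' k)).l (jK (x k) (l' k)) (cAs s c k)).p1.map
    (pam ((x k).jn (l' k)).l (jK (x k) (l' k)) (cAs s c k)).p2.top

/-- an information of the third point -/
abbrev M3 (x : ∀ k, FD (S.F k) ι) (l' : Lab S) (c : ℝ) (k : ℕ) (y : FL (S.F k)) : FL (S3 s x l' c k) :=
  (Lab3 s x l' c k).p.map y

theorem M3_eq (x : ∀ k, FD (S.F k) ι) (l' : Lab S) (c : ℝ) (k : ℕ) (y : FL (S.F k)) :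
    M3 s x l' c k y = m3 ((x k).jn (l' k)).l (jK (x k) (l' k)) (cAs s c k) y := FPj.comp_map _ _ _

theorem Lab3_v (x : ∀ k, FD (S.F k) ι) (l' : Lab S) (c : ℝ) (k : ℕ) :
    (Lab3 s x l' c k).v = K1 s x l' c k ⊔ K2 s x l' c k := rfl

/-- the independence of the height of the third point -/
theorem Lab3_T (x : ∀ k, FD (S.F k) ι) {l' : Lab S} {c : ℝ} (hl' : IsKap s c l') (h0 : 0 ≤ c) (h1 : c ≤ 1) :
    Nul S (fun k => I (((x k).jn (l' k)).l.p.map (qT s k)) (((x k).jn (l' k)).l.p.map (fc (cAs s c k)))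
      (fc (jK (x k) (l' k)))) := by
  have h2 := nj_T s (jlab_IsMax x hl') h0 h1
  refine h2.congr fun k => ?_
  have e1 : cA s c k = fc (cAs s c k) := cAs_eq s c k
  show I ((jlab (x k) (l' k)).p.map (qT s k)) ((jlab (x k) (l' k)).p.map (cA s c k)) (jlab (x k) (l' k)).v /
    (S.F k).n = I (((x k).jn (l' k)).l.p.map (qT s k)) (((x k).jn (l' k)).l.p.map (fc (cAs s c k)))
      (fc (jK (x k) (l' k))) / (S.F k).n
  rw [← e1]
  rfl

variable (x : ∀ k, FD (S.F k) ι) {l' : Lab S} {c' : ℝ}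

/-- (2.2): the information of the first label about the second point given the second label, on an event -/
theorem drop_S (hl' : IsKap s c' l') (h0 : 0 ≤ c') (h1 : c' ≤ 1) (T : ℕ → FSp)
    (r : ∀ k, FPj (T k) (S3 s x l' c' k)) (E : ∀ k, (T k).Ω → Prop) {q : ℝ} (hq : 0 < q)
    (hE : ∀ᶠ k in UF, q ≤ (T k).pb (E k)) {a u v : ℝ}
    (ha : ∀ᶠ k in UF, (Lab3 s x l' c' k).leak (cB s k) ≤ a * (S.F k).n)
    (hu : ∀ᶠ k in UF, h ((T k).rmap (E k) ((r k).map (M3 s x l' c' k (qP s k))))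
      ((T k).rmap (E k) ((r k).map (K2 s x l' c' k)) ⊔ (T k).rmap (E k) ((r k).map (M3 s x l' c' k (qT s k)))) ≤
        u * (S.F k).n)
    (hv : ∀ᶠ k in UF, v * (S.F k).n ≤ h ((T k).rmap (E k) ((r k).map (M3 s x l' c' k (qP s k))))
      ((T k).rmap (E k) ((r k).map (Lab3 s x l' c' k).v) ⊔
        (T k).rmap (E k) ((r k).map (M3 s x l' c' k (qT s k)))))
    (η : ℝ) (hη : 0 < η) : ∀ᶠ k in UF, I ((T k).rmap (E k) ((r k).map (K1 s x l' c' k)))
      ((T k).rmap (E k) ((r k).map (T2 s x l' c' k))) ((T k).rmap (E k) ((r k).map (K2 s x l' c' k))) ≤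
        (u - v + a / q + η) * (S.F k).n := by
  have hη2 : 0 < η * q / 2 := by positivity
  filter_upwards [hE, ha, hu, hv, (Lab3_T s x hl' h0 h1).eventually (gt_mem_nhds hη2),
    (S.div_n_tendsto 3).eventually (gt_mem_nhds hη2)] with k b1 b2 b3 b4 b5 b6
  have hn := (S.F k).pos
  rw [div_lt_iff₀ hn] at b5 b6
  have hE0 : 0 < (T k).pb (E k) := hq.trans_le b1
  have g1 := drop_fin ((x k).jn (l' k)).l (jK (x k) (l' k)) (cAs s c' k) (r k) (E k) (jK_le (x k) (l' k)) hE0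
    (qP s k) (qT s k)
  rw [M3_eq, M3_eq] at b3 b4
  have g2 : (lab3 ((x k).jn (l' k)).l (jK (x k) (l' k)) (cAs s c' k)).leak (qP s k ⊔ qT s k) ≤
      a * (S.F k).n := by
    rw [← cB_sup]
    exact b2
  set N := I (((x k).jn (l' k)).l.p.map (qT s k)) (((x k).jn (l' k)).l.p.map (fc (cAs s c' k)))
      (fc (jK (x k) (l' k))) + (lab3 ((x k).jn (l' k)).l (jK (x k) (l' k)) (cAs s c' k)).leak (qP s k ⊔ qT s k) + 3
    with hN
  have g3 : 0 ≤ N := by
    have a1 := I_nonneg (((x k).jn (l' k)).l.p.map (qT s k)) (((x k).jn (l' k)).l.p.map (fc (cAs s c' k)))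
      (fc (jK (x k) (l' k)))
    have a2 := (lab3 ((x k).jn (l' k)).l (jK (x k) (l' k)) (cAs s c' k)).leak_nonneg (qP s k ⊔ qT s k)
    rw [hN]
    linarith
  have g4 : N / (T k).pb (E k) ≤ N / q := div_le_div_of_nonneg_left g3 hq b1
  have g5 : N / q ≤ (a / q + η) * (S.F k).n := by
    rw [div_le_iff₀ hq]
    have e1 : (a / q + η) * (S.F k).n * q = a * (S.F k).n + η * q * (S.F k).n := by
      field_simp
    rw [e1, hN]
    linarith
  have g6 : (u - v + a / q + η) * (S.F k).n = (u * (S.F k).n - v * (S.F k).n) + (a / q + η) * (S.F k).n := by ring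
  rw [g6]
  have g7 := g1.trans (add_le_add_right (g4.trans g5) _)
  exact g7.trans (add_le_add_left (sub_le_sub b3 b4) _)

/-- (2.2): the labels exchanged -/
theorem drop_S' (hl' : IsKap s c' l') (h0 : 0 ≤ c') (h1 : c' ≤ 1) (T : ℕ → FSp)
    (r : ∀ k, FPj (T k) (S3 s x l' c' k)) (E : ∀ k, (T k).Ω → Prop) {q : ℝ} (hq : 0 < q)
    (hE : ∀ᶠ k in UF, q ≤ (T k).pb (E k)) {a u v : ℝ}
    (ha : ∀ᶠ k in UF, (Lab3 s x l' c' k).leak (cB s k) ≤ a * (S.F k).n)
    (hu : ∀ᶠ k in UF, h ((T k).rmap (E k) ((r k).map (M3 s x l' c' k (qP s k))))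
      ((T k).rmap (E k) ((r k).map (K1 s x l' c' k)) ⊔ (T k).rmap (E k) ((r k).map (M3 s x l' c' k (qT s k)))) ≤
        u * (S.F k).n)
    (hv : ∀ᶠ k in UF, v * (S.F k).n ≤ h ((T k).rmap (E k) ((r k).map (M3 s x l' c' k (qP s k))))
      ((T k).rmap (E k) ((r k).map (Lab3 s x l' c' k).v) ⊔
        (T k).rmap (E k) ((r k).map (M3 s x l' c' k (qT s k)))))
    (η : ℝ) (hη : 0 < η) : ∀ᶠ k in UF, I ((T k).rmap (E k) ((r k).map (K2 s x l' c' k)))
      ((T k).rmap (E k) ((r k).map (T1 s x l' c' k))) ((T k).rmap (E k) ((r k).map (K1 s x l' c' k))) ≤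
        (u - v + a / q + η) * (S.F k).n := by
  have hη2 : 0 < η * q / 2 := by positivity
  filter_upwards [hE, ha, hu, hv, (Lab3_T s x hl' h0 h1).eventually (gt_mem_nhds hη2),
    (S.div_n_tendsto 3).eventually (gt_mem_nhds hη2)] with k b1 b2 b3 b4 b5 b6
  have hn := (S.F k).pos
  rw [div_lt_iff₀ hn] at b5 b6
  have hE0 : 0 < (T k).pb (E k) := hq.trans_le b1
  have g1 := drop_fin' ((x k).jn (l' k)).l (jK (x k) (l' k)) (cAs s c' k) (r k) (E k) (jK_le (x k) (l' k)) hE0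
    (qP s k) (qT s k)
  rw [M3_eq, M3_eq] at b3 b4
  have g2 : (lab3 ((x k).jn (l' k)).l (jK (x k) (l' k)) (cAs s c' k)).leak (qP s k ⊔ qT s k) ≤
      a * (S.F k).n := by
    rw [← cB_sup]
    exact b2
  set N := I (((x k).jn (l' k)).l.p.map (qT s k)) (((x k).jn (l' k)).l.p.map (fc (cAs s c' k)))
      (fc (jK (x k) (l' k))) + (lab3 ((x k).jn (l' k)).l (jK (x k) (l' k)) (cAs s c' k)).leak (qP s k ⊔ qT s k) + 3
    with hN
  have g3 : 0 ≤ N := by
    have a1 := I_nonneg (((x k).jn (l' k)).l.p.map (qT s k)) (((x k).jn (l' k)).l.p.map (fc (cAs s c' k)))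
      (fc (jK (x k) (l' k)))
    have a2 := (lab3 ((x k).jn (l' k)).l (jK (x k) (l' k)) (cAs s c' k)).leak_nonneg (qP s k ⊔ qT s k)
    rw [hN]
    linarith
  have g4 : N / (T k).pb (E k) ≤ N / q := div_le_div_of_nonneg_left g3 hq b1
  have g5 : N / q ≤ (a / q + η) * (S.F k).n := by
    rw [div_le_iff₀ hq]
    have e1 : (a / q + η) * (S.F k).n * q = a * (S.F k).n + η * q * (S.F k).n := by
      field_simp
    rw [e1, hN]
    linarith
  have g6 : (u - v + a / q + η) * (S.F k).n = (u * (S.F k).n - v * (S.F k).n) + (a / q + η) * (S.F k).n := by ring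
  rw [g6]
  have g7 := g1.trans (add_le_add_right (g4.trans g5) _)
  exact g7.trans (add_le_add_left (sub_le_sub b3 b4) _)

/-- (2.2): IF ON AN EVENT THE VOLUME DOES NOT DROP, THEN THE FORM OF THE LARGER WINDOW IS KNOWN ON THE SMALLER ONE -/
theorem drop_H (m D : ℕ) : ∃ Cc : ℝ, 0 ≤ Cc ∧ ∀ {S : Sp} (s : Sys S m), 1 ≤ D → Pool.Agent.Helper42.NS.RobH s →
    ∀ {c₀ c' : ℝ}, 0 ≤ c' → c' < c₀ → c₀ < 1 → ∀ {x : ∀ k, FD (S.F k) (Mon (m + 1) D)}, IsCan s D c₀ x →
    ∀ {l' : Lab S}, IsKap s c' l' → ∀ {σ : ℝ}, Hf s D c₀ σ → ∀ (T : ℕ → FSp)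
    (r : ∀ k, FPj (T k) (S3 s x l' c' k)), (∀ k, (T k).n = (S.F k).n) →
    ∀ (E : ∀ k, (T k).Ω → Prop) {q : ℝ}, 0 < q → (∀ᶠ k in UF, q ≤ (T k).pb (E k)) → ∀ {a u v : ℝ},
    (∀ᶠ k in UF, (Lab3 s x l' c' k).leak (cB s k) ≤ a * (S.F k).n) →
    (∀ᶠ k in UF, h ((T k).rmap (E k) ((r k).map (M3 s x l' c' k (qP s k))))
      ((T k).rmap (E k) ((r k).map (K1 s x l' c' k)) ⊔ (T k).rmap (E k) ((r k).map (M3 s x l' c' k (qT s k)))) ≤
        u * (S.F k).n) →
    (∀ᶠ k in UF, h ((T k).rmap (E k) ((r k).map (M3 s x l' c' k (qP s k))))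
      ((T k).rmap (E k) ((r k).map (K2 s x l' c' k)) ⊔ (T k).rmap (E k) ((r k).map (M3 s x l' c' k (qT s k)))) ≤
        u * (S.F k).n) →
    (∀ᶠ k in UF, v * (S.F k).n ≤ h ((T k).rmap (E k) ((r k).map (M3 s x l' c' k (qP s k))))
      ((T k).rmap (E k) ((r k).map (Lab3 s x l' c' k).v) ⊔
        (T k).rmap (E k) ((r k).map (M3 s x l' c' k (qT s k))))) →
    ∀ e : ℝ, 0 < e → e ≤ D * (1 - c₀) → 4 * D * (u - v + a / q) < e →
    Hf s D c' (σ - Cc * (e + D * (c₀ - c'))) := by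
  obtain ⟨Cc, hCc, hl⟩ := lip_u3 m D
  refine ⟨Cc, hCc, ?_⟩
  intro S s hD hR c₀ c' h0 hc h1 x hx l' hl' σ hσ T r hn E q hq hE a u v ha hu1 hu2 hv e he he1 hpe
  have hD' : (0 : ℝ) < D := by exact_mod_cast hD
  set η : ℝ := (e - 4 * D * (u - v + a / q)) / (8 * D) with hη
  have hη0 : 0 < η := by
    rw [hη]
    apply div_pos <;> linarith
  have g1 := drop_S s x hl' h0 (hc.le.trans h1.le) T r E hq hE ha hu2 hv η hη0
  have g2 := drop_S' s x hl' h0 (hc.le.trans h1.le) T r E hq hE ha hu1 hv η hη0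
  have hEu : 0 < ul (fun k => (T k).pb (E k)) := by
    have hUE : UB (fun k => (T k).pb (E k)) :=
      UB_of_nonneg_le (C := 1) (Eventually.of_forall fun k => FSp.pb_nonneg _ _)
        (Eventually.of_forall fun k => FSp.pb_le_one _ _)
    have h2 := ul_mono (UB_const q) hUE hE
    rw [ul_const] at h2
    exact hq.trans_le h2
  refine hl s hD hR h0 hc h1 hx hl' hσ T r hn E hEu (u - v + a / q + η) e he he1 g1 g2 ?_
  have e1 : 4 * D * (u - v + a / q + η) = 4 * D * (u - v + a / q) + (e - 4 * D * (u - v + a / q)) / 2 := by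
    rw [hη]
    field_simp
    ring
  rw [e1]
  linarith

end

end Pool.Agent.Helper39.LIP
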