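import Pool.Agent.Helper52.SL.Plv
import Pool.Agent.Helper39.LIP.Drop2

/-! Robust volume of a factor: the canonical form of the factor has the same average logarithmic volume on every event
of every extension. -/

set_option autoImplicit false

namespace Pool.Agent.Helper39.LIP

open Finset Filter Topology Matrix Pool.Agent.Helper69.RK Pool.Agent.Helper31.EC Pool.Agent.Helper40.EL
open Pool.Agent.Helper31.EC.Sp
open Pool.Agent.Helper89.LX Pool.Agent.Helper3.LF Pool.Agent.Helper48.NS Pool.Agent.Helper48.LIP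
open Pool.Agent.Helper3.PR Pool.Agent.Helper3.SG
open Pool.Agent.Helper95.LF (PdM)
open Pool.Agent.Helper59.EV (sum_rest)

noncomputable section

variable {S : Sp} {m q D : ℕ} {ι : Type}

/-! ### labels with forms in extensions and on events -/

/-- a label with forms in an extension of its space -/
def exFD {F : FSp} (y : FD F ι) {T : FSp} (ρ : FPj T y.l.T) (hn : T.n = y.l.T.n) : FD F ι where
  l := y.l.ext ρ hn
  g := fun ω => y.g (ρ.π ω)
  g' := fun ω => y.g' (ρ.π ω)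
  meas := fun ω ω' h h' hV hZ => y.meas _ _ (ρ.supp ω h) (ρ.supp ω' h') hV ((ρ.hZ ω ω' h h').mp hZ)

/-- a label with forms restricted to an event of its space -/
def reFD {F : FSp} (y : FD F ι) (E : y.l.T.Ω → Prop) : FD (FSp.im y.l.p E) ι where
  l := y.l.im E
  g := y.g
  g' := y.g'
  meas := fun ω ω' h h' hV hZ => y.meas ω ω' (y.l.T.rest_supp E ω h).1 (y.l.T.rest_supp E ω' h').1 hV hZ

section
variable [Fintype ι] [DecidableEq ι] (Φ : Gau S ι)

theorem exFD_Ad {A B : Part S} {y : ∀ k, FD (S.F k) ι} (hy : Φ.Ad A B y) {T : ℕ → FSp}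
    (ρ : ∀ k, FPj (T k) (y k).l.T) (hn : ∀ k, (T k).n = (y k).l.T.n) :
    Φ.Ad A B (fun k => exFD (y k) (ρ k) (hn k)) := by
  intro η hη
  filter_upwards [hy η hη] with k hk
  refine ⟨?_, ?_, fun ω hω => hk.2.2.1 _ ((ρ k).supp ω hω), ?_, ?_⟩
  · exact ((y k).l.ext_leak (ρ k) (hn k) (A k)).le.trans hk.1
  · exact ((y k).l.ext_leak (ρ k) (hn k) (B k)).le.trans hk.2.1
  · exact (pb_push (ρ k) (fun ω => ¬ Φ.φ k ((y k).l.p.π ω) ((y k).g ω) ≤ 2 ^ (η * (S.F k).n))).le.trans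
      hk.2.2.2.1
  · exact (pb_push (ρ k) (fun ω => ¬ Φ.φ k ((y k).l.p.π ω) ((y k).g' ω) ≤ 2 ^ (η * (S.F k).n))).le.trans
      hk.2.2.2.2

theorem exFD_Opt {A B : Part S} {y : ∀ k, FD (S.F k) ι} (hy : Φ.Opt A B y) {T : ℕ → FSp}
    (ρ : ∀ k, FPj (T k) (y k).l.T) (hn : ∀ k, (T k).n = (y k).l.T.n) :
    Φ.Opt A B (fun k => exFD (y k) (ρ k) (hn k)) := by
  refine ⟨exFD_Ad Φ hy.1 ρ hn, fun z hz => ?_⟩
  have h1 : (fun k => (exFD (y k) (ρ k) (hn k)).sc / (S.F k).n) = fun k => (y k).sc / (S.F k).n := by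
    funext k
    have h2 : (exFD (y k) (ρ k) (hn k)).sc = (y k).sc :=
      sum_push (ρ k) (fun ω => Real.logb 2 ((y k).g ω).det)
    rw [h2]
  rw [h1]
  exact hy.2 z hz

end

/-- restrictions of admissible forms to events -/
theorem reFD_Ad (s' : Sys S q) {A B : Part S} {y : ∀ k, FD (S.F k) (Mon (q + 1) D)} (hy : (gau s' D).Ad A B y)
    (E : ∀ k, ((lb y).sp.F k).Ω → Prop) (hE : 0 < ul ((lb y).sp.pr E)) :
    (gau (s'.im (lb y).pj E hE) D).Ad (A.im (lb y).pj E) (B.im (lb y).pj E) (fun k => reFD (y k) (E k)) := by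
  intro η hη
  set r := ul ((lb y).sp.pr E) with hr
  have hr1 : r ≤ 1 := Pool.Agent.Helper31.EC.Sp.ul_pr_le_one E
  have hη' : 0 < η * r / 4 := by positivity
  have hle : η * r / 4 ≤ η := by nlinarith
  have hnk : ∀ᶠ k in UF, (4 / (η * r) : ℝ) ≤ (S.F k).n := S.lim.eventually (eventually_ge_atTop _)
  have hhalf : ∀ᶠ k in UF, r / 2 ≤ ((lb y).sp.F k).pb (E k) := by
    have h1 := eventually_gt_of_lt_ul (Sp.UB_pr E) (show r / 2 < ul ((lb y).sp.pr E) by rw [← hr]; linarith)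
    filter_upwards [h1] with k hk using hk.le
  filter_upwards [hy _ hη', hhalf, hnk] with k hk hpb hn
  have hn0 := (S.F k).pos
  have hr2 : 0 < r / 2 := by linarith
  have h4 : 4 ≤ (η * r) * (S.F k).n := by
    rw [div_le_iff₀ (by positivity)] at hn
    linarith
  have hthr : (2 : ℝ) ^ (η * r / 4 * (S.F k).n) ≤ 2 ^ (η * (S.F k).n) :=
    Real.rpow_le_rpow_of_exponent_le (by norm_num) (mul_le_mul_of_nonneg_right hle hn0.le)
  have leak : ∀ X : FL (S.F k), (y k).l.leak X ≤ η * r / 4 * (S.F k).n →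
      ((y k).l.im (E k)).leak (FSp.imap (y k).l.p (E k) X) ≤ η * (S.F k).n := by
    intro X hX
    have h1 := (y k).l.im_leak (E k) X
    have h2 : 0 ≤ ((y k).l.im (E k)).leak (FSp.imap (y k).l.p (E k) X) := FLab.leak_nonneg _ _
    have h3 : r / 2 * ((y k).l.im (E k)).leak (FSp.imap (y k).l.p (E k) X) ≤ r / 2 * (η * (S.F k).n) := by
      refine (mul_le_mul_of_nonneg_right hpb h2).trans (h1.trans ?_)
      nlinarith
    exact le_of_mul_le_mul_left h3 hr2
  have prob : ∀ Q : (y k).l.T.Ω → ℝ, (y k).l.T.pb (fun ω => ¬ Q ω ≤ 2 ^ (η * r / 4 * (S.F k).n)) ≤ η * r / 4 →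
      ((y k).l.T.rest (E k)).pb (fun ω => ¬ Q ω ≤ 2 ^ (η * (S.F k).n)) ≤ η := by
    intro Q hQ
    have h1 := pb_rest_le (y k).l.T (E k) (fun ω => ¬ Q ω ≤ 2 ^ (η * (S.F k).n)) (r / 2) hr2 hpb
    have h2 : (y k).l.T.pb (fun ω => ¬ Q ω ≤ 2 ^ (η * (S.F k).n)) ≤ η * r / 4 := by
      refine le_trans (FSp.pb_mono _ ?_) hQ
      intro ω _ h3 h4
      exact h3 (h4.trans hthr)
    refine h1.trans ?_
    rw [div_le_iff₀ hr2]
    nlinarith
  refine ⟨leak _ hk.1, leak _ hk.2.1, fun ω hω => hk.2.2.1 ω ((y k).l.T.rest_supp (E k) ω hω).1, ?_, ?_⟩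
  · exact prob (fun ω => (gau s' D).φ k ((y k).l.p.π ω) ((y k).g ω)) hk.2.2.2.1
  · exact prob (fun ω => (gau s' D).φ k ((y k).l.p.π ω) ((y k).g' ω)) hk.2.2.2.2

/-! ### robust volume -/

/-- the volume of the factor over the window `c` does not increase on events of extensions -/
def RobV (s : Sys S m) (s' : Sys S q) (D : ℕ) (c : ℝ) : Prop :=
  ∀ (T : Sp) (p : Pj T S) (E : ∀ k, (T.F k).Ω → Prop) (hE : 0 < ul (T.pr E)),
    Pool.Agent.Helper52.SL.lvolP (s.im p E hE) (s'.im p E hE) D c ≤ Pool.Agent.Helper52.SL.lvolP s s' D c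

/-- the average logarithmic volume on an event of the space of the label -/
def EG (s' : Sys S q) (y : ∀ k, FD (S.F k) (Mon (q + 1) D)) (E : ∀ k, (y k).l.T.Ω → Prop) (k : ℕ) : ℝ :=
  ∑ ω, ((y k).l.T.rest (E k)).μ ω * Real.logb 2 (GG (S.dl 1 k) ((y k).g ω) (ptf s' k ((y k).l.p.π ω)))

variable {s : Sys S m} {s' : Sys S q} {c : ℝ}

/-- upper bound on events -/
theorem rob_up (hV : RobV s s' D c) {y : ∀ k, FD (S.F k) (Mon (q + 1) D)} (hy : (gau s' D).Ad (cA s c) (cB s) y)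
    (E : ∀ k, (y k).l.T.Ω → Prop) (hE : 0 < ul (fun k => (y k).l.T.pb (E k))) (η : ℝ) (hη : 0 < η) :
    ∀ᶠ k in UF, EG s' y E k ≤ (Pool.Agent.Helper52.SL.lvolP s s' D c + η) * (S.F k).n := by
  have hE' : 0 < ul ((lb y).sp.pr E) := hE
  have h1 := reFD_Ad s' hy E hE'
  have h2 := Pool.Agent.Helper52.SL.lgd_le_lvolP (s.im (lb y).pj E hE') (s'.im (lb y).pj E hE') (c := c) h1
  have h3 := hV (lb y).sp (lb y).pj E hE'
  have h4 := eventually_lt_of_ul_lt (lgd_UB (s'.im (lb y).pj E hE') h1)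
    (show ul (fun k => lgd (s'.im (lb y).pj E hE') D (fun k => reFD (y k) (E k)) k / ((Sp.im (lb y).pj E).F k).n) <
      Pool.Agent.Helper52.SL.lvolP s s' D c + η by linarith)
  filter_upwards [h4] with k hk
  have hn := (S.F k).pos
  have e1 : lgd (s'.im (lb y).pj E hE') D (fun k => reFD (y k) (E k)) k = EG s' y E k := rfl
  have e2 : ((Sp.im (lb y).pj E).F k).n = (S.F k).n := rfl
  rw [e1, e2, div_lt_iff₀ hn] at hk
  exact hk.le

/-- lower bound on events -/
theorem rob_lo (hV : RobV s s' D c) {y : ∀ k, FD (S.F k) (Mon (q + 1) D)} (hy : (gau s' D).Opt (cA s c) (cB s) y)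
    (E : ∀ k, (y k).l.T.Ω → Prop) (hE : 0 < ul (fun k => (y k).l.T.pb (E k))) (η : ℝ) (hη : 0 < η) :
    ∀ᶠ k in UF, (Pool.Agent.Helper52.SL.lvolP s s' D c - η) * (S.F k).n ≤ EG s' y E k := by
  set Λ := Pool.Agent.Helper52.SL.lvolP s s' D c with hΛ
  set r := ul (fun k => (y k).l.T.pb (E k)) with hr
  have hUE : UB (fun k => (y k).l.T.pb (E k)) :=
    UB_of_nonneg_le (C := 1) (Eventually.of_forall fun k => FSp.pb_nonneg _ _)
      (Eventually.of_forall fun k => FSp.pb_le_one _ _)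
  have hr1 : r ≤ 1 := by
    have := ul_mono hUE (UB_const 1) (Eventually.of_forall fun k => (y k).l.T.pb_le_one (E k))
    rwa [ul_const] at this
  have hhalf : ∀ᶠ k in UF, r / 2 ≤ (y k).l.T.pb (E k) := by
    have h1 := eventually_gt_of_lt_ul hUE (show r / 2 < ul (fun k => (y k).l.T.pb (E k)) by rw [← hr]; linarith)
    filter_upwards [h1] with k hk using hk.le
  have hΛ0 : 0 ≤ Λ := Pool.Agent.Helper52.SL.lvolP_nonneg s s' c
  have hη' : 0 < η * r / 4 := by positivity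
  -- the complement
  have hc : ∀ᶠ k in UF, (1 - (y k).l.T.pb (E k)) * EG s' y (fun k ω => ¬ E k ω) k ≤
      ((1 - (y k).l.T.pb (E k)) * Λ + η * r / 4) * (S.F k).n := by
    by_cases h0 : 0 < ul (fun k => (y k).l.T.pb (fun ω => ¬ E k ω))
    · filter_upwards [rob_up hV hy.1 (fun k ω => ¬ E k ω) h0 (η * r / 4) hη'] with k hk
      have hn := (S.F k).pos
      have a1 := (y k).l.T.pb_nonneg (E k)
      have a2 := (y k).l.T.pb_le_one (E k)
      have a3 := mul_le_mul_of_nonneg_left hk (sub_nonneg.mpr a2)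
      refine a3.trans ?_
      have a4 : (1 - (y k).l.T.pb (E k)) * ((Λ + η * r / 4) * (S.F k).n) = ((1 - (y k).l.T.pb (E k)) * Λ +
        (1 - (y k).l.T.pb (E k)) * (η * r / 4)) * (S.F k).n := by ring
      rw [a4]
      apply mul_le_mul_of_nonneg_right _ hn.le
      have a5 : (1 - (y k).l.T.pb (E k)) * (η * r / 4) ≤ 1 * (η * r / 4) :=
        mul_le_mul_of_nonneg_right (by linarith) hη'.le
      linarith
    · obtain ⟨C, hC, hub⟩ := logGG_ub s' D
      have hU : UB (fun k => (y k).l.T.pb (fun ω => ¬ E k ω)) :=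
        UB_of_nonneg_le (C := 1) (Eventually.of_forall fun k => FSp.pb_nonneg _ _)
          (Eventually.of_forall fun k => FSp.pb_le_one _ _)
      have h1 : ul (fun k => (y k).l.T.pb (fun ω => ¬ E k ω)) < η * r / 4 / (C + 1) := by
        push Not at h0
        have : 0 < η * r / 4 / (C + 1) := by positivity
        linarith
      filter_upwards [eventually_lt_of_ul_lt hU h1, hub, hy.1 1 one_pos] with k h2 h3 h4
      have hn := (S.F k).pos
      have a1 := (y k).l.T.pb_nonneg (E k)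
      have a2 := (y k).l.T.pb_le_one (E k)
      have a3 := (y k).l.T.pb_add_compl (E k)
      have a4 : EG s' y (fun k ω => ¬ E k ω) k ≤ C * (S.F k).n := by
        refine sum_mul_le (F := (y k).l.T.rest (fun ω => ¬ E k ω)) (fun ω => Real.logb 2 (GG (S.dl 1 k) ((y k).g ω)
          (ptf s' k ((y k).l.p.π ω)))) (C * (S.F k).n) fun ω hω => ?_
        have b1 := ((y k).l.T.rest_supp (fun ω => ¬ E k ω) ω hω).1
        exact h3 _ ((y k).l.p.supp ω b1) _ (h4.2.2.1 ω b1).1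
      have a5 : 1 - (y k).l.T.pb (E k) ≤ η * r / 4 / (C + 1) := by linarith
      rw [lt_div_iff₀ (by linarith)] at h2
      have a6 : (1 - (y k).l.T.pb (E k)) * EG s' y (fun k ω => ¬ E k ω) k ≤
          (1 - (y k).l.T.pb (E k)) * (C * (S.F k).n) := mul_le_mul_of_nonneg_left a4 (sub_nonneg.mpr a2)
      refine a6.trans ?_
      have a7 : (1 - (y k).l.T.pb (E k)) * (C * (S.F k).n) = ((1 - (y k).l.T.pb (E k)) * C) * (S.F k).n := by ring
      rw [a7]
      apply mul_le_mul_of_nonneg_right _ hn.le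
      have a8 : (1 - (y k).l.T.pb (E k)) * Λ ≥ 0 := mul_nonneg (sub_nonneg.mpr a2) hΛ0
      have a9 : 1 - (y k).l.T.pb (E k) = (y k).l.T.pb (fun ω => ¬ E k ω) := by linarith
      rw [a9] at a8 ⊢
      nlinarith [(y k).l.T.pb_nonneg (fun ω => ¬ E k ω)]
  have hU := lgd_UB s' hy.1
  have htot := Pool.Agent.Helper52.SL.lvolP_eq s s' hy
  have h5 := eventually_gt_of_lt_ul hU (show Λ - η * r / 4 < ul (fun k => lgd s' D y k / (S.F k).n) by
    rw [htot]; linarith)
  filter_upwards [h5, hc, hhalf] with k h6 h7 h8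
  have hn := (S.F k).pos
  rw [lt_div_iff₀ hn] at h6
  have h9 : lgd s' D y k = (y k).l.T.pb (E k) * EG s' y E k +
      (1 - (y k).l.T.pb (E k)) * EG s' y (fun k ω => ¬ E k ω) k :=
    sum_rest (y k).l.T (E k) (fun ω => Real.logb 2 (GG (S.dl 1 k) ((y k).g ω) (ptf s' k ((y k).l.p.π ω))))
  have hp : 0 < (y k).l.T.pb (E k) := by linarith [show 0 < r / 2 by linarith]
  have h10 : (y k).l.T.pb (E k) * ((Λ - η) * (S.F k).n) ≤ (y k).l.T.pb (E k) * EG s' y E k := by
    have e1 : (y k).l.T.pb (E k) * ((Λ - η) * (S.F k).n) = ((y k).l.T.pb (E k) * Λ) * (S.F k).n -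
      ((y k).l.T.pb (E k) * η) * (S.F k).n := by ring
    have e2 : ((1 - (y k).l.T.pb (E k)) * Λ + η * r / 4) * (S.F k).n = Λ * (S.F k).n -
      ((y k).l.T.pb (E k) * Λ) * (S.F k).n + η * r / 4 * (S.F k).n := by ring
    have e3 : η * r / 2 * (S.F k).n ≤ ((y k).l.T.pb (E k) * η) * (S.F k).n := by
      apply mul_le_mul_of_nonneg_right _ hn.le
      nlinarith
    have e4 : (Λ - η * r / 4) * (S.F k).n = Λ * (S.F k).n - η * r / 4 * (S.F k).n := by ring
    have e5 : η * r / 2 * (S.F k).n = 2 * (η * r / 4 * (S.F k).n) := by ring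
    linarith
  exact le_of_mul_le_mul_left h10 hp

end

end Pool.Agent.Helper39.LIP
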