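import Pool.Agent.Helper39.LIP.Tcn
import Pool.Agent.Helper39.LIP.Rav

/-! Statements for LIP(A) (ns_notes_55c): the data `XO` of the canonical 1-form of the base over the labels of the
window `c₀` at two points of a line of the window `c`, the top conormals, their closeness. -/

set_option autoImplicit false

namespace Pool.Agent.Helper39.LIP

open Finset Filter Topology Matrix Pool.Agent.Helper69.RK Pool.Agent.Helper31.EC Pool.Agent.Helper40.EL
open Pool.Agent.Helper31.EC.Sp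
open Pool.Agent.Helper89.LX Pool.Agent.Helper3.LF Pool.Agent.Helper48.NS Pool.Agent.Helper48.LIP
open Pool.Agent.Helper3.PR Pool.Agent.Helper3.SG
open Pool.Agent.Helper95.LF (PdM)

noncomputable section

variable {S : Sp} {m q : ℕ} (s : Sys S m) (s' : Sys S q) {ι : Type}

/-- the space of the third point projects to the space of the label of the window -/
def pK (x : ∀ k, FD (S.F k) ι) (l' : Lab S) (c : ℝ) (k : ℕ) : FPj (S3 s x l' c k) (l' k).T :=
  (fam3 ((x k).jn (l' k)).l (jK (x k) (l' k)) (cAs s c k)).p2.comp ((x k).l.am (l' k)).p2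

/-- the third point, through the label of the window -/
theorem pK_pt (x : ∀ k, FD (S.F k) ι) (l' : Lab S) (c : ℝ) (k : ℕ) (w : (S3 s x l' c k).Ω)
    (hw : (S3 s x l' c k).μ w ≠ 0) : (l' k).p.π ((pK s x l' c k).π w) = (Lab3 s x l' c k).p.π w := by
  have h1 := (fam3 ((x k).jn (l' k)).l (jK (x k) (l' k)) (cAs s c k)).p2.supp w hw
  exact (((x k).l.am (l' k)).supp _ h1).1.symm

theorem pK_n (x : ∀ k, FD (S.F k) ι) (l' : Lab S) (c : ℝ) (k : ℕ) : (S3 s x l' c k).n = (l' k).T.n :=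
  (Lab3 s x l' c k).hn.trans (l' k).hn.symm

/-- THE CANONICAL 1-FORM OF THE BASE OVER THE PAIR OF LABELS (output of LIP_SU): `X` is a label of `S` with 1-forms of
the factor `s'`; its space is an extension of the space of the triples, it knows the pair of labels `U = Lab3`; no leak
at the condition of the window, no leak at the point over `U`; typical points see the forms bounded; the factor is full
in the volume of the forms on all events of all extensions; it dominates the canonical 1-form `x'` of the window -/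
structure XO (x : ∀ k, FD (S.F k) ι) (x' : ∀ k, FD (S.F k) (Mon (q + 1) 1)) (c : ℝ) where
  /-- the label with forms -/
  X : ∀ k, FD (S.F k) (Mon (q + 1) 1)
  /-- its space is an extension of the space of the triples -/
  r : ∀ k, FPj (X k).l.T (S3 s x (lb x') c k)
  hp : ∀ k, (X k).l.p = (r k).comp (Lab3 s x (lb x') c k).p
  hV : ∀ k, (X k).l.V ≤ Setoid.comap (r k).π (Lab3 s x (lb x') c k).V
  lA : Nul S (fun k => (X k).l.leak (cA s c k))
  lU : Nul S (fun k => I (X k).l.v (r k).top ((r k).map (Lab3 s x (lb x') c k).v ⊔ (X k).l.p.map (cB s k)))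
  cpd : ∀ᶠ k in UF, ∀ ω, (X k).l.T.μ ω ≠ 0 → Cpd ((gau s' 1).cp k) ((X k).g ω)
  phi : ∀ e : ℝ, 0 < e → ∀ᶠ k in UF, (X k).l.T.pb (fun ω =>
    ¬ sph s' 1 k ((X k).l.p.π ω) ((X k).g ω) ≤ 2 ^ (e * (S.F k).n)) ≤ e
  full : ∀ (T : ℕ → FSp) (ρ : ∀ k, FPj (T k) (X k).l.T), (∀ k, (T k).n = (S.F k).n) →
    ∀ E : ∀ k, (T k).Ω → Prop, 0 < ul (fun k => (T k).pb (E k)) → ∀ e : ℝ, 0 < e → ∀ᶠ k in UF,
    (q - e) * (S.F k).n - (1 / 2) * ∑ ω, ((T k).rest (E k)).μ ω * Real.logb 2 (GG (S.dl 1 k)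
        ((X k).g ((ρ k).π ω)) (ptf s' k ((X k).l.p.π ((ρ k).π ω)))) ≤
      h ((T k).rmap (E k) ((ρ k).map ((X k).l.p.map (qP s' k))))
        ((T k).rmap (E k) ((ρ k).map (X k).l.v) ⊔ (T k).rmap (E k) ((ρ k).map ((X k).l.p.map (qT s k))))
  dom : ∀ e : ℝ, 0 < e → Tendsto (fun k => (X k).l.T.pb (fun ω => ¬ ∀ v,
    qf ((x' k).g ((pK s x (lb x') c k).π ((r k).π ω))) v ≤ 2 ^ (e * (S.F k).n) * qf ((X k).g ω) v)) UF (𝓝 0)

namespace XO

variable {s s'} {x : ∀ k, FD (S.F k) ι} {x' : ∀ k, FD (S.F k) (Mon (q + 1) 1)} {c : ℝ} (O : XO s s' x x' c)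

/-- the space of `X` projects to the space of the label of the window -/
def pk (k : ℕ) : FPj (O.X k).l.T (x' k).l.T := (O.r k).comp (pK s x (lb x') c k)

/-- the canonical 1-form of the window, on the space of `X` -/
def g₀ (k : ℕ) (ω : (O.X k).l.T.Ω) : Matrix (Mon (q + 1) 1) (Mon (q + 1) 1) ℝ := (x' k).g ((O.pk k).π ω)

/-- the top conormal of `X` relative to the canonical 1-form of the window -/
def n (k : ℕ) (ω : (O.X k).l.T.Ω) : Mon (q + 1) 1 → ℝ := tcn ((O.X k).g ω) (O.g₀ k ω)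

/-- the top relative eigenvalue -/
def mu (k : ℕ) (ω : (O.X k).l.T.Ω) : ℝ := tmu ((O.X k).g ω) (O.g₀ k ω)

/-- the partition of the label of the window on the space of `X` -/
def K (k : ℕ) : Setoid (O.X k).l.T.Ω := Setoid.comap (O.pk k).π (x' k).l.V

/-- the label of the window on the space of `X` -/
def lK : Lab S := fun k => ⟨(O.X k).l.T, (O.X k).l.p, (O.X k).l.hn, O.K k⟩

end XO

/-- closeness of two conormals up to sign, in the dual norm of the form `A₀` on all directions -/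
def Clo (A₀ : Matrix (Mon (q + 1) 1) (Mon (q + 1) 1) ℝ) (τ : ℝ) (n n' : Mon (q + 1) 1 → ℝ) : Prop :=
  ∃ ε : ℝ, (ε = 1 ∨ ε = -1) ∧ ∀ u : Fin (q + 1) → ℝ, ((n - ε • n') ⬝ᵥ gv u) ^ 2 ≤ τ ^ 2 * qf A₀ (gv u)

/-- closeness of two conormals up to sign on horizontal directions -/
def CloM (A₀ : Matrix (Mon (q + 1) 1) (Mon (q + 1) 1) ℝ) (τ : ℝ) (n n' : Mon (q + 1) 1 → ℝ) : Prop :=
  ∃ ε : ℝ, (ε = 1 ∨ ε = -1) ∧ ∀ u : Fin q → ℝ, ((n - ε • n') ⬝ᵥ gM u) ^ 2 ≤ τ ^ 2 * qf A₀ (gM u)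

end

end Pool.Agent.Helper39.LIP
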