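import Pool.Agent.Helper91.GR.Def
import Pool.Agent.Helper93.LIP.Line

/-! Sheets from forms: a label which carries a quadratic form on the affine functions of some coordinates of the point,
bounded at the points and with a large derivative in one coordinate direction, knows a sheet. -/

set_option autoImplicit false

namespace Pool.Agent.Helper39.LIP

open Finset Filter Topology Matrix Pool.Agent.Helper69.RK Pool.Agent.Helper31.EC Pool.Agent.Helper40.EL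
open Pool.Agent.Helper31.EC.Sp
open Pool.Agent.Helper89.LX Pool.Agent.Helper3.LF Pool.Agent.Helper48.NS
open Pool.Agent.Helper95.LF (PdM)
open Pool.Agent.Helper91.GR Pool.Agent.Helper42.NS Pool.Agent.Helper52.KP

noncomputable section

variable {q m : ℕ}

/-- inclusion of the coordinates of the factor, with the time -/
def kap1 (κ : Fin q → Fin m) : Fin (q + 1) → Fin (m + 1) := Fin.cons 0 (fun i => (κ i).succ)

theorem kap1_inj {κ : Fin q → Fin m} (h : Function.Injective κ) : Function.Injective (kap1 κ) := by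
  intro i j
  refine Fin.cases ?_ (fun i => ?_) i
  · refine Fin.cases ?_ (fun j => ?_) j
    · intro _
      rfl
    · intro h1
      exact absurd h1.symm (Fin.succ_ne_zero _)
  · refine Fin.cases ?_ (fun j => ?_) j
    · intro h1
      exact absurd h1 (Fin.succ_ne_zero _)
    · intro h1
      have h2 : (κ i).succ = (κ j).succ := h1
      rw [h (Fin.succ_injective _ h2)]

/-- the other coordinates -/
def Jk (κ : Fin q → Fin m) (i0 : Fin q) : Finset (Fin (m + 1)) :=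
  ((Finset.univ : Finset (Fin (q + 1))).erase i0.succ).image (kap1 κ)

/-- derivatives of affine functions in coordinate directions -/
def ev1 (i : Fin (q + 1)) : Mon (q + 1) 1 → ℝ := gv (Pi.single i 1)

theorem gv_sum (u : Fin (q + 1) → ℝ) : (gv u : Mon (q + 1) 1 → ℝ) = ∑ i, u i • ev1 i := by
  funext a
  rw [Finset.sum_apply]
  unfold gv ev1
  refine Finset.sum_congr rfl fun i _ => ?_
  rw [Pi.smul_apply, smul_eq_mul]
  congr 1
  unfold gv
  rw [Finset.sum_eq_single i (fun j _ h => by rw [Pi.single_eq_of_ne h, zero_mul])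
    (fun h => absurd (Finset.mem_univ i) h), Pi.single_eq_same, one_mul]

theorem vv_sum (p : Fin (q + 1) → ℝ) : (vv p : Mon (q + 1) 1 → ℝ) = vv 0 + ∑ i, p i • ev1 i := by
  have h1 := vv_gv (0 : Fin (q + 1) → ℝ) p
  rw [zero_add, gv_sum] at h1
  exact h1

/-- the sheet of a form: the function `gradient in the direction i0` of the form -/
def sht (κ : Fin q → Fin m) (i0 : Fin q) (A : Matrix (Mon (q + 1) 1) (Mon (q + 1) 1) ℝ) : Cf (m + 1) :=
  (-((ev1 i0.succ ⬝ᵥ (A *ᵥ vv 0)) / qf A (ev1 i0.succ)),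
    fun j => -∑ i ∈ ((Finset.univ : Finset (Fin (q + 1))).erase i0.succ).filter (fun i => kap1 κ i = j),
      (ev1 i0.succ ⬝ᵥ (A *ᵥ ev1 i)) / qf A (ev1 i0.succ))

theorem sht_at {κ : Fin q → Fin m} (h : Function.Injective κ) (i0 : Fin q)
    (A : Matrix (Mon (q + 1) 1) (Mon (q + 1) 1) ℝ) {i : Fin (q + 1)}
    (hi : i ∈ (Finset.univ : Finset (Fin (q + 1))).erase i0.succ) :
    (sht κ i0 A).2 (kap1 κ i) = -((ev1 i0.succ ⬝ᵥ (A *ᵥ ev1 i)) / qf A (ev1 i0.succ)) := by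
  have h1 : ((Finset.univ : Finset (Fin (q + 1))).erase i0.succ).filter (fun i' => kap1 κ i' = kap1 κ i) = {i} := by
    ext j
    rw [Finset.mem_filter, Finset.mem_singleton]
    constructor
    · rintro ⟨_, h2⟩
      exact kap1_inj h h2
    · rintro rfl
      exact ⟨hi, rfl⟩
  unfold sht
  simp only
  rw [h1, Finset.sum_singleton]

theorem sht_slope {κ : Fin q → Fin m} (h : Function.Injective κ) (i0 : Fin q)
    (A : Matrix (Mon (q + 1) 1) (Mon (q + 1) 1) ℝ) {M : ℝ} (hM : 0 ≤ M)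
    (hb : ∀ i, ((ev1 i0.succ ⬝ᵥ (A *ᵥ ev1 i)) / qf A (ev1 i0.succ)) ^ 2 ≤ M) (j : Fin (m + 1)) :
    ((sht κ i0 A).2 j) ^ 2 ≤ M := by
  by_cases h1 : ∃ i ∈ (Finset.univ : Finset (Fin (q + 1))).erase i0.succ, kap1 κ i = j
  · obtain ⟨i, hi, rfl⟩ := h1
    rw [sht_at h i0 A hi, neg_sq]
    exact hb i
  · push Not at h1
    have h2 : ((Finset.univ : Finset (Fin (q + 1))).erase i0.succ).filter (fun i' => kap1 κ i' = j) = ∅ := by
      rw [Finset.filter_eq_empty_iff]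
      exact fun i hi => h1 i hi
    have h3 : (sht κ i0 A).2 j = 0 := by
      unfold sht
      simp only
      rw [h2, Finset.sum_empty, neg_zero]
    rw [h3]
    simpa using hM

/-- the distance from the sheet of a form -/
theorem df_sht {κ : Fin q → Fin m} (h : Function.Injective κ) (i0 : Fin q)
    (A : Matrix (Mon (q + 1) 1) (Mon (q + 1) 1) ℝ) (hN : qf A (ev1 i0.succ) ≠ 0) (a x : Fin m → ℝ) (a' x' : Fin q → ℝ)
    (ha : ∀ i, a' i = a (κ i)) (hx : ∀ i, x' i = x (κ i)) (t : ℝ) :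
    df (κ i0) (Jk κ i0) (sht κ i0 A) a x t =
      (ev1 i0.succ ⬝ᵥ (A *ᵥ vv (pl a' x' t))) / qf A (ev1 i0.succ) := by
  have hp : ∀ i : Fin (q + 1), pl a' x' t i = pl a x t (kap1 κ i) := by
    intro i
    refine Fin.cases ?_ (fun i => ?_) i
    · have e : kap1 κ 0 = 0 := rfl
      rw [e, pl_zero, pl_zero]
    · have e : kap1 κ i.succ = (κ i).succ := rfl
      rw [e, pl_succ, pl_succ, ha, hx]
  set N := qf A (ev1 i0.succ) with hNd
  set b : Fin (q + 1) → ℝ := fun i => ev1 i0.succ ⬝ᵥ (A *ᵥ ev1 i) with hb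
  have hbi : b i0.succ = N := rfl
  have e1 : ev1 i0.succ ⬝ᵥ (A *ᵥ vv (pl a' x' t)) = ev1 i0.succ ⬝ᵥ (A *ᵥ vv 0) + ∑ i, pl a' x' t i * b i := by
    rw [vv_sum (pl a' x' t), Matrix.mulVec_add, dotProduct_add]
    congr 1
    rw [Matrix.mulVec_sum, dotProduct_sum]
    refine Finset.sum_congr rfl fun i _ => ?_
    rw [Matrix.mulVec_smul, dotProduct_smul, smul_eq_mul]
  have e2 : ∑ i, pl a' x' t i * b i = pl a' x' t i0.succ * N +
      ∑ i ∈ (Finset.univ : Finset (Fin (q + 1))).erase i0.succ, pl a' x' t i * b i := by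
    rw [← hbi]
    exact (Finset.add_sum_erase _ _ (Finset.mem_univ _)).symm
  have e3 : aff (Jk κ i0) (sht κ i0 A) (pl a x t) = -((ev1 i0.succ ⬝ᵥ (A *ᵥ vv 0)) / N) +
      ∑ i ∈ (Finset.univ : Finset (Fin (q + 1))).erase i0.succ, -(b i / N) * pl a' x' t i := by
    unfold aff Jk
    rw [Finset.sum_image (fun i _ j _ hij => kap1_inj h hij)]
    congr 1
    refine Finset.sum_congr rfl fun i hi => ?_
    rw [sht_at h i0 A hi, hp]
  have e4 : ∑ i ∈ (Finset.univ : Finset (Fin (q + 1))).erase i0.succ, -(b i / N) * pl a' x' t i =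
      -((∑ i ∈ (Finset.univ : Finset (Fin (q + 1))).erase i0.succ, pl a' x' t i * b i) / N) := by
    rw [Finset.sum_div, ← Finset.sum_neg_distrib]
    refine Finset.sum_congr rfl fun i _ => ?_
    ring
  have e5 : a (κ i0) + t * x (κ i0) = pl a' x' t i0.succ := by
    rw [pl_succ, ha, hx]
  unfold df
  rw [e3, e4, e5, e1, e2]
  field_simp
  ring

/-- the estimates of the sheet of a form -/
theorem sht_le {κ : Fin q → Fin m} (h : Function.Injective κ) (i0 : Fin q)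
    (A : Matrix (Mon (q + 1) 1) (Mon (q + 1) 1) ℝ) (hA : PdM A) {R K B : ℝ} (hR : 0 < R)
    (hK : 0 ≤ K) (hB : 0 ≤ B) (h1 : R ≤ qf A (ev1 i0.succ))
    (h2 : ∀ i, qf A (ev1 i) ≤ K * qf A (ev1 i0.succ)) (a x : Fin m → ℝ) (a' x' : Fin q → ℝ)
    (ha : ∀ i, a' i = a (κ i)) (hx : ∀ i, x' i = x (κ i)) (t : ℝ) (h3 : qf A (vv (pl a' x' t)) ≤ B) :
    (df (κ i0) (Jk κ i0) (sht κ i0 A) a x t) ^ 2 ≤ B / R ∧ ∀ j, ((sht κ i0 A).2 j) ^ 2 ≤ K := by
  have hN : 0 < qf A (ev1 i0.succ) := hR.trans_le h1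
  set N := qf A (ev1 i0.succ) with hNd
  constructor
  · rw [df_sht h i0 A hN.ne' a x a' x' ha hx t, div_pow]
    have h4 := qf_cs hA.1 (fun v => hA.nonneg v) (ev1 i0.succ) (vv (pl a' x' t))
    rw [div_le_div_iff₀ (by positivity) hR]
    have h5 : (ev1 i0.succ ⬝ᵥ (A *ᵥ vv (pl a' x' t))) ^ 2 ≤ N * B := h4.trans (mul_le_mul_of_nonneg_left h3 hN.le)
    calc (ev1 i0.succ ⬝ᵥ (A *ᵥ vv (pl a' x' t))) ^ 2 * R ≤ (N * B) * N :=
          mul_le_mul h5 h1 hR.le (by positivity)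
      _ = B * N ^ 2 := by ring
  · apply sht_slope h i0 A hK
    intro i
    have h4 := qf_cs hA.1 (fun v => hA.nonneg v) (ev1 i0.succ) (ev1 i)
    rw [div_pow, div_le_iff₀ (by positivity)]
    calc (ev1 i0.succ ⬝ᵥ (A *ᵥ ev1 i)) ^ 2 ≤ N * qf A (ev1 i) := h4
      _ ≤ N * (K * N) := mul_le_mul_of_nonneg_left (h2 i) hN.le
      _ = K * N ^ 2 := by ring

variable {S : Sp} {s : Sys S m} {s' : Sys S q}

/-- **SHEETS FROM FORMS** -/
theorem HH_of_forms {κ : Fin q → Fin m} (hκ : Function.Injective κ)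
    (ha : ∀ k ω i, s'.a.v k ω i = s.a.v k ω (κ i)) (hx : ∀ k ω i, s'.x.v k ω i = s.x.v k ω (κ i))
    (ht : ∀ k ω, s'.t.v k ω 0 = s.t.v k ω 0) {c σ : ℝ} (h0 : 0 ≤ σ) (h1 : σ ≤ 1) {l : Lab S} (hl : DMc s c l)
    (A : ∀ k, (l k).T.Ω → Matrix (Mon (q + 1) 1) (Mon (q + 1) 1) ℝ)
    (hA : ∀ᶠ k in UF, ∀ ω, (l k).T.μ ω ≠ 0 → PdM (A k ω))
    (hV : ∀ k ω ω', (l k).T.μ ω ≠ 0 → (l k).T.μ ω' ≠ 0 → (l k).V ω ω' → (l k).T.Z ω ω' → A k ω = A k ω') (i0 : Fin q)
    (hT : ∀ e : ℝ, 0 < e → Tendsto (fun k => (l k).T.pb (fun ω =>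
      ¬ (qf (A k ω) (vv (ptf s' k ((l k).p.π ω))) ≤ 2 ^ (e * (S.F k).n) ∧
        2 ^ (2 * (σ - e) * (S.F k).n) ≤ qf (A k ω) (ev1 i0.succ) ∧
        ∀ i, qf (A k ω) (ev1 i) ≤ 2 ^ (e * (S.F k).n) * qf (A k ω) (ev1 i0.succ)))) UF (𝓝 0)) :
    HH (SJ (κ i0) (Jk κ i0)) s c σ := by
  have hcap : ∀ k, (1 : ℝ) ≤ 2 ^ (σ * (S.F k).n) ∧ (2 : ℝ) ^ (σ * (S.F k).n) ≤ 2 ^ (S.F k).n := by
    intro k
    have hn := (S.F k).pos
    exact ⟨Real.one_le_rpow (by norm_num) (by positivity),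
      Real.rpow_le_rpow_of_exponent_le (by norm_num) (by nlinarith)⟩
  set f : LFm (SJ (κ i0) (Jk κ i0)) s := fun k =>
    { l := l k
      A := fun ω => (sht κ i0 (A k ω), (2 : ℝ) ^ (σ * (S.F k).n))
      hA := fun ω ω' a b c d => by rw [hV k ω ω' a b c d]
      hc := fun _ _ => hcap k } with hf
  refine ⟨f, hl, fun e he => ?_, fun e he => ?_⟩
  · have he' : 0 < e / 6 := by linarith
    have hS : S.Sub (fun _ => (1 : ℝ) + ((m : ℝ) + 1)) := S.Sub_const (by positivity)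
    filter_upwards [hA, (hT _ he').eventually (gt_mem_nhds he), hS.eventually_le he'] with k hAk hTk hSk
    have hn := (S.F k).pos
    have h2 := (l k).T.pb_add_compl (fun ω => (qf (A k ω) (vv (ptf s' k ((l k).p.π ω))) ≤ 2 ^ (e / 6 * (S.F k).n) ∧
        2 ^ (2 * (σ - e / 6) * (S.F k).n) ≤ qf (A k ω) (ev1 i0.succ) ∧
        ∀ i, qf (A k ω) (ev1 i) ≤ 2 ^ (e / 6 * (S.F k).n) * qf (A k ω) (ev1 i0.succ)))
    refine le_trans (show 1 - e ≤ (l k).T.pb (fun ω => (qf (A k ω) (vv (ptf s' k ((l k).p.π ω))) ≤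
        2 ^ (e / 6 * (S.F k).n) ∧ 2 ^ (2 * (σ - e / 6) * (S.F k).n) ≤ qf (A k ω) (ev1 i0.succ) ∧
        ∀ i, qf (A k ω) (ev1 i) ≤ 2 ^ (e / 6 * (S.F k).n) * qf (A k ω) (ev1 i0.succ))) by linarith) ?_
    apply (l k).T.pb_mono
    rintro ω hω ⟨g1, g2, g3⟩
    have e1 : (f k).phv ω = ((2 : ℝ) ^ (σ * (S.F k).n) * df (κ i0) (Jk κ i0) (sht κ i0 (A k ω))
        (s.a.v k ((l k).p.π ω)) (s.x.v k ((l k).p.π ω)) (s.t.v k ((l k).p.π ω) 0)) ^ 2 +
        ∑ j, ((sht κ i0 (A k ω)).2 j) ^ 2 := rfl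
    show (f k).phv ω ≤ (2 : ℝ) ^ (e * (S.F k).n)
    have hP : pl (s'.a.v k ((l k).p.π ω)) (s'.x.v k ((l k).p.π ω)) (s.t.v k ((l k).p.π ω) 0) =
        ptf s' k ((l k).p.π ω) := by
      rw [← ht]
      rfl
    obtain ⟨r1, r2⟩ := sht_le hκ i0 (A k ω) (hAk ω hω) (R := 2 ^ (2 * (σ - e / 6) * (S.F k).n))
      (K := 2 ^ (e / 6 * (S.F k).n)) (B := 2 ^ (e / 6 * (S.F k).n)) (by positivity) (by positivity) (by positivity)
      g2 g3 (s.a.v k ((l k).p.π ω)) (s.x.v k ((l k).p.π ω)) (s'.a.v k ((l k).p.π ω)) (s'.x.v k ((l k).p.π ω))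
      (ha k _) (hx k _) (s.t.v k ((l k).p.π ω) 0) (by rw [hP]; exact g1)
    rw [e1, mul_pow]
    have e2 : ((2 : ℝ) ^ (σ * (S.F k).n)) ^ 2 = 2 ^ (2 * σ * (S.F k).n) := by
      rw [← Real.rpow_natCast, ← Real.rpow_mul (by norm_num)]
      congr 1
      push_cast
      ring
    have e3 : (2 : ℝ) ^ (2 * σ * (S.F k).n) * (2 ^ (e / 6 * (S.F k).n) / 2 ^ (2 * (σ - e / 6) * (S.F k).n)) =
        2 ^ (3 * (e / 6) * (S.F k).n) := by
      rw [← Real.rpow_sub (by norm_num), ← Real.rpow_add (by norm_num)]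
      congr 1
      ring
    have e4 : ∑ j, ((sht κ i0 (A k ω)).2 j) ^ 2 ≤ ((m : ℝ) + 1) * 2 ^ (e / 6 * (S.F k).n) := by
      refine (Finset.sum_le_sum fun j _ => r2 j).trans (le_of_eq ?_)
      rw [Finset.sum_const, Finset.card_univ, Fintype.card_fin, nsmul_eq_mul]
      push_cast
      ring
    have e5 : (2 : ℝ) ^ (2 * σ * (S.F k).n) * (df (κ i0) (Jk κ i0) (sht κ i0 (A k ω)) (s.a.v k ((l k).p.π ω))
        (s.x.v k ((l k).p.π ω)) (s.t.v k ((l k).p.π ω) 0)) ^ 2 ≤ 2 ^ (3 * (e / 6) * (S.F k).n) := by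
      rw [← e3]
      exact mul_le_mul_of_nonneg_left r1 (by positivity)
    have e6 : (2 : ℝ) ^ (e / 6 * (S.F k).n) ≤ 2 ^ (3 * (e / 6) * (S.F k).n) :=
      Real.rpow_le_rpow_of_exponent_le (by norm_num) (by nlinarith)
    rw [e2]
    calc _ ≤ (2 : ℝ) ^ (3 * (e / 6) * (S.F k).n) + ((m : ℝ) + 1) * 2 ^ (3 * (e / 6) * (S.F k).n) :=
          add_le_add e5 (e4.trans (mul_le_mul_of_nonneg_left e6 (by positivity)))
      _ = (1 + ((m : ℝ) + 1)) * 2 ^ (3 * (e / 6) * (S.F k).n) := by ring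
      _ ≤ 2 ^ (e / 6 * (S.F k).n) * 2 ^ (3 * (e / 6) * (S.F k).n) :=
          mul_le_mul_of_nonneg_right (by linarith) (by positivity)
      _ = 2 ^ (4 * (e / 6) * (S.F k).n) := by
          rw [← Real.rpow_add (by norm_num)]
          congr 1
          ring
      _ ≤ 2 ^ (e * (S.F k).n) := Real.rpow_le_rpow_of_exponent_le (by norm_num) (by nlinarith)
  · refine Eventually.of_forall fun k => ?_
    have hn := (S.F k).pos
    have h2 : (f k).gp (2 * (σ - e)) = 1 := by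
      apply pb_eq_one
      intro ω _
      have e1 : (f k).gav ω = ((2 : ℝ) ^ (σ * (S.F k).n)) ^ 2 := rfl
      show (2 : ℝ) ^ (2 * (σ - e) * (S.F k).n) ≤ (f k).gav ω
      rw [e1, ← Real.rpow_natCast, ← Real.rpow_mul (by norm_num)]
      apply Real.rpow_le_rpow_of_exponent_le (by norm_num)
      push_cast
      nlinarith
    rw [h2]
    linarith

end

end Pool.Agent.Helper39.LIP
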