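import Pool.Agent.Helper39.LIP.St

/-! LIP(A), (2.2): the canonical 1-form of the base over the pair of labels of the window `c₀` has a larger volume than
the canonical 1-form of the window `c`, outside an event of small probability. -/

set_option autoImplicit false

namespace Pool.Agent.Helper39.LIP

open Finset Filter Topology Matrix Pool.Agent.Helper69.RK Pool.Agent.Helper31.EC Pool.Agent.Helper40.EL
open Pool.Agent.Helper31.EC.Sp
open Pool.Agent.Helper89.LX Pool.Agent.Helper3.LF Pool.Agent.Helper48.NS Pool.Agent.Helper48.LIP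
open Pool.Agent.Helper3.PR Pool.Agent.Helper3.SG
open Pool.Agent.Helper95.LF (PdM)

noncomputable section

variable {S : Sp} {m q : ℕ}

/-- the identity -/
def fid (F : FSp) : FPj F F where
  π := fun ω => ω
  law := by
    funext ω
    rw [push_ind]
    rw [Finset.sum_eq_single ω]
    · rw [e1_ind_pos rfl, one_mul]
    · intro b _ hb
      rw [e1_ind_neg hb, zero_mul]
    · intro h
      exact absurd (Finset.mem_univ _) h
  hZ := fun _ _ _ _ => Iff.rfl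

theorem fid_map (F : FSp) (x : FL F) : (fid F).map x = x := by
  induction x using fc_ind
  rfl

namespace XO

variable {s : Sys S m} {s' : Sys S q} {ι : Type} {x : ∀ k, FD (S.F k) ι} {x' : ∀ k, FD (S.F k) (Mon (q + 1) 1)}
  {c : ℝ} (O : XO s s' x x' c)

theorem map_p (k : ℕ) (y : FL (S.F k)) : (O.X k).l.p.map y = (O.r k).map (M3 s x (lb x') c k y) := by
  rw [O.hp k, FPj.comp_map]

theorem pt (k : ℕ) (ω : (O.X k).l.T.Ω) (hω : (O.X k).l.T.μ ω ≠ 0) :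
    (x' k).l.p.π ((O.pk k).π ω) = (O.X k).l.p.π ω := by
  have h1 := (O.r k).supp ω hω
  have h2 := pK_pt s x (lb x') c k ((O.r k).π ω) h1
  have h3 : (O.X k).l.p.π ω = (Lab3 s x (lb x') c k).p.π ((O.r k).π ω) := by
    rw [O.hp k]
    rfl
  rw [h3]
  exact h2

theorem Xn (k : ℕ) : (O.X k).l.T.n = (x' k).l.T.n := (O.X k).l.hn.trans (x' k).l.hn.symm

/-- the canonical form of the window on the space of `X` -/
def Y (k : ℕ) : FD (S.F k) (Mon (q + 1) 1) := exFD (x' k) (O.pk k) (O.Xn k)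

theorem Y_Opt (hx' : IsCanP s s' 1 c x') : (gau s' 1).Opt (cA s c) (cB s) O.Y :=
  exFD_Opt (gau s' 1) hx'.1 O.pk O.Xn

theorem K_le_V (k : ℕ) : (O.r k).map (M3 s x (lb x') c k ⊥) ≤ (O.X k).l.v := by
  have h1 : M3 s x (lb x') c k ⊥ = ⊥ := FPj.map_bot _
  rw [h1, FPj.map_bot]
  exact bot_le

/-- the label of the window is known to the labels of the pair -/
theorem K_le2 (k : ℕ) : (O.pk k).map (x' k).l.v ≤ (O.r k).map (K2 s x (lb x') c k) := by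
  have h1 : (O.pk k).map (x' k).l.v = (O.r k).map ((pK s x (lb x') c k).map (x' k).l.v) := FPj.comp_map _ _ _
  rw [h1]
  apply FPj.map_mono
  have h2 := K_le_k2 ((x k).jn ((lb x') k)).l (jK (x k) ((lb x') k)) (cAs s c k) (jK_le (x k) ((lb x') k))
  exact h2

theorem K_le1 (k : ℕ) : (O.pk k).map (x' k).l.v ≤ (O.r k).map (K1 s x (lb x') c k) := by
  have h1 : (O.pk k).map (x' k).l.v = (O.r k).map ((pK s x (lb x') c k).map (x' k).l.v) := FPj.comp_map _ _ _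
  rw [h1]
  apply FPj.map_mono
  have h2 := K_le_k1 ((x k).jn ((lb x') k)).l (jK (x k) ((lb x') k)) (cAs s c k) (jK_le (x k) ((lb x') k))
  exact h2

theorem U_le_V (k : ℕ) : (O.r k).map (Lab3 s x (lb x') c k).v ≤ (O.X k).l.v := fc_mono (O.hV k)

/-- the upper bound of the entropy of the point on an event: volume count for the base, count of the last coordinate -/
theorem up_h {κ : ∀ k, FL (O.X k).l.T} (hκ : ∀ k, (O.pk k).map (x' k).l.v ≤ κ k) (E : ∀ k, (O.X k).l.T.Ω → Prop) {q₀ : ℝ} (hq₀ : 0 < q₀)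
    (hE : ∀ᶠ k in UF, q₀ ≤ (O.X k).l.T.pb (E k)) {b L : ℝ}
    (hZ : ∀ᶠ k in UF, h ((O.X k).l.p.map (qP s k)) (κ k ⊔ (O.X k).l.p.map (qP s' k) ⊔ (O.X k).l.p.map (qT s k)) ≤
      b * (S.F k).n)
    (hM : ∀ᶠ k in UF, h ((O.X k).l.T.rmap (E k) ((O.X k).l.p.map (qP s' k)))
      ((O.X k).l.T.rmap (E k) ((O.pk k).map (x' k).l.v) ⊔ (O.X k).l.T.rmap (E k) ((O.X k).l.p.map (qT s k))) ≤
        L * (S.F k).n) :
    ∀ᶠ k in UF, h ((O.X k).l.T.rmap (E k) ((O.X k).l.p.map (qP s k)))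
      ((O.X k).l.T.rmap (E k) (κ k) ⊔ (O.X k).l.T.rmap (E k) ((O.X k).l.p.map (qT s k))) ≤
        (L + b / q₀) * (S.F k).n := by
  filter_upwards [hE, hZ, hM] with k h1 h2 h3
  have hn := (S.F k).pos
  set F := (O.X k).l.T with hF
  set P := F.rmap (E k) ((O.X k).l.p.map (qP s k)) with hP
  set M := F.rmap (E k) ((O.X k).l.p.map (qP s' k)) with hM'
  set t := F.rmap (E k) ((O.X k).l.p.map (qT s k)) with ht
  set κ' := F.rmap (E k) (κ k) with hκ'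
  have g1 : h P (κ' ⊔ t) ≤ h M (κ' ⊔ t) + h P (M ⊔ (κ' ⊔ t)) := by
    have a1 : h P (κ' ⊔ t) ≤ h (M ⊔ P) (κ' ⊔ t) := h_mono le_sup_right
    have a2 : h (M ⊔ P) (κ' ⊔ t) = h M (κ' ⊔ t) + h P (M ⊔ (κ' ⊔ t)) := h_chain _ _ _
    rw [a2] at a1
    exact a1
  have g2 : h M (κ' ⊔ t) ≤ h M (F.rmap (E k) ((O.pk k).map (x' k).l.v) ⊔ t) :=
    h_anti (sup_le_sup_right (F.rmap_mono (E k) (hκ k)) _)
  have g3 : h P (M ⊔ (κ' ⊔ t)) ≤ b / q₀ * (S.F k).n := by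
    have a1 := F.rmap_h_le (E k) ((O.X k).l.p.map (qP s k))
      (κ k ⊔ (O.X k).l.p.map (qP s' k) ⊔ (O.X k).l.p.map (qT s k))
    rw [FSp.rmap_sup, FSp.rmap_sup] at a1
    have a2 : κ' ⊔ M ⊔ t = M ⊔ (κ' ⊔ t) := by
      rw [sup_comm κ' M, sup_assoc]
    rw [a2] at a1
    have a3 : q₀ * h P (M ⊔ (κ' ⊔ t)) ≤ b * (S.F k).n :=
      (mul_le_mul_of_nonneg_right h1 (h_nonneg _ _)).trans (a1.trans h2)
    rw [div_mul_eq_mul_div, le_div_iff₀ hq₀, mul_comm]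
    exact a3
  calc h P (κ' ⊔ t) ≤ h M (κ' ⊔ t) + h P (M ⊔ (κ' ⊔ t)) := g1
    _ ≤ L * (S.F k).n + b / q₀ * (S.F k).n := add_le_add (g2.trans h3) g3
    _ = _ := by ring

/-- the lower bound of the entropy of the point on an event -/
theorem lo_h (fac : Fac s s') (E : ∀ k, (O.X k).l.T.Ω → Prop) {q₀ : ℝ} (hq₀ : 0 < q₀)
    (hE : ∀ᶠ k in UF, q₀ ≤ (O.X k).l.T.pb (E k)) {G : ℝ}
    (hG : ∀ᶠ k in UF, ∑ ω, ((O.X k).l.T.rest (E k)).μ ω * Real.logb 2 (GG (S.dl 1 k) ((O.X k).g ω)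
        (ptf s' k ((O.X k).l.p.π ω))) ≤ G * (S.F k).n) (η : ℝ) (hη : 0 < η) :
    ∀ᶠ k in UF, (q - η - G / 2) * (S.F k).n ≤ h ((O.X k).l.T.rmap (E k) ((O.X k).l.p.map (qP s k)))
      ((O.X k).l.T.rmap (E k) ((O.r k).map (Lab3 s x (lb x') c k).v) ⊔
        (O.X k).l.T.rmap (E k) ((O.X k).l.p.map (qT s k))) := by
  have hEu : 0 < ul (fun k => (O.X k).l.T.pb (E k)) := by
    have hUE : UB (fun k => (O.X k).l.T.pb (E k)) :=
      UB_of_nonneg_le (C := 1) (Eventually.of_forall fun k => FSp.pb_nonneg _ _)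
        (Eventually.of_forall fun k => FSp.pb_le_one _ _)
    have h2 := ul_mono (UB_const q₀) hUE hE
    rw [ul_const] at h2
    exact hq₀.trans_le h2
  have hfac : Nul S (fun k => h (qP s' k) (qP s k ⊔ qT s k)) := by
    have h1 : PLe (rpI (s'.IP 1)) (rpI (Sp.Inf.sup (s.IP 1) (s.It 1))) := by
      rw [PLe_rpI, Sp.cl_sup, s'.cl_IP, s.cl_IP, s.cl_It]
      exact fac.fP
    exact h1
  have hη2 : 0 < η * q₀ / 2 := by positivity
  filter_upwards [O.full (fun k => (O.X k).l.T) (fun k => fid _) (fun k => (O.X k).l.hn) E hEu (η / 2) (by linarith),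
    hE, hG, hfac.eventually (gt_mem_nhds hη2)] with k h1 h2 h3 h4
  have hn := (S.F k).pos
  rw [div_lt_iff₀ hn] at h4
  rw [fid_map, fid_map, fid_map] at h1
  set F := (O.X k).l.T with hF
  set P := F.rmap (E k) ((O.X k).l.p.map (qP s k)) with hP
  set M := F.rmap (E k) ((O.X k).l.p.map (qP s' k)) with hM'
  set t := F.rmap (E k) ((O.X k).l.p.map (qT s k)) with ht
  set V := F.rmap (E k) (O.X k).l.v with hV'
  set U := F.rmap (E k) ((O.r k).map (Lab3 s x (lb x') c k).v) with hU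
  have g1 : h M (V ⊔ t) ≤ h P (U ⊔ t) + h M (P ⊔ t) := by
    have a1 : h M (V ⊔ t) ≤ h M (U ⊔ t) := h_anti (sup_le_sup_right (F.rmap_mono (E k) (O.U_le_V k)) _)
    have a2 : h M (U ⊔ t) ≤ h (P ⊔ M) (U ⊔ t) := h_mono le_sup_right
    have a3 : h (P ⊔ M) (U ⊔ t) = h P (U ⊔ t) + h M (P ⊔ (U ⊔ t)) := h_chain _ _ _
    have a4 : h M (P ⊔ (U ⊔ t)) ≤ h M (P ⊔ t) := h_anti (sup_le_sup_left le_sup_right _)
    linarith
  have g2 : h M (P ⊔ t) ≤ η / 2 * (S.F k).n := by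
    have a1 := F.rmap_h_le (E k) ((O.X k).l.p.map (qP s' k)) ((O.X k).l.p.map (qP s k ⊔ qT s k))
    rw [FPj.h_map, FPj.map_sup, FSp.rmap_sup] at a1
    have a3 : q₀ * h M (P ⊔ t) ≤ η * q₀ / 2 * (S.F k).n :=
      (mul_le_mul_of_nonneg_right h2 (h_nonneg _ _)).trans (a1.trans h4.le)
    have a4 : η * q₀ / 2 * (S.F k).n = q₀ * (η / 2 * (S.F k).n) := by ring
    rw [a4] at a3
    exact le_of_mul_le_mul_left a3 hq₀
  have h1' : ((q : ℝ) - η / 2) * (S.F k).n - 1 / 2 * ∑ ω, (F.rest (E k)).μ ω * Real.logb 2 (GG (S.dl 1 k)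
      ((O.X k).g ω) (ptf s' k ((O.X k).l.p.π ω))) ≤ h M (V ⊔ t) := h1
  have e1 : ((q : ℝ) - η - G / 2) * (S.F k).n = (q - η / 2) * (S.F k).n - 1 / 2 * (G * (S.F k).n) -
      η / 2 * (S.F k).n := by ring
  rw [e1]
  linarith

/-- the relative volume of `X` is small -/
def Bd (θ : ℝ) (k : ℕ) (ω : (O.X k).l.T.Ω) : Prop :=
  GG (S.dl 1 k) ((O.X k).g ω) (ptf s' k ((O.X k).l.p.π ω)) ≤
    2 ^ (2 * θ * (S.F k).n) * GG (S.dl 1 k) (O.g₀ k ω) (ptf s' k ((O.X k).l.p.π ω))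

end XO

/-- (2.2) THE VOLUME INCREASES: if the relative volume of the canonical 1-form over the pair of labels is small with
probability at least `q₀`, then the form of the window `c₀` is known on the window `c` up to a small loss -/
theorem bad22 (m q D : ℕ) : ∃ Cc : ℝ, 0 ≤ Cc ∧ ∀ {S : Sp} (s : Sys S m) (s' : Sys S q), Fac s s' → 1 ≤ D →
    Pool.Agent.Helper42.NS.RobH s → ∀ {c₀ c : ℝ}, 0 ≤ c → c < c₀ → c₀ < 1 → RobV s s' 1 c →
    ∀ {x : ∀ k, FD (S.F k) (Mon (m + 1) D)}, IsCan s D c₀ x → ∀ {x' : ∀ k, FD (S.F k) (Mon (q + 1) 1)},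
    IsCanP s s' 1 c x' → ∀ {σ : ℝ}, Hf s D c₀ σ → ∀ (O : XO s s' x x' c) {a b : ℝ},
    (∀ᶠ k in UF, (Lab3 s x (lb x') c k).leak (cB s k) ≤ a * (S.F k).n) →
    (∀ᶠ k in UF, h ((O.X k).l.p.map (qP s k)) ((O.r k).map (K1 s x (lb x') c k) ⊔ (O.X k).l.p.map (qP s' k) ⊔
      (O.X k).l.p.map (qT s k)) ≤ b * (S.F k).n) →
    (∀ᶠ k in UF, h ((O.X k).l.p.map (qP s k)) ((O.r k).map (K2 s x (lb x') c k) ⊔ (O.X k).l.p.map (qP s' k) ⊔
      (O.X k).l.p.map (qT s k)) ≤ b * (S.F k).n) →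
    ∀ {θ q₀ : ℝ}, 0 < q₀ → (∀ᶠ k in UF, q₀ ≤ (O.X k).l.T.pb (O.Bd θ k)) →
    (∀ e : ℝ, 0 < e → ∀ᶠ k in UF, h ((O.X k).l.T.rmap (O.Bd θ k) ((O.X k).l.p.map (qP s' k)))
      ((O.X k).l.T.rmap (O.Bd θ k) ((O.pk k).map (x' k).l.v) ⊔
        (O.X k).l.T.rmap (O.Bd θ k) ((O.X k).l.p.map (qT s k))) ≤
      (q + e) * (S.F k).n - (1 / 2) * ∑ ω, ((O.X k).l.T.rest (O.Bd θ k)).μ ω * Real.logb 2 (GG (S.dl 1 k)
        (O.g₀ k ω) (ptf s' k ((O.X k).l.p.π ω)))) →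
    ∀ e : ℝ, 0 < e → e ≤ D * (1 - c₀) → 4 * D * (θ + (a + b) / q₀) < e →
    Hf s D c (σ - Cc * (e + D * (c₀ - c))) := by
  obtain ⟨Cc, hCc, hl⟩ := drop_H m D
  refine ⟨Cc, hCc, ?_⟩
  intro S s s' fac hD hR c₀ c h0 hc h1 hV x hx x' hx' σ hσ O a b ha hb1 hb2 θ q₀ hq₀ hE hM e he he1 hpe
  have hD' : (0 : ℝ) < D := by exact_mod_cast hD
  set η : ℝ := (e - 4 * D * (θ + (a + b) / q₀)) / (32 * D) with hη
  have hη0 : 0 < η := by
    rw [hη]
    apply div_pos <;> linarith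
  set Λ := Pool.Agent.Helper52.SL.lvolP s s' 1 c with hΛ
  set E : ∀ k, (O.X k).l.T.Ω → Prop := O.Bd θ with hEd
  have hEu : 0 < ul (fun k => (O.X k).l.T.pb (E k)) := by
    have hUE : UB (fun k => (O.X k).l.T.pb (E k)) :=
      UB_of_nonneg_le (C := 1) (Eventually.of_forall fun k => FSp.pb_nonneg _ _)
        (Eventually.of_forall fun k => FSp.pb_le_one _ _)
    have h2 := ul_mono (UB_const q₀) hUE hE
    rw [ul_const] at h2
    exact hq₀.trans_le h2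
  have hEG : ∀ k, EG s' O.Y E k = ∑ ω, ((O.X k).l.T.rest (E k)).μ ω * Real.logb 2 (GG (S.dl 1 k)
      (O.g₀ k ω) (ptf s' k ((O.X k).l.p.π ω))) := by
    intro k
    unfold EG
    refine Finset.sum_congr rfl fun ω _ => ?_
    by_cases h0 : ((O.X k).l.T.rest (E k)).μ ω = 0
    · have h0' : ((O.Y k).l.T.rest (E k)).μ ω = 0 := h0
      rw [h0, h0', zero_mul, zero_mul]
    · have h2 := ((O.X k).l.T.rest_supp (E k) ω h0).1
      have h3 := O.pt k ω h2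
      have h4 : (O.Y k).l.p.π ω = (O.X k).l.p.π ω := h3
      rw [h4]
      rfl
  have g1 := rob_lo hV (O.Y_Opt hx') E hEu η hη0
  have g2 := rob_up hV (O.Y_Opt hx').1 E hEu η hη0
  have hcY : ∀ᶠ k in UF, ∀ ω, (O.X k).l.T.μ ω ≠ 0 → PdM (O.g₀ k ω) := by
    filter_upwards [(O.Y_Opt hx').1 1 one_pos] with k hk ω hω
    exact (hk.2.2.1 ω hω).1.pdM
  -- the upper bound
  have hMu : ∀ᶠ k in UF, h ((O.X k).l.T.rmap (E k) ((O.X k).l.p.map (qP s' k)))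
      ((O.X k).l.T.rmap (E k) ((O.pk k).map (x' k).l.v) ⊔ (O.X k).l.T.rmap (E k) ((O.X k).l.p.map (qT s k))) ≤
      (q + η - (Λ - η) / 2) * (S.F k).n := by
    filter_upwards [hM η hη0, g1] with k h2 h3
    rw [hEG] at h3
    refine h2.trans ?_
    have e1 : ((q : ℝ) + η - (Λ - η) / 2) * (S.F k).n = (q + η) * (S.F k).n - 1 / 2 * ((Λ - η) * (S.F k).n) := by
      ring
    rw [e1]
    linarith
  have u2 := O.up_h (κ := fun k => (O.r k).map (K2 s x (lb x') c k)) O.K_le2 E hq₀ hE hb2 hMu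
  have u1 := O.up_h (κ := fun k => (O.r k).map (K1 s x (lb x') c k)) O.K_le1 E hq₀ hE hb1 hMu
  -- the lower bound
  have hGu : ∀ᶠ k in UF, ∑ ω, ((O.X k).l.T.rest (E k)).μ ω * Real.logb 2 (GG (S.dl 1 k) ((O.X k).g ω)
        (ptf s' k ((O.X k).l.p.π ω))) ≤ (Λ + η + 2 * θ) * (S.F k).n := by
    filter_upwards [g2, hE, O.cpd, hcY] with k h2 h3 h4 h5
    rw [hEG] at h2
    have hn := (S.F k).pos
    have hE0 : (O.X k).l.T.pb (E k) ≠ 0 := (hq₀.trans_le h3).ne'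
    have h6 : ∑ ω, ((O.X k).l.T.rest (E k)).μ ω * Real.logb 2 (GG (S.dl 1 k) ((O.X k).g ω)
        (ptf s' k ((O.X k).l.p.π ω))) ≤ ∑ ω, ((O.X k).l.T.rest (E k)).μ ω * (Real.logb 2 (GG (S.dl 1 k)
      (O.g₀ k ω) (ptf s' k ((O.X k).l.p.π ω))) + 2 * θ * (S.F k).n) := by
      apply Finset.sum_le_sum
      intro ω _
      by_cases h0 : ((O.X k).l.T.rest (E k)).μ ω = 0
      · rw [h0, zero_mul, zero_mul]
      · apply mul_le_mul_of_nonneg_left _ (((O.X k).l.T.rest (E k)).nn ω)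
        have a1 := (O.X k).l.T.rest_supp (E k) ω h0
        have a2 : O.Bd θ k ω := a1.2 hE0
        have a3 := GG_pos' (S.dl 1 k) (h5 ω a1.1) (ptf s' k ((O.X k).l.p.π ω))
        have a4 := GG_pos' (S.dl 1 k) (h4 ω a1.1).pdM (ptf s' k ((O.X k).l.p.π ω))
        have a5 := Real.logb_le_logb_of_le (b := 2) (by norm_num) a4 a2
        rw [Real.logb_mul (by positivity) a3.ne', Real.logb_rpow (by norm_num) (by norm_num)] at a5
        linarith
    refine h6.trans ?_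
    have e2 : ∑ ω, ((O.X k).l.T.rest (E k)).μ ω * (Real.logb 2 (GG (S.dl 1 k)
      (O.g₀ k ω) (ptf s' k ((O.X k).l.p.π ω))) + 2 * θ * (S.F k).n) =
      ∑ ω, ((O.X k).l.T.rest (E k)).μ ω * Real.logb 2 (GG (S.dl 1 k)
      (O.g₀ k ω) (ptf s' k ((O.X k).l.p.π ω))) + 2 * θ * (S.F k).n := by
      rw [Finset.sum_congr rfl (fun ω _ => mul_add _ _ _), Finset.sum_add_distrib, ← Finset.sum_mul]
      have e3 : ∑ ω, ((O.X k).l.T.rest (E k)).μ ω = 1 := ((O.X k).l.T.rest (E k)).ms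
      rw [e3, one_mul]
    rw [e2]
    have e4 : (Λ + η + 2 * θ) * (S.F k).n = (Λ + η) * (S.F k).n + 2 * θ * (S.F k).n := by ring
    rw [e4]
    linarith
  have v1 := O.lo_h fac E hq₀ hE hGu η hη0
  have hu1 : ∀ᶠ k in UF, h (((O.X k).l.T).rmap (E k) ((O.r k).map (M3 s x (lb x') c k (qP s k))))
      (((O.X k).l.T).rmap (E k) ((O.r k).map (K1 s x (lb x') c k)) ⊔
        ((O.X k).l.T).rmap (E k) ((O.r k).map (M3 s x (lb x') c k (qT s k)))) ≤
        (q + η - (Λ - η) / 2 + b / q₀) * (S.F k).n := by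
    filter_upwards [u1] with k hk
    rw [← O.map_p, ← O.map_p]
    exact hk
  have hu2 : ∀ᶠ k in UF, h (((O.X k).l.T).rmap (E k) ((O.r k).map (M3 s x (lb x') c k (qP s k))))
      (((O.X k).l.T).rmap (E k) ((O.r k).map (K2 s x (lb x') c k)) ⊔
        ((O.X k).l.T).rmap (E k) ((O.r k).map (M3 s x (lb x') c k (qT s k)))) ≤
        (q + η - (Λ - η) / 2 + b / q₀) * (S.F k).n := by
    filter_upwards [u2] with k hk
    rw [← O.map_p, ← O.map_p]
    exact hk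
  have hv : ∀ᶠ k in UF, (q - η - (Λ + η + 2 * θ) / 2) * (S.F k).n ≤
      h (((O.X k).l.T).rmap (E k) ((O.r k).map (M3 s x (lb x') c k (qP s k))))
      (((O.X k).l.T).rmap (E k) ((O.r k).map (Lab3 s x (lb x') c k).v) ⊔
        ((O.X k).l.T).rmap (E k) ((O.r k).map (M3 s x (lb x') c k (qT s k)))) := by
    filter_upwards [v1] with k hk
    rw [← O.map_p, ← O.map_p]
    exact hk
  refine hl s hD hR h0 hc h1 hx hx'.2 hσ (fun k => (O.X k).l.T) O.r (fun k => (O.X k).l.hn) E hq₀ hE ha hu1 hu2 hv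
    e he he1 ?_
  have e5 : (q : ℝ) + η - (Λ - η) / 2 + b / q₀ - (q - η - (Λ + η + 2 * θ) / 2) + a / q₀ =
      θ + (a + b) / q₀ + 3 * η := by
    rw [add_div]
    ring
  rw [e5]
  have e6 : 4 * D * (θ + (a + b) / q₀ + 3 * η) = 4 * D * (θ + (a + b) / q₀) +
      3 / 8 * (e - 4 * D * (θ + (a + b) / q₀)) := by
    rw [hη]
    field_simp
    ring
  rw [e6]
  linarith

end

end Pool.Agent.Helper39.LIP
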