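import Pool.Agent.Helper39.LIP.Aff
import Pool.Agent.Helper42.NS.Obp

/-! Factors which are given by some of the coordinates. -/

set_option autoImplicit false

namespace Pool.Agent.Helper39.LIP

open Finset Filter Topology Matrix Pool.Agent.Helper69.RK Pool.Agent.Helper31.EC Pool.Agent.Helper40.EL
open Pool.Agent.Helper89.LX Pool.Agent.Helper3.LF Pool.Agent.Helper42.NS

noncomputable section

variable {S : Sp} {m q : ℕ} {s : Sys S m} {s' : Sys S q}

/-- the factor is given by some of the coordinates -/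
structure Crd (s : Sys S m) (s' : Sys S q) (κ : Fin q → Fin m) : Prop where
  a : ∀ k ω i, s'.a.v k ω i = s.a.v k ω (κ i)
  x : ∀ k ω i, s'.x.v k ω i = s.x.v k ω (κ i)
  t : ∀ k ω, s'.t.v k ω 0 = s.t.v k ω 0

theorem Crd.ptf {κ : Fin q → Fin m} (h : Crd s s' κ) (k : ℕ) (ω : (S.F k).Ω) (i : Fin (q + 1)) :
    ptf s' k ω i = ptf s k ω (kap1 κ i) := by
  refine Fin.cases ?_ (fun i => ?_) i
  · exact h.t k ω
  · show s'.a.v k ω i + s'.t.v k ω 0 * s'.x.v k ω i = s.a.v k ω (κ i) + s.t.v k ω 0 * s.x.v k ω (κ i)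
    rw [h.a, h.x, h.t]

/-- the projection by a coordinate matrix -/
theorem Crd.prB {B : Matrix (Fin q) (Fin m) ℝ} {κ : Fin q → Fin m} (hB : ∀ i j, B i j = if κ i = j then 1 else 0)
    (s : Sys S m) : Crd s (Pool.Agent.Helper42.NS.prB B s) κ where
  a := by
    intro k ω i
    show ∑ j, B i j * s.a.v k ω j = s.a.v k ω (κ i)
    rw [Finset.sum_congr rfl fun j _ => by rw [hB]]
    simp
  x := by
    intro k ω i
    show ∑ j, B i j * s.x.v k ω j = s.x.v k ω (κ i)
    rw [Finset.sum_congr rfl fun j _ => by rw [hB]]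
    simp
  t := fun _ _ => rfl

end

end Pool.Agent.Helper39.LIP
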