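import Pool.Agent.Helper39.LIP.Clo
import Pool.Agent.Helper39.LIP.Bad
import Pool.Agent.Helper93.LIP.LineX
import Pool.Agent.Helper39.LIP.Crd
import Pool.Agent.Helper48.LIP.Zvel
import Pool.Agent.Helper52.L24.Lmp
import Pool.Agent.Helper52.L24.Alg

/-! (2.4) of LIP(A): if the top conormals of `X` were close for copies given the label of the window and each of the two
conditions, then the volume of the factor over the window would increase. -/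

set_option autoImplicit false

namespace Pool.Agent.Helper39.LIP

open Finset Filter Topology Matrix Pool.Agent.Helper69.RK Pool.Agent.Helper31.EC Pool.Agent.Helper40.EL
open Pool.Agent.Helper31.EC.Sp
open Pool.Agent.Helper89.LX Pool.Agent.Helper3.LF Pool.Agent.Helper48.NS Pool.Agent.Helper48.LIP
open Pool.Agent.Helper3.PR Pool.Agent.Helper3.SG
open Pool.Agent.Helper95.LF (PdM)

noncomputable section

/-! ### projections which agree on the support -/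

theorem map_congr {T F : FSp} {p p' : FPj T F} (h : ∀ ω, T.μ ω ≠ 0 → p.π ω = p'.π ω) (x : FL F) :
    p.map x = p'.map x := by
  induction x using fc_ind with | _ A
  rw [p.map_fc, p'.map_fc]
  apply le_antisymm
  · apply fc_le
    intro ω ω' a a' _ hA
    show A (p.π ω) (p.π ω')
    rw [h ω a, h ω' a']
    exact hA
  · apply fc_le
    intro ω ω' a a' _ hA
    show A (p'.π ω) (p'.π ω')
    rw [← h ω a, ← h ω' a']
    exact hA

theorem top_congr {T F : FSp} {p p' : FPj T F} (h : ∀ ω, T.μ ω ≠ 0 → p.π ω = p'.π ω) : p.top = p'.top := by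
  apply le_antisymm
  · apply fc_le
    intro ω ω' a a' _ hA
    show p.π ω = p.π ω'
    rw [h ω a, h ω' a']
    exact hA
  · apply fc_le
    intro ω ω' a a' _ hA
    show p'.π ω = p'.π ω'
    rw [← h ω a, ← h ω' a']
    exact hA

variable {S : Sp} {m q : ℕ} {s : Sys S m} {s' : Sys S q}

theorem ptf_pl (s' : Sys S q) (k : ℕ) (ω : (S.F k).Ω) : pl (s'.a.v k ω) (s'.x.v k ω) (s'.t.v k ω 0) = ptf s' k ω := rfl

namespace XO

variable {ι : Type} {x : ∀ k, FD (S.F k) ι} {x' : ∀ k, FD (S.F k) (Mon (q + 1) 1)} {c : ℝ} (O : XO s s' x x' c)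

theorem Xp_map (k : ℕ) (y : FL (S.F k)) : (O.X k).l.p.map y = (O.pk k).map ((x' k).l.p.map y) := by
  rw [← FPj.comp_map]
  exact map_congr (fun ω hω => (O.pt k ω hω).symm) y

theorem Xp_top (k : ℕ) : (O.X k).l.p.top = (O.pk k).map (x' k).l.p.top :=
  top_congr (p := (O.X k).l.p) (p' := (O.pk k).comp (x' k).l.p) (fun ω hω => (O.pt k ω hω).symm)

theorem lK_leak (k : ℕ) (y : FL (S.F k)) : (O.lK k).leak y = (x' k).l.leak y := by
  have h1 : (O.lK k).leak y = I ((O.pk k).map (x' k).l.v) (O.X k).l.p.top ((O.X k).l.p.map y) := rfl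
  rw [h1, O.Xp_map, O.Xp_top, FPj.I_map]
  rfl

theorem lK_info (k : ℕ) : (O.lK k).info = (x' k).l.info := by
  rw [← FLab.leak_bot, ← FLab.leak_bot]
  exact O.lK_leak k ⊥

theorem lK_IsKap (hx' : IsCanP s s' 1 c x') : IsKap s c O.lK := by
  obtain ⟨⟨h1, h2⟩, h3⟩ := hx'.2
  refine ⟨⟨?_, ?_⟩, fun l' hl' => ?_⟩
  · exact h1.of_le (Eventually.of_forall fun _ => FLab.leak_nonneg _ _)
      (Eventually.of_forall fun k => (O.lK_leak k _).le)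
  · exact h2.of_le (Eventually.of_forall fun _ => FLab.leak_nonneg _ _)
      (Eventually.of_forall fun k => (O.lK_leak k _).le)
  · refine (h3 l' hl').trans (le_of_eq ?_)
    unfold Lab.info
    congr 1
    funext k
    rw [O.lK_info k]

theorem g₀_Cpd (hx' : IsCanP s s' 1 c x') : ∀ᶠ k in UF, ∀ ω, (O.X k).l.T.μ ω ≠ 0 →
    Cpd ((gau s' 1).cp k) (O.g₀ k ω) := by
  filter_upwards [hx'.1.1 1 one_pos] with k hk ω hω
  exact (hk.2.2.1 _ ((O.pk k).supp ω hω)).1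

theorem g₀_phi (hx' : IsCanP s s' 1 c x') (η : ℝ) (hη : 0 < η) : ∀ᶠ k in UF, (O.X k).l.T.pb (fun ω =>
    ¬ sph s' 1 k ((O.X k).l.p.π ω) (O.g₀ k ω) ≤ 2 ^ (η * (S.F k).n)) ≤ η := by
  filter_upwards [hx'.1.1 η hη] with k hk
  refine le_trans (FSp.pb_mono _ ?_) ((pb_push (O.pk k) (fun ω => ¬ (gau s' 1).φ k ((x' k).l.p.π ω) ((x' k).g ω) ≤
    2 ^ (η * (S.F k).n))).le.trans hk.2.2.2.1)
  intro ω hω h1
  rw [← O.pt k ω hω] at h1
  exact h1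

theorem g₀_meas (k : ℕ) (ω ω' : (O.X k).l.T.Ω) (h : (O.X k).l.T.μ ω ≠ 0) (h' : (O.X k).l.T.μ ω' ≠ 0)
    (hK : O.K k ω ω') (hZ : (O.X k).l.T.Z ω ω') : O.g₀ k ω = O.g₀ k ω' :=
  ((x' k).meas _ _ ((O.pk k).supp ω h) ((O.pk k).supp ω' h') hK (((O.pk k).hZ ω ω' h h').mp hZ)).1

/-- the known form is bounded on the whole window -/
theorem g₀_bd (hx' : IsCanP s s' 1 c x') (hf : Fac s s') (h0 : 0 ≤ c) (h1 : c < 1) (L : ℕ → ℝ) (hL : S.Sub L)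
    (e : ℝ) (he : 0 < e) :
    Tendsto (fun k => (O.X k).l.T.pb (fun ω => ¬ ∀ r, |r - s.t.v k ((O.X k).l.p.π ω) 0| ≤ L k * S.dl c k →
      Pool.Agent.Helper3.LF.phi (S.dl 1 k) (O.g₀ k ω) (pl (s'.a.v k ((O.X k).l.p.π ω)) (s'.x.v k ((O.X k).l.p.π ω)) r) ≤
        2 ^ (e * (S.F k).n))) UF (𝓝 0) := by
  refine Pool.Agent.Helper93.LIP.line_bd hf h0 h1 (l := O.lK) (O.lK_IsKap hx').1.1 O.g₀ ?_ ?_ ?_ L hL e he
  · filter_upwards [O.g₀_Cpd hx'] with k hk ω hω using (hk ω hω).pdM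
  · exact Eventually.of_forall fun k ω ω' h h' hV hZ => O.g₀_meas k ω ω' h h' hV hZ
  · intro e he
    exact O.g₀_phi hx' e he

/-! ### the form of the agreement -/

/-- the top eigenvalue is large -/
def Lg (θ : ℝ) (k : ℕ) (ω : (O.X k).l.T.Ω) : Prop := 2 ^ (θ * (S.F k).n) ≤ O.mu k ω

open Classical in
/-- the scale of the conormal -/
def sT (ν θ : ℝ) (k : ℕ) (ω : (O.X k).l.T.Ω) : ℝ := if O.Lg θ k ω then 2 ^ (ν * (S.F k).n) else 0

/-- the form added to the known form -/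
def b (ν θ : ℝ) (k : ℕ) (ω : (O.X k).l.T.Ω) : Matrix (Mon (q + 1) 1) (Mon (q + 1) 1) ℝ :=
  bf (O.sT ν θ k ω) (O.n k ω) (2 ^ (c * (S.F k).n)) (s'.t.v k ((O.X k).l.p.π ω) 0)

theorem tcn_at (hq : 0 < q) (hx' : IsCanP s s' 1 c x') : ∀ᶠ k in UF, ∀ ω, (O.X k).l.T.μ ω ≠ 0 →
    IsTcn ((O.X k).g ω) (O.g₀ k ω) (O.n k ω) (O.mu k ω) := by
  filter_upwards [O.g₀_Cpd hx', O.cpd] with k h1 h2 ω hω
  exact tcn_spec hq (h2 ω hω).pdM (h1 ω hω).pdM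

end XO

/-- the time at the scale of the window is bounded at the point -/
theorem phi_tf_le {r W : ℝ} (hr : 0 < r) (hW : 0 ≤ W) (hWr : W * r ≤ 1) (p : Fin (q + 1) → ℝ) :
    phi r (tf W (p 0) : Matrix (Mon (q + 1) 1) (Mon (q + 1) 1) ℝ) p ≤ nn (q + 1) 1 := by
  have h1 : phi r (tf W (p 0) : Matrix (Mon (q + 1) 1) (Mon (q + 1) 1) ℝ) p =
      ∑ j : Fin (q + 1) → Fin (1 + 1), qf (tf W (p 0)) (vv (nodp 1 p r j)) := rfl
  rw [h1]
  have h2 : ∀ j ∈ (Finset.univ : Finset (Fin (q + 1) → Fin (1 + 1))),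
      qf (tf W (p 0) : Matrix (Mon (q + 1) 1) (Mon (q + 1) 1) ℝ) (vv (nodp 1 p r j)) ≤ 1 := by
    intro j _
    rw [qf_tf, vv_sg1]
    have e1 : (vv (nodp 1 p r j) : Mon (q + 1) 1 → ℝ) (Mon.zero (q + 1) 1) = 1 := vv_zero _
    rw [e1, mul_one]
    have e2 : nodp 1 p r j 0 - p 0 = r * nod 1 (j 0) := by
      unfold nodp
      ring
    rw [e2]
    have e3 : 0 ≤ nod 1 ((j 0 : Fin (1 + 1)) : ℕ) := by
      unfold nod
      positivity
    have e4 : nod 1 ((j 0 : Fin (1 + 1)) : ℕ) ≤ 1 := by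
      unfold nod
      rw [div_le_one (by positivity)]
      have := (j 0).isLt
      have h5 : ((j 0 : Fin (1 + 1)) : ℕ) ≤ 1 := by omega
      have h6 : (((j 0 : Fin (1 + 1)) : ℕ) : ℝ) ≤ 1 := by exact_mod_cast h5
      push_cast
      linarith
    have e5 : W * (r * nod 1 ((j 0 : Fin (1 + 1)) : ℕ)) ≤ 1 := by
      have : W * r * nod 1 ((j 0 : Fin (1 + 1)) : ℕ) ≤ 1 * 1 := mul_le_mul hWr e4 e3 zero_le_one
      nlinarith
    have e6 : 0 ≤ W * (r * nod 1 ((j 0 : Fin (1 + 1)) : ℕ)) := by positivity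
    rw [← mul_pow]
    exact pow_le_one₀ e6 e5
  refine (Finset.sum_le_card_nsmul _ _ _ h2).trans (le_of_eq ?_)
  rw [nsmul_eq_mul, card_nodes, mul_one]

namespace XO

variable {ι : Type} {x : ∀ k, FD (S.F k) ι} {x' : ∀ k, FD (S.F k) (Mon (q + 1) 1)} {c : ℝ} (O : XO s s' x x' c)

/-- the added form is bounded at the points -/
theorem b_phi (hq : 0 < q) (h1 : c ≤ 1) (hx' : IsCanP s s' 1 c x') {ν θ : ℝ} (hν : 2 * ν ≤ θ) (η : ℝ) (hη : 0 < η) :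
    ∀ᶠ k in UF, (O.X k).l.T.pb (fun ω =>
      ¬ sph s' 1 k ((O.X k).l.p.π ω) (O.b ν θ k ω) ≤ 2 ^ (η * (S.F k).n)) ≤ η := by
  have hη2 : 0 < η / 2 := by linarith
  have hS : S.Sub (fun _ => 1 + nn (q + 1) 1) := S.Sub_const (by have := nn_one (q + 1) 1; positivity)
  filter_upwards [O.phi _ hη2, O.tcn_at hq hx', hS.eventually_le hη2, O.cpd] with k k1 k2 k3 k4
  have hn := (S.F k).pos
  refine le_trans (FSp.pb_mono _ ?_) (k1.trans (by linarith))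
  intro ω hω h2 h3
  apply h2
  have ht := k2 ω hω
  have hN : 0 ≤ nn (q + 1) 1 := by have := nn_one (q + 1) 1; linarith
  have e0 : (1 : ℝ) ≤ 2 ^ (η / 2 * (S.F k).n) := Real.one_le_rpow (by norm_num) (by positivity)
  have e1 : sph s' 1 k ((O.X k).l.p.π ω) (O.b ν θ k ω) = Pool.Agent.Helper3.LF.phi (S.dl 1 k) ((O.sT ν θ k ω ^ 2) •
      vecMulVec (O.n k ω) (O.n k ω)) (ptf s' k ((O.X k).l.p.π ω)) +
      Pool.Agent.Helper3.LF.phi (S.dl 1 k) (tf (2 ^ (c * (S.F k).n)) (s'.t.v k ((O.X k).l.p.π ω) 0)) (ptf s' k ((O.X k).l.p.π ω)) := by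
    show Pool.Agent.Helper3.LF.phi (S.dl 1 k) (bf _ _ _ _) _ = _
    unfold bf
    rw [phi_add]
  have e2 : Pool.Agent.Helper3.LF.phi (S.dl 1 k) ((O.sT ν θ k ω ^ 2) • vecMulVec (O.n k ω) (O.n k ω)) (ptf s' k ((O.X k).l.p.π ω)) ≤
      2 ^ (η / 2 * (S.F k).n) := by
    refine le_trans (phi_mono (S.dl 1 k) ?_ _) h3
    intro v
    show qf _ v ≤ qf _ v
    rw [qf_smulM, qf_vec]
    unfold sT
    split_ifs with hL
    · have f1 := ht.low v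
      have f2 : ((2 : ℝ) ^ (ν * (S.F k).n)) ^ 2 ≤ O.mu k ω := by
        refine le_trans ?_ hL
        rw [← Real.rpow_natCast, ← Real.rpow_mul (by norm_num)]
        apply Real.rpow_le_rpow_of_exponent_le (by norm_num)
        push_cast
        nlinarith
      exact (mul_le_mul_of_nonneg_right f2 (sq_nonneg _)).trans f1
    · have f1 : 0 ≤ qf ((O.X k).g ω) v := (k4 ω hω).psd.2 v
      simpa using f1
  have e3 : Pool.Agent.Helper3.LF.phi (S.dl 1 k) (tf (2 ^ (c * (S.F k).n)) (s'.t.v k ((O.X k).l.p.π ω) 0))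
      (ptf s' k ((O.X k).l.p.π ω)) ≤ nn (q + 1) 1 := by
    refine phi_tf_le (q := q) (S.dl_pos 1 k) (by positivity) ?_ (ptf s' k ((O.X k).l.p.π ω))
    unfold Sp.dl
    rw [← Real.rpow_add (by norm_num)]
    apply Real.rpow_le_one_of_one_le_of_nonpos (by norm_num)
    nlinarith
  rw [e1]
  calc _ ≤ (2 : ℝ) ^ (η / 2 * (S.F k).n) + nn (q + 1) 1 * 2 ^ (η / 2 * (S.F k).n) :=
        add_le_add e2 (e3.trans (le_mul_of_one_le_right hN e0))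
    _ = (1 + nn (q + 1) 1) * 2 ^ (η / 2 * (S.F k).n) := by ring
    _ ≤ 2 ^ (η / 2 * (S.F k).n) * 2 ^ (η / 2 * (S.F k).n) :=
        mul_le_mul_of_nonneg_right (by linarith) (by positivity)
    _ = 2 ^ (η * (S.F k).n) := by
        rw [← Real.rpow_add (by norm_num)]
        congr 1
        ring

end XO

/-- pairs of good points -/
theorem pb_pair {T : FSp} (D : FAm T T) (P Q : D.sp.Ω → Prop) (G : T.Ω → Prop)
    (h : ∀ w, D.sp.μ w ≠ 0 → P w → G w.1 → G w.2 → Q w) :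
    D.sp.pb P ≤ D.sp.pb Q + 2 * T.pb (fun ω => ¬ G ω) := by
  have p1 := pb_push D.p1 (fun ω => ¬ G ω)
  have p2 := pb_push D.p2 (fun ω => ¬ G ω)
  have h5 : D.sp.pb P ≤ D.sp.pb Q + (D.sp.pb (fun w => ¬ G w.1) + D.sp.pb (fun w => ¬ G w.2)) := by
    refine le_trans (FSp.pb_mono _ ?_) ((pb_or _ _ _).trans (add_le_add le_rfl (pb_or _ _ _)))
    intro w hw hP
    by_cases c1 : G w.1
    · by_cases c2 : G w.2
      · exact Or.inl (h w hw hP c1 c2)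
      · exact Or.inr (Or.inr c2)
    · exact Or.inr (Or.inl c1)
  have h6 : D.sp.pb (fun w => ¬ G w.1) = T.pb (fun ω => ¬ G ω) := p1
  have h7 : D.sp.pb (fun w => ¬ G w.2) = T.pb (fun ω => ¬ G ω) := p2
  rw [h6, h7] at h5
  linarith

theorem self_pair {T : FSp} (Y : Setoid T.Ω) (w : (FAm.self T Y).sp.Ω) (hw : (FAm.self T Y).sp.μ w ≠ 0) :
    T.μ w.1 ≠ 0 ∧ T.μ w.2 ≠ 0 ∧ Y w.1 w.2 ∧ T.Z w.1 w.2 := by
  obtain ⟨h1, h2, h3⟩ := (FAm.self T Y).supp w hw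
  have h4 : (Y ⊓ T.Z) w.1 w.2 := Quotient.exact h1
  exact ⟨h2, h3, h4.1, h4.2⟩

theorem Cnb_Sub {S : Sp} (q : ℕ) {K : ℕ → ℝ} (hK : S.Sub K) : S.Sub (fun k => Cnb q (K k)) := by
  have h1 : S.Sub (fun k => (Pool.Agent.Helper3.LF.Cu 1 * Pool.Agent.Helper3.LF.Cm (q + 1) 1) ^ 2 * nn (q + 1) 1 *
      (K k * K k)) := (S.Sub_const (by have := nn_one (q + 1) 1; positivity)).mul (hK.mul hK)
  refine h1.mono (Eventually.of_forall fun k => ?_) (Eventually.of_forall fun k => ?_)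
  · unfold Cnb
    have := nn_one (q + 1) 1
    positivity
  · unfold Cnb
    rw [pow_one]
    apply le_of_eq
    ring

namespace XO

variable {ι : Type} {x : ∀ k, FD (S.F k) ι} {x' : ∀ k, FD (S.F k) (Mon (q + 1) 1)} {c : ℝ} (O : XO s s' x x' c)

/-- good points: both forms are bounded on the window of the line and the top eigenvalue is large -/
def Gd (θ e : ℝ) (k : ℕ) (ω : (O.X k).l.T.Ω) : Prop :=
  O.Lg θ k ω ∧ (∀ r, |r - s.t.v k ((O.X k).l.p.π ω) 0| ≤ 4 * S.dl c k →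
    Pool.Agent.Helper3.LF.phi (S.dl 1 k) ((O.X k).g ω) (pl (s'.a.v k ((O.X k).l.p.π ω))
      (s'.x.v k ((O.X k).l.p.π ω)) r) ≤ 2 ^ (e * (S.F k).n)) ∧
  ∀ r, |r - s.t.v k ((O.X k).l.p.π ω) 0| ≤ 4 * S.dl c k →
    Pool.Agent.Helper3.LF.phi (S.dl 1 k) (O.g₀ k ω) (pl (s'.a.v k ((O.X k).l.p.π ω))
      (s'.x.v k ((O.X k).l.p.π ω)) r) ≤ 2 ^ (e * (S.F k).n)

theorem Gd_pb (hx' : IsCanP s s' 1 c x') (hf : Fac s s') (h0 : 0 ≤ c) (h1 : c < 1) {θ q₀ : ℝ}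
    (hmu : ∀ᶠ k in UF, (O.X k).l.T.pb (fun ω => ¬ O.Lg θ k ω) ≤ q₀) (e : ℝ) (he : 0 < e) (η : ℝ) (hη : 0 < η) :
    ∀ᶠ k in UF, (O.X k).l.T.pb (fun ω => ¬ O.Gd θ e k ω) ≤ q₀ + η := by
  have h4 : S.Sub (fun _ => (4 : ℝ)) := S.Sub_const (by norm_num)
  have t1 := Pool.Agent.Helper93.LIP.XO_bd O hf h0 h1 (fun _ => 4) h4 e he
  have t2 := O.g₀_bd hx' hf h0 h1 (fun _ => 4) h4 e he
  filter_upwards [hmu, t1.eventually (gt_mem_nhds (show 0 < η / 2 by linarith)),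
    t2.eventually (gt_mem_nhds (show 0 < η / 2 by linarith))] with k k1 k2 k3
  refine le_trans (FSp.pb_mono _ ?_) ((pb_or _ (fun ω => ¬ O.Lg θ k ω) _).trans
    (add_le_add k1 ((pb_or _ _ _).trans (add_le_add k2.le k3.le)))) |>.trans (by linarith)
  intro ω _ h
  unfold Gd at h
  by_cases c1 : O.Lg θ k ω
  · by_cases c2 : ∀ r, |r - s.t.v k ((O.X k).l.p.π ω) 0| ≤ 4 * S.dl c k →
        Pool.Agent.Helper3.LF.phi (S.dl 1 k) ((O.X k).g ω) (pl (s'.a.v k ((O.X k).l.p.π ω))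
          (s'.x.v k ((O.X k).l.p.π ω)) r) ≤ 2 ^ (e * (S.F k).n)
    · exact Or.inr (Or.inr fun c3 => h ⟨c1, c2, c3⟩)
    · exact Or.inr (Or.inl c2)
  · exact Or.inl c1

variable {κ : Fin q → Fin m}

/-- the constant of the pairs -/
def CP (q : ℕ) (K B : ℝ) : ℝ := 2 + (2 * (156 * (Cnb q K * B)) + 1) * 4

theorem CP_le {e : ℝ} (he : 0 < e) {K : ℕ → ℝ} (hK : S.Sub K) : ∀ᶠ k in UF,
    CP q (K k) (2 ^ (e / 3 * (S.F k).n)) ≤ 2 ^ (e * (S.F k).n) := by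
  have h1 : S.Sub (fun k => 6 + 1248 * Cnb q (K k)) :=
    (S.Sub_const (by norm_num)).add ((S.Sub_const (by norm_num)).mul (Cnb_Sub q hK))
  filter_upwards [h1.eventually_le (show 0 < e / 3 by linarith)] with k hk
  have hn := (S.F k).pos
  unfold CP
  have e1 : (1 : ℝ) ≤ 2 ^ (e / 3 * (S.F k).n) := Real.one_le_rpow (by norm_num) (by positivity)
  set B := (2 : ℝ) ^ (e / 3 * (S.F k).n) with hB
  have e2 : B * (B * B) = 2 ^ (e * (S.F k).n) := by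
    rw [hB, ← Real.rpow_add (by norm_num), ← Real.rpow_add (by norm_num)]
    congr 1
    ring
  have hC : 0 ≤ Cnb q (K k) := by
    unfold Cnb
    have := nn_one (q + 1) 1
    positivity
  rw [← e2]
  have e3 : 2 + (2 * (156 * (Cnb q (K k) * B)) + 1) * 4 ≤ (6 + 1248 * Cnb q (K k)) * B := by nlinarith
  have e4 : (6 + 1248 * Cnb q (K k)) * B ≤ B * B := mul_le_mul_of_nonneg_right (by linarith) (by linarith)
  have e5 : B * B ≤ B * (B * B) := by nlinarith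
  linarith

/-- from closeness of conormals to agreement of the added forms -/
theorem nrm_of {k : ℕ} {ν θ e C K₁ : ℝ} {ω ω' : (O.X k).l.T.Ω} (hL : O.Lg θ k ω) (hL' : O.Lg θ k ω')
    (hc : Cpd ((gau s' 1).cp k) (O.g₀ k ω)) (hg : O.g₀ k ω = O.g₀ k ω') (he : 0 ≤ e) (hC : 0 ≤ C)
    (ht : (2 ^ (c * (S.F k).n) * (s'.t.v k ((O.X k).l.p.π ω) 0 - s'.t.v k ((O.X k).l.p.π ω') 0)) ^ 2 ≤ K₁)
    {ε : ℝ} (hε : ε = 1 ∨ ε = -1) (h : ∀ v, (2 ^ (ν * (S.F k).n)) ^ 2 * ((O.n k ω - ε • O.n k ω') ⬝ᵥ v) ^ 2 ≤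
      C * (qf (O.g₀ k ω) v + qf (tf (2 ^ (c * (S.F k).n)) (s'.t.v k ((O.X k).l.p.π ω) 0)) v))
    (h' : ∀ v, (2 ^ (ν * (S.F k).n)) ^ 2 * ((O.n k ω' - ε • O.n k ω) ⬝ᵥ v) ^ 2 ≤
      C * (qf (O.g₀ k ω') v + qf (tf (2 ^ (c * (S.F k).n)) (s'.t.v k ((O.X k).l.p.π ω') 0)) v))
    (hb : 2 + (2 * C + 1) * (2 * K₁ + 2) ≤ 2 ^ (e * (S.F k).n)) :
    NrM (e * (S.F k).n) (O.g₀ k ω) (O.b ν θ k ω) (O.g₀ k ω') (O.b ν θ k ω') := by
  have hn := (S.F k).pos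
  have e1 : (1 : ℝ) ≤ 2 ^ (e * (S.F k).n) := Real.one_le_rpow (by norm_num) (by positivity)
  have hc' : Cpd ((gau s' 1).cp k) (O.g₀ k ω') := by rw [← hg]; exact hc
  have b1 : O.b ν θ k ω = bf (2 ^ (ν * (S.F k).n)) (O.n k ω) (2 ^ (c * (S.F k).n))
      (s'.t.v k ((O.X k).l.p.π ω) 0) := by
    unfold b sT
    rw [if_pos hL]
  have b2 : O.b ν θ k ω' = bf (2 ^ (ν * (S.F k).n)) (O.n k ω') (2 ^ (c * (S.F k).n))
      (s'.t.v k ((O.X k).l.p.π ω') 0) := by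
    unfold b sT
    rw [if_pos hL']
  have ht' : (2 ^ (c * (S.F k).n) * (s'.t.v k ((O.X k).l.p.π ω') 0 - s'.t.v k ((O.X k).l.p.π ω) 0)) ^ 2 ≤ K₁ := by
    refine le_trans (le_of_eq ?_) ht
    ring
  refine ⟨fun v => ?_, fun v => ?_, fun v => ?_, fun v => ?_⟩
  · rw [← hg]
    exact le_mul_of_one_le_left (hc.psd.2 v) e1
  · rw [← hg]
    exact le_mul_of_one_le_left (hc.psd.2 v) e1
  · rw [b1, b2, ← hg]
    refine (bf_cmp hc ht hε hC h v).trans (mul_le_mul_of_nonneg_right hb ?_)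
    exact add_nonneg (hc.psd.2 v) ((bf_Psd _ _ _ _).2 v)
  · rw [b1, b2, hg]
    refine (bf_cmp hc' ht' hε hC h' v).trans (mul_le_mul_of_nonneg_right hb ?_)
    exact add_nonneg (hc'.psd.2 v) ((bf_Psd _ _ _ _).2 v)

/-- the reversed closeness -/
theorem clo_rev {n n' v : Mon (q + 1) 1 → ℝ} {ε : ℝ} (hε : ε = 1 ∨ ε = -1) :
    ((n' - ε • n) ⬝ᵥ v) ^ 2 = ((n - ε • n') ⬝ᵥ v) ^ 2 := by
  rw [sub_dotProduct, sub_dotProduct, smul_dotProduct, smul_dotProduct, smul_eq_mul, smul_eq_mul]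
  rcases hε with rfl | rfl <;> ring

theorem dl_inv (S : Sp) (c : ℝ) (k : ℕ) : (S.dl c k)⁻¹ = 2 ^ (c * (S.F k).n) := by
  unfold Sp.dl
  rw [← Real.rpow_neg (by norm_num), neg_neg]

/-- A-COPIES -/
theorem nrA (crd : Crd s s' κ) (hq : 0 < q) (hx' : IsCanP s s' 1 c x') (hf : Fac s s') (h0 : 0 ≤ c) (h1 : c < 1)
    {ν θ : ℝ} (hν : 2 * ν ≤ θ) (e : ℝ) (he : 0 < e) {YA : ∀ k, Setoid (O.X k).l.T.Ω}
    (hYA : ∀ k, YA k ≤ O.K k ⊓ Setoid.comap (O.X k).l.p.π (cAs s c k)) {q₀ p : ℝ}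
    (hmu : ∀ᶠ k in UF, (O.X k).l.T.pb (fun ω => ¬ O.Lg θ k ω) ≤ q₀)
    (hA : ∀ᶠ k in UF, p ≤ (FAm.self (O.X k).l.T (YA k)).sp.pb (fun w =>
      CloM (O.g₀ k w.1) (2 ^ (-(ν * (S.F k).n))) (O.n k w.1) (O.n k w.2))) (η : ℝ) (hη : 0 < η) :
    ∀ᶠ k in UF, p - 2 * q₀ - η ≤ (FAm.self (O.X k).l.T (YA k)).sp.pb (fun w =>
      NrM (e * (S.F k).n) (O.g₀ k w.1) (O.b ν θ k w.1) (O.g₀ k w.2) (O.b ν θ k w.2)) := by
  obtain ⟨Kb, hKb, hbd⟩ := s.t.bd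
  have hK1 : S.Sub (fun k => Kb k + 1 + 2) := (hKb.add (S.Sub_const zero_le_one)).add (S.Sub_const (by norm_num))
  filter_upwards [hA, O.Gd_pb hx' hf h0 h1 hmu (e / 3) (by linarith) (η / 2) (by linarith), O.tcn_at hq hx',
    O.g₀_Cpd hx', O.cpd, hKb.1, hbd, CP_le (q := q) he hK1] with k kA kG kt kc kp kK kbd kCP
  have hn := (S.F k).pos
  have key := pb_pair (FAm.self (O.X k).l.T (YA k)) (fun w =>
      CloM (O.g₀ k w.1) (2 ^ (-(ν * (S.F k).n))) (O.n k w.1) (O.n k w.2)) (fun w =>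
      NrM (e * (S.F k).n) (O.g₀ k w.1) (O.b ν θ k w.1) (O.g₀ k w.2) (O.b ν θ k w.2)) (O.Gd θ (e / 3) k) (by
    intro w hw hP hG hG'
    obtain ⟨m1, m2, hY, hZ⟩ := self_pair _ w hw
    obtain ⟨hKK, hcell⟩ := hYA k hY
    have hg : O.g₀ k w.1 = O.g₀ k w.2 := O.g₀_meas k _ _ m1 m2 hKK hZ
    obtain ⟨⟨ca, cx⟩, ct⟩ := hcell
    have da : ∀ i, |s'.a.v k ((O.X k).l.p.π w.1) i - s'.a.v k ((O.X k).l.p.π w.2) i| ≤ S.dl 1 k := fun i => by
      rw [crd.a, crd.a]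
      exact s.a.cellv_close 1 k _ _ ca _
    have dx : ∀ i, |s'.x.v k ((O.X k).l.p.π w.1) i - s'.x.v k ((O.X k).l.p.π w.2) i| ≤ S.dl 1 k := fun i => by
      rw [crd.x, crd.x]
      exact s.x.cellv_close 1 k _ _ cx _
    have dt : |s.t.v k ((O.X k).l.p.π w.1) 0 - s.t.v k ((O.X k).l.p.π w.2) 0| ≤ S.dl c k :=
      s.t.cellv_close c k _ _ ct 0
    obtain ⟨ε, hε, hM⟩ := hP
    obtain ⟨L1, B1, B1'⟩ := hG
    obtain ⟨L2, B2, B2'⟩ := hG'
    have t1 := kt _ m1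
    have t2 := kt _ m2
    have c1 := kc _ m1
    have c2 := kc _ m2
    have p1 := (kp _ m1).pdM
    have p2 := (kp _ m2).pdM
    have hr := S.dl_pos 1 k
    have hd := S.dl_pos c k
    have hd1 : S.dl c k ≤ 1 := by
      unfold Sp.dl
      exact Real.rpow_le_one_of_one_le_of_nonpos (by norm_num) (by nlinarith)
    have hT : ∀ ω, (O.X k).l.T.μ ω ≠ 0 → |s.t.v k ((O.X k).l.p.π ω) 0| + S.dl c k ≤ Kb k + 1 := fun ω hω =>
      add_le_add (kbd _ ((O.X k).l.p.supp ω hω) 0) hd1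
    set C : ℝ := 156 * (Cnb q (Kb k + 1 + 2) * 2 ^ (e / 3 * (S.F k).n)) with hC
    have hC0 : 0 ≤ C := by
      rw [hC]
      unfold Cnb
      have := nn_one (q + 1) 1
      positivity
    -- the scales
    have sT : ((2 : ℝ) ^ (ν * (S.F k).n)) ^ 2 * (2 ^ (-(ν * (S.F k).n))) ^ 2 = 1 := by
      rw [← mul_pow, ← Real.rpow_add (by norm_num), add_neg_cancel, Real.rpow_zero, one_pow]
    have sR : ((2 : ℝ) ^ (ν * (S.F k).n)) ^ 2 / 2 ^ (θ * (S.F k).n) ≤ 1 := by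
      rw [div_le_one (by positivity), ← Real.rpow_natCast, ← Real.rpow_mul (by norm_num)]
      apply Real.rpow_le_rpow_of_exponent_le (by norm_num)
      push_cast
      nlinarith
    have sC : ∀ (Q D : ℝ), 0 ≤ Q → D ≤ (48 * (Cnb q (Kb k + 1 + 2) * 2 ^ (e / 3 * (S.F k).n) / 2 ^ (θ * (S.F k).n)) +
        108 * (2 ^ (-(ν * (S.F k).n))) ^ 2 * (Cnb q (Kb k + 1 + 2) * 2 ^ (e / 3 * (S.F k).n))) * Q →
        ((2 : ℝ) ^ (ν * (S.F k).n)) ^ 2 * D ≤ C * Q := by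
      intro Q D hQ hD
      refine (mul_le_mul_of_nonneg_left hD (by positivity)).trans ?_
      rw [← mul_assoc]
      apply mul_le_mul_of_nonneg_right _ hQ
      have hX : 0 ≤ Cnb q (Kb k + 1 + 2) * 2 ^ (e / 3 * (S.F k).n) := by
        unfold Cnb
        have := nn_one (q + 1) 1
        positivity
      have f1 : ((2 : ℝ) ^ (ν * (S.F k).n)) ^ 2 * (48 * (Cnb q (Kb k + 1 + 2) * 2 ^ (e / 3 * (S.F k).n) /
          2 ^ (θ * (S.F k).n)) + 108 * (2 ^ (-(ν * (S.F k).n))) ^ 2 * (Cnb q (Kb k + 1 + 2) *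
          2 ^ (e / 3 * (S.F k).n))) = 48 * (((2 : ℝ) ^ (ν * (S.F k).n)) ^ 2 / 2 ^ (θ * (S.F k).n)) *
          (Cnb q (Kb k + 1 + 2) * 2 ^ (e / 3 * (S.F k).n)) + 108 * (((2 : ℝ) ^ (ν * (S.F k).n)) ^ 2 *
          (2 ^ (-(ν * (S.F k).n))) ^ 2) * (Cnb q (Kb k + 1 + 2) * 2 ^ (e / 3 * (S.F k).n)) := by ring
      rw [f1, sT, hC]
      nlinarith [mul_le_mul_of_nonneg_right sR hX]
    have pA := fun v => pair_A (cp := (gau s' 1).cp k) (Kt := Kb k + 1) (B := 2 ^ (e / 3 * (S.F k).n))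
      (R := 2 ^ (θ * (S.F k).n)) (τ := 2 ^ (-(ν * (S.F k).n))) hr hd (by linarith) (by positivity) p1 p2 c1 da dx
      dt (hT _ m1) B1 B2 B1' (ε := ε) L1 L2 t1.low t2.low hε hM v
    have pA' := fun v => pair_A (cp := (gau s' 1).cp k) (Kt := Kb k + 1) (B := 2 ^ (e / 3 * (S.F k).n))
      (R := 2 ^ (θ * (S.F k).n)) (τ := 2 ^ (-(ν * (S.F k).n))) hr hd (by linarith) (by positivity) p2 p1 c2
      (fun i => by rw [abs_sub_comm]; exact da i) (fun i => by rw [abs_sub_comm]; exact dx i)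
      (by rw [abs_sub_comm]; exact dt) (hT _ m2) B2 B1 B2' (ε := ε) L2 L1 t2.low t1.low hε (fun u => by
        rw [clo_rev hε, ← hg]
        exact hM u) v
    have q0 : ∀ {ω : (O.X k).l.T.Ω} (t : ℝ) (v : Mon (q + 1) 1 → ℝ), Cpd ((gau s' 1).cp k) (O.g₀ k ω) →
        0 ≤ qf (O.g₀ k ω) v + qf (tf (2 ^ (c * (S.F k).n)) t) v := fun t v hc =>
      add_nonneg (hc.psd.2 v) ((tf_Psd _ _).2 v)
    refine O.nrm_of (C := C) (K₁ := 1) L1 L2 c1 hg he.le hC0 ?_ hε (fun v => ?_) (fun v => ?_) ?_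
    · have e1 : |(2 : ℝ) ^ (c * (S.F k).n) * (s'.t.v k ((O.X k).l.p.π w.1) 0 -
          s'.t.v k ((O.X k).l.p.π w.2) 0)| ≤ 1 := by
        rw [crd.t, crd.t, abs_mul, abs_of_pos (by positivity), ← dl_inv]
        exact (mul_le_mul_of_nonneg_left dt (by positivity)).trans (le_of_eq (inv_mul_cancel₀ hd.ne'))
      rw [← sq_abs]
      exact pow_le_one₀ (abs_nonneg _) e1
    · rw [crd.t, ← dl_inv S c k]
      exact sC _ _ (by rw [dl_inv]; exact q0 _ v c1) (pA v)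
    · rw [crd.t, ← dl_inv S c k]
      exact sC _ _ (by rw [dl_inv]; exact q0 _ v c2) (pA' v)
    · refine le_trans (le_of_eq ?_) kCP
      unfold CP
      rw [hC]
      ring)
  linarith

/-- B-COPIES -/
theorem nrB (crd : Crd s s' κ) (hq : 0 < q) (hx' : IsCanP s s' 1 c x') (hf : Fac s s') (h0 : 0 ≤ c) (h1 : c < 1)
    {ν θ : ℝ} (hν : 2 * ν ≤ θ) (e : ℝ) (he : 0 < e) {YB : ∀ k, Setoid (O.X k).l.T.Ω}
    (hYB : ∀ k, YB k ≤ O.K k ⊓ Setoid.comap (O.X k).l.p.π ((s.fin k).kP 1 ⊓ (s.fin k).kt 1)) {q₀ p : ℝ}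
    (hmu : ∀ᶠ k in UF, (O.X k).l.T.pb (fun ω => ¬ O.Lg θ k ω) ≤ q₀)
    (hB : ∀ᶠ k in UF, p ≤ (FAm.self (O.X k).l.T (YB k)).sp.pb (fun w =>
      Clo (O.g₀ k w.1) (2 ^ (-(ν * (S.F k).n))) (O.n k w.1) (O.n k w.2))) (η : ℝ) (hη : 0 < η) :
    ∀ᶠ k in UF, p - 2 * q₀ - η ≤ (FAm.self (O.X k).l.T (YB k)).sp.pb (fun w =>
      NrM (e * (S.F k).n) (O.g₀ k w.1) (O.b ν θ k w.1) (O.g₀ k w.2) (O.b ν θ k w.2)) := by
  have hK1 : S.Sub (fun _ => (2 : ℝ)) := S.Sub_const (by norm_num)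
  filter_upwards [hB, O.Gd_pb hx' hf h0 h1 hmu (e / 3) (by linarith) (η / 2) (by linarith), O.tcn_at hq hx',
    O.g₀_Cpd hx', O.cpd, CP_le (q := q) he hK1] with k kA kG kt kc kp kCP
  have hn := (S.F k).pos
  have key := pb_pair (FAm.self (O.X k).l.T (YB k)) (fun w =>
      Clo (O.g₀ k w.1) (2 ^ (-(ν * (S.F k).n))) (O.n k w.1) (O.n k w.2)) (fun w =>
      NrM (e * (S.F k).n) (O.g₀ k w.1) (O.b ν θ k w.1) (O.g₀ k w.2) (O.b ν θ k w.2)) (O.Gd θ (e / 3) k) (by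
    intro w hw hP hG hG'
    obtain ⟨m1, m2, hY, hZ⟩ := self_pair _ w hw
    obtain ⟨hKK, hcell⟩ := hYB k hY
    have hg : O.g₀ k w.1 = O.g₀ k w.2 := O.g₀_meas k _ _ m1 m2 hKK hZ
    have dP : ∀ i, |ptf s' k ((O.X k).l.p.π w.1) i - ptf s' k ((O.X k).l.p.π w.2) i| ≤ S.dl 1 k := fun i => by
      rw [crd.ptf, crd.ptf]
      exact pt_cell s k _ _ hcell.1 hcell.2 _
    have dt : |s.t.v k ((O.X k).l.p.π w.1) 0 - s.t.v k ((O.X k).l.p.π w.2) 0| ≤ S.dl 1 k :=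
      s.t.cellv_close 1 k _ _ hcell.2 0
    obtain ⟨ε, hε, hM⟩ := hP
    obtain ⟨L1, B1, B1'⟩ := hG
    obtain ⟨L2, B2, B2'⟩ := hG'
    have t1 := kt _ m1
    have t2 := kt _ m2
    have c1 := kc _ m1
    have c2 := kc _ m2
    have p1 := (kp _ m1).pdM
    have p2 := (kp _ m2).pdM
    have hr := S.dl_pos 1 k
    have hd := S.dl_pos c k
    have hpt : ∀ ω, pl (s'.a.v k ((O.X k).l.p.π ω)) (s'.x.v k ((O.X k).l.p.π ω)) (s.t.v k ((O.X k).l.p.π ω) 0) =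
        ptf s' k ((O.X k).l.p.π ω) := fun ω => by
      rw [← crd.t]
      rfl
    have h4 : ∀ t : ℝ, |t - t| ≤ 4 * S.dl c k := fun t => by
      rw [sub_self, abs_zero]
      positivity
    have D1 := B1 _ (h4 _)
    have D1' := B1' _ (h4 _)
    have D2 := B2 _ (h4 _)
    have D2' := B2' _ (h4 _)
    rw [hpt] at D1 D1' D2 D2'
    set C : ℝ := 156 * (Cnb q 2 * 2 ^ (e / 3 * (S.F k).n)) with hC
    have hX : 0 ≤ Cnb q 2 * 2 ^ (e / 3 * (S.F k).n) := by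
      unfold Cnb
      have := nn_one (q + 1) 1
      positivity
    have hC0 : 0 ≤ C := by
      rw [hC]
      positivity
    have sT : ((2 : ℝ) ^ (ν * (S.F k).n)) ^ 2 * (2 ^ (-(ν * (S.F k).n))) ^ 2 = 1 := by
      rw [← mul_pow, ← Real.rpow_add (by norm_num), add_neg_cancel, Real.rpow_zero, one_pow]
    have sR : ((2 : ℝ) ^ (ν * (S.F k).n)) ^ 2 / 2 ^ (θ * (S.F k).n) ≤ 1 := by
      rw [div_le_one (by positivity), ← Real.rpow_natCast, ← Real.rpow_mul (by norm_num)]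
      apply Real.rpow_le_rpow_of_exponent_le (by norm_num)
      push_cast
      nlinarith
    have sC : ∀ (Q Q' D : ℝ), 0 ≤ Q → 0 ≤ Q' → D ≤ (12 * (Cnb q 2 * 2 ^ (e / 3 * (S.F k).n) / 2 ^ (θ * (S.F k).n)) +
        27 * (2 ^ (-(ν * (S.F k).n))) ^ 2 * (Cnb q 2 * 2 ^ (e / 3 * (S.F k).n))) * Q →
        ((2 : ℝ) ^ (ν * (S.F k).n)) ^ 2 * D ≤ C * (Q + Q') := by
      intro Q Q' D hQ hQ' hD
      refine (mul_le_mul_of_nonneg_left hD (by positivity)).trans ?_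
      have f1 : ((2 : ℝ) ^ (ν * (S.F k).n)) ^ 2 * ((12 * (Cnb q 2 * 2 ^ (e / 3 * (S.F k).n) /
          2 ^ (θ * (S.F k).n)) + 27 * (2 ^ (-(ν * (S.F k).n))) ^ 2 * (Cnb q 2 *
          2 ^ (e / 3 * (S.F k).n))) * Q) = 12 * (((2 : ℝ) ^ (ν * (S.F k).n)) ^ 2 / 2 ^ (θ * (S.F k).n)) *
          ((Cnb q 2 * 2 ^ (e / 3 * (S.F k).n)) * Q) + 27 * (((2 : ℝ) ^ (ν * (S.F k).n)) ^ 2 *
          (2 ^ (-(ν * (S.F k).n))) ^ 2) * ((Cnb q 2 * 2 ^ (e / 3 * (S.F k).n)) * Q) := by ring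
      rw [f1, sT, hC]
      have hXQ := mul_nonneg hX hQ
      have hXQ' := mul_nonneg hX hQ'
      nlinarith [mul_le_mul_of_nonneg_right sR hXQ]
    have pA := fun v => pair_B (cp := (gau s' 1).cp k) (B := 2 ^ (e / 3 * (S.F k).n))
      (R := 2 ^ (θ * (S.F k).n)) (τ := 2 ^ (-(ν * (S.F k).n))) hr (by positivity) p1 p2 c1 dP D1 D2 D1'
      (ε := ε) L1 L2 t1.low t2.low hε hM v
    have pA' := fun v => pair_B (cp := (gau s' 1).cp k) (B := 2 ^ (e / 3 * (S.F k).n))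
      (R := 2 ^ (θ * (S.F k).n)) (τ := 2 ^ (-(ν * (S.F k).n))) hr (by positivity) p2 p1 c2
      (fun i => by rw [abs_sub_comm]; exact dP i) D2 D1 D2' (ε := ε) L2 L1 t2.low t1.low hε (fun u => by
        rw [clo_rev hε, ← hg]
        exact hM u) v
    refine O.nrm_of (C := C) (K₁ := 1) L1 L2 c1 hg he.le hC0 ?_ hε (fun v => ?_) (fun v => ?_) ?_
    · have hdd : S.dl 1 k ≤ S.dl c k := S.dl_anti h1.le k
      have e1 : |(2 : ℝ) ^ (c * (S.F k).n) * (s'.t.v k ((O.X k).l.p.π w.1) 0 -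
          s'.t.v k ((O.X k).l.p.π w.2) 0)| ≤ 1 := by
        rw [crd.t, crd.t, abs_mul, abs_of_pos (by positivity), ← dl_inv]
        exact (mul_le_mul_of_nonneg_left (dt.trans hdd) (by positivity)).trans (le_of_eq (inv_mul_cancel₀ hd.ne'))
      rw [← sq_abs]
      exact pow_le_one₀ (abs_nonneg _) e1
    · exact sC _ _ _ (c1.psd.2 v) ((tf_Psd _ _).2 v) (pA v)
    · exact sC _ _ _ (c2.psd.2 v) ((tf_Psd _ _).2 v) (pA' v)
    · refine le_trans (le_of_eq ?_) kCP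
      unfold CP
      rw [hC]
      ring)
  linarith

end XO

end

end Pool.Agent.Helper39.LIP
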