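import Pool.Agent.Helper39.LIP.B24

/-! (2.4) of LIP(A), conclusion: top conormals which are close for the copies of the window cannot be close for the
copies of the point. -/

set_option autoImplicit false

namespace Pool.Agent.Helper39.LIP

open Finset Filter Topology Matrix Pool.Agent.Helper69.RK Pool.Agent.Helper31.EC Pool.Agent.Helper40.EL
open Pool.Agent.Helper31.EC.Sp
open Pool.Agent.Helper89.LX Pool.Agent.Helper3.LF Pool.Agent.Helper48.NS Pool.Agent.Helper48.LIP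
open Pool.Agent.Helper3.PR Pool.Agent.Helper3.SG
open Pool.Agent.Helper95.LF (PdM)
open Pool.Agent.Helper52.L24 (lab_modP GG_rk1 GG_le_qf)

noncomputable section

variable {S : Sp} {m q : ℕ} {s : Sys S m} {s' : Sys S q}

theorem pb_sum (F : FSp) (D : F.Ω → Prop) [DecidablePred D] (c : ℝ) :
    ∑ ω, F.μ ω * (if D ω then c else 0) = c * F.pb D := by
  unfold FSp.pb mass
  rw [Finset.mul_sum]
  refine Finset.sum_congr rfl fun ω _ => ?_
  by_cases h : D ω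
  · rw [if_pos h, res_pos _ D ω h, mul_comm]
  · rw [if_neg h, res_neg _ D ω h, mul_zero, mul_zero]

/-- the gain of volume -/
theorem GG_bf (r : ℝ) {cp : ℝ} {a : Matrix (Mon (q + 1) 1) (Mon (q + 1) 1) ℝ} (ha : Cpd cp a) {n : Mon (q + 1) 1 → ℝ}
    (hn : ∃ u : Fin q → ℝ, qf a (gM u) = 1 ∧ n ⬝ᵥ gM u = 1) (T W t : ℝ) (p : Fin (q + 1) → ℝ) :
    T ^ 2 / 2 * GG r a p ≤ GG r (a + bf T n W t) p := by
  have h1 := GG_rk1 r ha.1 ha.2.1 hn (sq_nonneg T) p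
  have p1 : Psd (a + rk1 (T ^ 2) n) := Psd_add ha.psd (Pool.Agent.Helper52.L24.rk1_psd (sq_nonneg T) n)
  have p2 : Psd (a + bf T n W t) := Psd_add ha.psd (bf_Psd T n W t)
  have h2 := GG_le_qf r p1 p2 le_rfl (fun v => by
    rw [one_mul, qf_add, qf_add, qf_bf]
    have e1 : qf (rk1 (T ^ 2) n) v = T ^ 2 * (n ⬝ᵥ v) ^ 2 := qf_rk1 _ _ _
    rw [e1]
    have := (tf_Psd W t).2 v
    linarith) p
  rw [one_pow, one_mul] at h2
  exact h1.trans h2

theorem GG_csum (r : ℝ) {cp : ℝ} {a b : Matrix (Mon (q + 1) 1) (Mon (q + 1) 1) ℝ} (ha : Cpd cp a) (hb : Psd b)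
    (p : Fin (q + 1) → ℝ) : GG r a p ≤ GG r (csum cp a b) p := by
  have h2 := GG_le_qf r ha.psd (b := csum cp a b) (csum_Cpd ha).psd le_rfl (fun v => by
    rw [one_mul]
    unfold csum
    split_ifs
    · rw [qf_add]
      have := hb.2 v
      linarith
    · exact le_rfl) p
  rw [one_pow, one_mul] at h2
  exact h2

/-- the logarithm of the volume, one point -/
theorem log_step {r cp n ν Ce : ℝ} (hn : 0 < n) (hC : 0 ≤ Ce) {a b x : Matrix (Mon (q + 1) 1) (Mon (q + 1) 1) ℝ}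
    (ha : Cpd cp a) (hb : Psd b) (hx : PdM x) (h : ∀ v, qf (csum cp a b) v ≤ 2 ^ (Ce * n) * qf x v)
    (p : Fin (q + 1) → ℝ) :
    Real.logb 2 (GG r a p) - q * (Ce * n) ≤ Real.logb 2 (GG r x p) ∧
      (Cpd cp (a + b) → 2 ^ (2 * ν * n) / 2 * GG r a p ≤ GG r (a + b) p →
        Real.logb 2 (GG r a p) + (2 * ν * n - 1) - q * (Ce * n) ≤ Real.logb 2 (GG r x p)) := by
  have e1 : (1 : ℝ) ≤ 2 ^ (Ce * n) := Real.one_le_rpow (by norm_num) (by positivity)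
  have h1 := GG_le_qf r (csum_Cpd ha (b := b)).psd (b := x) ⟨hx.1, fun v => hx.nonneg v⟩ e1 h p
  have ga : 0 < GG r a p := GG_pos' r ha.pdM p
  have gx : 0 < GG r x p := GG_pos' r hx p
  have gc : 0 < GG r (csum cp a b) p := GG_pos' r (csum_Cpd ha).pdM p
  have e2 : Real.logb 2 (((2 : ℝ) ^ (Ce * n)) ^ q * GG r x p) = q * (Ce * n) + Real.logb 2 (GG r x p) := by
    rw [Real.logb_mul (by positivity) gx.ne', Real.logb_pow, Real.logb_rpow (by norm_num) (by norm_num)]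
  have h3 : Real.logb 2 (GG r (csum cp a b) p) ≤ q * (Ce * n) + Real.logb 2 (GG r x p) := by
    rw [← e2]
    exact Real.logb_le_logb_of_le (by norm_num) gc h1
  constructor
  · have h4 := Real.logb_le_logb_of_le (b := 2) (by norm_num) ga (GG_csum r ha hb p)
    linarith
  · intro hab hg
    have e3 : csum cp a b = a + b := if_pos hab
    rw [e3] at h3
    have e4 : Real.logb 2 (2 ^ (2 * ν * n) / 2 * GG r a p) = 2 * ν * n - 1 + Real.logb 2 (GG r a p) := by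
      rw [Real.logb_mul (by positivity) ga.ne', Real.logb_div (by positivity) (by norm_num),
        Real.logb_rpow (by norm_num) (by norm_num), Real.logb_self_eq_one (by norm_num)]
    have h5 := Real.logb_le_logb_of_le (b := 2) (by norm_num) (by positivity) hg
    rw [e4] at h5
    linarith

namespace XO

variable {ι : Type} {x : ∀ k, FD (S.F k) ι} {x' : ∀ k, FD (S.F k) (Mon (q + 1) 1)} {c : ℝ} (O : XO s s' x x' c)
variable {κ : Fin q → Fin m}

/-- **(2.4)** -/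
theorem b24 (crd : Crd s s' κ) (hq : 0 < q) (hx' : IsCanP s s' 1 c x') (hf : Fac s s') (h0 : 0 ≤ c) (h1 : c < 1)
    (hV : RobV s s' 1 c) {ν θ : ℝ} (hν0 : 0 < ν) (hν : 2 * ν ≤ θ) {YA YB LB : ∀ k, Setoid (O.X k).l.T.Ω}
    (hYA : ∀ k, YA k ≤ O.K k ⊓ Setoid.comap (O.X k).l.p.π (cAs s c k))
    (hYA' : ∀ k, (fc (YA k) : FL (O.X k).l.T) ≤ fc (O.K k) ⊔ (O.X k).l.p.map (cA s c k))
    (hLB : ∀ k, LB k ≤ O.K k) (hLl : Nul S (fun k => ((O.lK k).wV (LB k)).leak (cB s k)))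
    (hYB : ∀ k, YB k ≤ LB k ⊓ Setoid.comap (O.X k).l.p.π ((s.fin k).kP 1 ⊓ (s.fin k).kt 1))
    (hYB' : ∀ k, (fc (YB k) : FL (O.X k).l.T) ≤ fc (LB k) ⊔ (O.X k).l.p.map (cB s k)) {q₀ q₁ q₂ : ℝ}
    (hmu : ∀ᶠ k in UF, (O.X k).l.T.pb (fun ω => ¬ O.Lg θ k ω) ≤ q₀)
    (hA : ∀ᶠ k in UF, 1 - q₁ ≤ (FAm.self (O.X k).l.T (YA k)).sp.pb (fun w =>
      CloM (O.g₀ k w.1) (2 ^ (-(ν * (S.F k).n))) (O.n k w.1) (O.n k w.2)))
    (hB : ∀ᶠ k in UF, q₂ ≤ (FAm.self (O.X k).l.T (YB k)).sp.pb (fun w =>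
      Clo (O.g₀ k w.1) (2 ^ (-(ν * (S.F k).n))) (O.n k w.1) (O.n k w.2))) : q₂ ≤ q₁ + 6 * q₀ := by
  classical
  by_contra hcon
  push Not at hcon
  obtain ⟨Cc, hCc, hmod⟩ := lab_modP (Mon (q + 1) 1)
  set Λ := Pool.Agent.Helper52.SL.lvolP s s' 1 c with hΛ
  set η : ℝ := (q₂ - q₁ - 6 * q₀) / 8 with hη
  have hη0 : 0 < η := by rw [hη]; linarith
  have hq₀ : 0 ≤ q₀ := by
    obtain ⟨k, hk⟩ := hmu.exists
    exact (FSp.pb_nonneg _ _).trans hk
  set e : ℝ := ν * η / (2 * ((q + 1) * (Cc + 1))) with he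
  have he0 : 0 < e := by rw [he]; positivity
  have hCe : q * (Cc * e) ≤ ν * η / 2 := by
    have e1 : (q + 1) * (Cc + 1) * e = ν * η / 2 := by
      rw [he]
      field_simp
    have e2 : (q : ℝ) * (Cc * e) ≤ (q + 1) * ((Cc + 1) * e) := by
      have : (0 : ℝ) ≤ q := by positivity
      apply mul_le_mul (by linarith) (by nlinarith) (by positivity) (by positivity)
    calc (q : ℝ) * (Cc * e) ≤ (q + 1) * ((Cc + 1) * e) := e2
      _ = ν * η / 2 := by rw [← mul_assoc]; exact e1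
  have nA := O.nrA crd hq hx' hf h0 h1 hν e he0 hYA hmu hA η hη0
  have nB := O.nrB crd hq hx' hf h0 h1 hν e he0 (fun k => (hYB k).trans (inf_le_inf_right _ (hLB k))) hmu hB η hη0
  have hbphi := O.b_phi hq h1.le hx' hν
  have hab : ∀ᶠ k in UF, ∀ ω, (O.X k).l.T.μ ω ≠ 0 → Cpd ((gau s' 1).cp k) (O.g₀ k ω) ∧ Psd (O.b ν θ k ω) := by
    filter_upwards [O.g₀_Cpd hx'] with k hk ω hω using ⟨hk ω hω, bf_Psd _ _ _ _⟩
  have hker : ∀ (k : ℕ) (Y : Setoid (O.X k).l.T.Ω),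
      (fc (Setoid.ker (FAm.self (O.X k).l.T Y).f) : FL (O.X k).l.T) ≤ fc Y := by
    intro k Y
    apply fc_le
    intro ω ω' _ _ hZ hY
    exact Quotient.sound (show (Y ⊓ (O.X k).l.T.Z) ω ω' from ⟨hY, hZ⟩)
  obtain ⟨E, M, cc, hag⟩ := hmod (gau s' 1) (sph_monG s' 1) (A := cA s c) (B := cB s) (l := O.lK)
    (O.lK_IsKap hx') (cA_Bd s c) (fun E => cA_im_Bd s c O.lK.pj E) LB hLB hLl
    (fun k => FAm.self (O.X k).l.T (YA k)) (fun k => FAm.self (O.X k).l.T (YB k)) (fun _ => rfl)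
    (fun k => (hker k (YA k)).trans (hYA' k)) (fun k => (hker k (YB k)).trans (hYB' k)) O.g₀ (O.b ν θ) hab
    (O.g₀_phi hx') hbphi e he0
    (p := 1 - q₁ - 2 * q₀ - η) (q := q₂ - 2 * q₀ - η) (by rw [hη]; linarith) nA nB
  -- the event
  have hP0 : (1 - q₁ - 2 * q₀ - η + (q₂ - 2 * q₀ - η) - 1) / 2 = q₀ + 3 * η := by
    rw [hη]
    ring
  have hE1 : q₀ + 3 * η ≤ ul (O.lK.sp.pr E) := by
    rw [← hP0]
    exact hag.pr
  have hEpos : 0 < ul (O.lK.sp.pr E) := by linarith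
  have hEk : ∀ᶠ k in UF, q₀ + 2 * η ≤ (O.X k).l.T.pb (E k) := by
    have h2 := eventually_gt_of_lt_ul (Sp.UB_pr E) (show q₀ + 2 * η < ul (O.lK.sp.pr E) by linarith)
    filter_upwards [h2] with k hk using hk.le
  -- the new form
  set y : ∀ k, FD (FSp.im (O.lK k).p (E k)) (Mon (q + 1) 1) :=
    fun k => avFD (O.lK k) (E k) (cc k) ((gau s' 1).cp k) (M k) with hy
  have hyAd := hag.ad2
  have hup := Pool.Agent.Helper52.SL.lgd_le_lvolP (s.im O.lK.pj E hEpos) (s'.im O.lK.pj E hEpos) (c := c)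
    (x := y) hyAd
  have hup2 := hV O.lK.sp O.lK.pj E hEpos
  have hup3 := eventually_lt_of_ul_lt (lgd_UB (s'.im O.lK.pj E hEpos) hyAd)
    (show ul (fun k => lgd (s'.im O.lK.pj E hEpos) 1 y k / ((Sp.im O.lK.pj E).F k).n) < Λ + ν * η / 4 by
      have : 0 < ν * η / 4 := by positivity
      linarith)
  have hlo := rob_lo hV (O.Y_Opt hx') E hEpos (ν * η / 4) (by positivity)
  have hcs := (gau s' 1).csum_typ (T := fun k => (O.X k).l.T) (π := fun k => (O.X k).l.p.π)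
    (fun k ω h => (O.X k).l.p.supp ω h) hab (O.g₀_phi hx') hbphi hη0
  have hlarge : ∀ᶠ k in UF, 1 / (ν * η / 4) < (S.F k).n := S.lim.eventually (eventually_gt_atTop _)
  obtain ⟨k, k1, k2, k3, k4, k5, k6, k7, k8, k9, k10, k11⟩ := (hup3.and (hlo.and (hcs.and (hEk.and (hmu.and (hab.and
    (hag.ge.and (hag.eq.and (hlarge.and ((O.tcn_at hq hx').and (hyAd 1 one_pos))))))))))).exists
  have hn := (S.F k).pos
  set F := (O.X k).l.T with hF
  -- the good event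
  obtain ⟨L, hL⟩ : ∃ L : F.Ω → Prop, ∀ ω, L ω ↔ O.Lg θ k ω ∧ Cpd ((gau s' 1).cp k) (O.g₀ k ω + O.b ν θ k ω) :=
    ⟨_, fun _ => Iff.rfl⟩
  have hPE := F.pb_le_one (E k)
  have hPE0 : 0 < F.pb (E k) := by linarith
  have hLE : η ≤ (F.rest (E k)).pb L := by
    have e1 : F.pb (fun ω => ¬ L ω) ≤ q₀ + η := by
      refine le_trans (FSp.pb_mono _ ?_) ((pb_or _ _ _).trans (add_le_add k5 k3))
      intro ω _ h
      by_cases c1 : O.Lg θ k ω
      · exact Or.inr fun c2 => h ((hL ω).2 ⟨c1, c2⟩)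
      · exact Or.inl c1
    have e2 : (F.rest (E k)).pb (fun ω => ¬ L ω) ≤ F.pb (fun ω => ¬ L ω) / F.pb (E k) :=
      pb_rest_le F (E k) (fun ω => ¬ L ω) (F.pb (E k)) hPE0 le_rfl
    have e3 := (F.rest (E k)).pb_add_compl L
    have e4 : F.pb (fun ω => ¬ L ω) / F.pb (E k) ≤ 1 - η := by
      rw [div_le_iff₀ hPE0]
      nlinarith
    linarith
  -- pointwise
  have hpt : ∀ ω, (F.rest (E k)).μ ω ≠ 0 → Real.logb 2 (GG (S.dl 1 k) ((O.Y k).g ω) (ptf s' k ((O.Y k).l.p.π ω))) +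
      (if L ω then 2 * ν * (S.F k).n - 1 else 0) - q * (Cc * e * (S.F k).n) ≤
      Real.logb 2 (GG (S.dl 1 k) ((y k).g ω) (ptf s' k ((O.X k).l.p.π ω))) := by
    intro ω hω
    obtain ⟨⟨m1, m2⟩, m3, -⟩ := k8 ω hω
    have c1 := (k6 ω m1).1
    have e1 : ptf s' k ((O.Y k).l.p.π ω) = ptf s' k ((O.X k).l.p.π ω) := by
      have : (O.Y k).l.p.π ω = (O.X k).l.p.π ω := O.pt k ω m1
      rw [this]
    have e2 : (O.Y k).g ω = O.g₀ k ω := rfl
    rw [e1, e2]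
    have hx0 : PdM ((y k).g ω) := (k11.2.2.1 ω hω).1.pdM
    have hge : ∀ v, qf (csum ((gau s' 1).cp k) (O.g₀ k ω) (O.b ν θ k ω)) v ≤
        2 ^ (Cc * e * (S.F k).n) * qf ((y k).g ω) v := by
      intro v
      rw [m3]
      exact k7 ω m1 m2 v
    obtain ⟨s1, s2⟩ := log_step (r := S.dl 1 k) (ν := ν) hn (by positivity) c1 (k6 ω m1).2 hx0 hge
      (ptf s' k ((O.X k).l.p.π ω))
    split_ifs with hLω
    · have hg := GG_bf (S.dl 1 k) c1 (k10 ω m1).unit (O.sT ν θ k ω) (2 ^ (c * (S.F k).n))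
        (s'.t.v k ((O.X k).l.p.π ω) 0) (ptf s' k ((O.X k).l.p.π ω))
      have hs : O.sT ν θ k ω ^ 2 = 2 ^ (2 * ν * (S.F k).n) := by
        unfold sT
        rw [if_pos ((hL ω).1 hLω).1, ← Real.rpow_natCast, ← Real.rpow_mul (by norm_num)]
        congr 1
        push_cast
        ring
      rw [hs] at hg
      exact s2 ((hL ω).1 hLω).2 hg
    · rw [add_zero]
      exact s1
  -- averages
  have hav : EG s' O.Y E k + (2 * ν * (S.F k).n - 1) * (F.rest (E k)).pb L - q * (Cc * e * (S.F k).n) ≤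
      lgd (s'.im O.lK.pj E hEpos) 1 y k := by
    have e1 : lgd (s'.im O.lK.pj E hEpos) 1 y k = ∑ ω, (F.rest (E k)).μ ω *
        Real.logb 2 (GG (S.dl 1 k) ((y k).g ω) (ptf s' k ((O.X k).l.p.π ω))) := rfl
    have e2 : EG s' O.Y E k = ∑ ω, (F.rest (E k)).μ ω *
        Real.logb 2 (GG (S.dl 1 k) ((O.Y k).g ω) (ptf s' k ((O.Y k).l.p.π ω))) := rfl
    rw [e1, e2, ← @pb_sum (F.rest (E k)) L (fun ω => Classical.propDecidable _)]
    have e3 : q * (Cc * e * (S.F k).n) = ∑ ω, (F.rest (E k)).μ ω * (q * (Cc * e * (S.F k).n)) := by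
      have e4 : ∑ ω, (F.rest (E k)).μ ω = 1 := (F.rest (E k)).ms
      rw [← Finset.sum_mul, e4, one_mul]
    rw [e3, ← Finset.sum_add_distrib, ← Finset.sum_sub_distrib]
    apply Finset.sum_le_sum
    intro ω _
    by_cases h : (F.rest (E k)).μ ω = 0
    · rw [h]
      simp
    · rw [← mul_add, ← mul_sub]
      exact mul_le_mul_of_nonneg_left (hpt ω h) ((F.rest (E k)).nn ω)
  have hn1 : 1 < ν * η / 4 * (S.F k).n := by
    rw [div_lt_iff₀ (by positivity)] at k9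
    linarith
  have e2 : ((Sp.im O.lK.pj E).F k).n = (S.F k).n := rfl
  rw [e2, div_lt_iff₀ hn] at k1
  have hη1 : η ≤ 1 := by linarith
  have hνn : 1 ≤ 2 * ν * (S.F k).n := by nlinarith
  have h5 : (2 * ν * (S.F k).n - 1) * η ≤ (2 * ν * (S.F k).n - 1) * (F.rest (E k)).pb L :=
    mul_le_mul_of_nonneg_left hLE (by linarith)
  have h6 : q * (Cc * e * (S.F k).n) ≤ ν * η / 2 * (S.F k).n := by
    have : q * (Cc * e * (S.F k).n) = q * (Cc * e) * (S.F k).n := by ring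
    rw [this]
    exact mul_le_mul_of_nonneg_right hCe hn.le
  have k2' : (Λ - ν * η / 4) * (S.F k).n ≤ EG s' O.Y E k := k2
  nlinarith

end XO

end

end Pool.Agent.Helper39.LIP
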