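import Pool.Agent.Helper3.ZM.Gain
import Pool.Agent.Helper89.LX.Can

/-! Affine functions: the vector of derivatives, the top relative conormal of a form with respect to another form. -/

set_option autoImplicit false

namespace Pool.Agent.Helper39.LIP

open Matrix MvPolynomial Pool.Agent.Helper3.LF Pool.Agent.Helper48.NS Pool.Agent.Helper89.LX
open Pool.Agent.Helper95.LF (PdM)

noncomputable section

variable {N q : ℕ}

/-! ### derivatives of affine functions -/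

theorem dd_one (i : Fin N) (p p' : Fin N → ℝ) : (dd i p : Mon N 1 → ℝ) = dd i p' := by
  have key : ∀ (p : Fin N → ℝ) (a : Mon N 1), (dd i p : Mon N 1 → ℝ) a = if (a.1 i : ℕ) = 1 then 1 else 0 := by
    intro p a
    have hs : ∑ j, (a.1 j : ℕ) ≤ 1 := a.2
    show eval p (pderiv i (monomial a.ex 1)) = _
    rw [pderiv_monomial, eval_monomial, Mon.ex_apply]
    split_ifs with h
    · have h1 : a.ex - Finsupp.single i 1 = 0 := by
        ext j
        rw [Finsupp.tsub_apply, Mon.ex_apply, Finsupp.coe_zero, Pi.zero_apply]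
        by_cases hj : j = i
        · rw [hj, Finsupp.single_eq_same, h]
          rfl
        · have h2 : ({i, j} : Finset (Fin N)).sum (fun j => (a.1 j : ℕ)) ≤ ∑ j, (a.1 j : ℕ) :=
            Finset.sum_le_sum_of_subset (Finset.subset_univ _)
          rw [Finset.sum_pair (Ne.symm hj)] at h2
          omega
      rw [h1, h, Finsupp.prod_zero_index]
      norm_num
    · have h1 : (a.1 i : ℕ) ≤ 1 := (Finset.single_le_sum (f := fun j => (a.1 j : ℕ)) (fun _ _ => Nat.zero_le _)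
        (Finset.mem_univ i)).trans hs
      have h2 : (a.1 i : ℕ) = 0 := by omega
      rw [h2]
      norm_num
  funext a
  rw [key, key]

/-- the vector of the derivatives of the affine monomials in the direction `u` -/
def gv (u : Fin N → ℝ) : Mon N 1 → ℝ := fun a => ∑ i, u i * dd i (0 : Fin N → ℝ) a

theorem gv_add (u v : Fin N → ℝ) : gv (u + v) = gv u + gv v := by
  funext a
  unfold gv
  rw [Pi.add_apply, ← Finset.sum_add_distrib]
  exact Finset.sum_congr rfl fun i _ => by rw [Pi.add_apply, add_mul]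

theorem gv_smul (c : ℝ) (u : Fin N → ℝ) : gv (c • u) = c • gv u := by
  funext a
  unfold gv
  rw [Pi.smul_apply, smul_eq_mul, Finset.mul_sum]
  exact Finset.sum_congr rfl fun i _ => by rw [Pi.smul_apply, smul_eq_mul, mul_assoc]

theorem gv_sub (u v : Fin N → ℝ) : gv (u - v) = gv u - gv v := by
  have h1 := gv_add (u - v) v
  rw [sub_add_cancel] at h1
  rw [h1, add_sub_cancel_right]

/-- affine functions: the increment is the derivative -/
theorem vv_gv (p u : Fin N → ℝ) : (vv (p + u) : Mon N 1 → ℝ) = vv p + gv u := by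
  funext a
  have hs : ∑ j, (a.1 j : ℕ) ≤ 1 := a.2
  have hd : ∀ i, dd i (0 : Fin N → ℝ) a = if (a.1 i : ℕ) = 1 then (1 : ℝ) else 0 := by
    intro i
    have h0 : (dd i (0 : Fin N → ℝ) : Mon N 1 → ℝ) a = eval 0 (pderiv i (monomial a.ex 1)) := rfl
    rw [h0, pderiv_monomial, eval_monomial, Mon.ex_apply]
    split_ifs with h
    · have h1 : a.ex - Finsupp.single i 1 = 0 := by
        ext j
        rw [Finsupp.tsub_apply, Mon.ex_apply, Finsupp.coe_zero, Pi.zero_apply]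
        by_cases hj : j = i
        · rw [hj, Finsupp.single_eq_same, h]
          rfl
        · have h2 : ({i, j} : Finset (Fin N)).sum (fun j => (a.1 j : ℕ)) ≤ ∑ j, (a.1 j : ℕ) :=
            Finset.sum_le_sum_of_subset (Finset.subset_univ _)
          rw [Finset.sum_pair (Ne.symm hj)] at h2
          omega
      rw [h1, h, Finsupp.prod_zero_index]
      norm_num
    · have h1 : (a.1 i : ℕ) ≤ 1 := (Finset.single_le_sum (f := fun j => (a.1 j : ℕ)) (fun _ _ => Nat.zero_le _)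
        (Finset.mem_univ i)).trans hs
      have h2 : (a.1 i : ℕ) = 0 := by omega
      rw [h2]
      norm_num
  rw [Pi.add_apply, vv_apply, vv_apply]
  unfold gv
  by_cases h0 : ∃ i, (a.1 i : ℕ) = 1
  · obtain ⟨i, hi⟩ := h0
    have hj : ∀ j, j ≠ i → (a.1 j : ℕ) = 0 := by
      intro j hj
      have h2 : ({i, j} : Finset (Fin N)).sum (fun j => (a.1 j : ℕ)) ≤ ∑ j, (a.1 j : ℕ) :=
        Finset.sum_le_sum_of_subset (Finset.subset_univ _)
      rw [Finset.sum_pair (Ne.symm hj)] at h2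
      omega
    rw [Finset.prod_eq_single i (fun j _ h => by rw [hj j h, pow_zero]) (fun h => absurd (Finset.mem_univ i) h),
      Finset.prod_eq_single i (fun j _ h => by rw [hj j h, pow_zero]) (fun h => absurd (Finset.mem_univ i) h),
      Finset.sum_eq_single i (fun j _ h => by rw [hd j, hj j h]; simp) (fun h => absurd (Finset.mem_univ i) h),
      hd i, hi, if_pos rfl, pow_one, pow_one, mul_one, Pi.add_apply]
  · push Not at h0
    have hj : ∀ j, (a.1 j : ℕ) = 0 := by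
      intro j
      have h1 : (a.1 j : ℕ) ≤ 1 := (Finset.single_le_sum (f := fun j => (a.1 j : ℕ)) (fun _ _ => Nat.zero_le _)
        (Finset.mem_univ j)).trans hs
      have h2 := h0 j
      omega
    rw [Finset.prod_eq_one (fun j _ => by rw [hj j, pow_zero]), Finset.prod_eq_one (fun j _ => by rw [hj j, pow_zero]),
      Finset.sum_eq_zero (fun j _ => by rw [hd j, hj j]; simp)]
    norm_num

/-- horizontal directions -/
def gM (u : Fin q → ℝ) : Mon (q + 1) 1 → ℝ := gv (Fin.cons 0 u : Fin (q + 1) → ℝ)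

theorem gM_smul (c : ℝ) (u : Fin q → ℝ) : gM (c • u) = c • gM u := by
  unfold gM
  rw [← gv_smul]
  congr 1
  funext i
  refine Fin.cases ?_ (fun i => ?_) i
  · simp
  · simp

theorem Wd_gM (p : Fin (q + 1) → ℝ) (u : Fin q → ℝ) : Wd q 1 p *ᵥ u = gM u := by
  funext a
  unfold gM gv Matrix.mulVec dotProduct Wd
  rw [Fin.sum_univ_succ]
  simp only [Fin.cons_zero, Fin.cons_succ, zero_mul, zero_add, Matrix.of_apply]
  exact Finset.sum_congr rfl fun i _ => by rw [dd_one i.succ p 0, mul_comm]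

theorem gM_ne {u : Fin q → ℝ} (hu : u ≠ 0) : gM u ≠ 0 := by
  obtain ⟨i, hi⟩ := Function.ne_iff.mp hu
  intro h
  apply hi
  have h1 := Pool.Agent.Helper3.ZM.Wd_sng (D := 1) le_rfl (0 : Fin (q + 1) → ℝ) u i
  rw [Wd_gM, h] at h1
  exact h1.symm

/-- the matrix of the gradients of affine functions -/
theorem Jf_gM (r : ℝ) (A : Matrix (Mon (q + 1) 1) (Mon (q + 1) 1) ℝ) (p : Fin (q + 1) → ℝ) (u : Fin q → ℝ) :
    u ⬝ᵥ (Jf r A p *ᵥ u) = nn (q + 1) 1 * qf A (gM u) := by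
  rw [Jf_qf]
  have h1 : ∀ j : Fin (q + 1) → Fin (1 + 1), (Wd q 1 (nodp 1 p r j) *ᵥ u) ⬝ᵥ
      (A *ᵥ (Wd q 1 (nodp 1 p r j) *ᵥ u)) = qf A (gM u) := by
    intro j
    rw [Wd_gM]
    rfl
  rw [Finset.sum_congr rfl (fun j _ => h1 j), Finset.sum_const, nsmul_eq_mul]
  congr 1
  exact card_nodes (q + 1) 1

/-! ### quadratic forms -/

section
variable {ι : Type} [Fintype ι]

theorem qf_smul_vec (A : Matrix ι ι ℝ) (c : ℝ) (x : ι → ℝ) : qf A (c • x) = c ^ 2 * qf A x := by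
  unfold qf
  rw [Matrix.mulVec_smul, dotProduct_smul, smul_dotProduct, smul_eq_mul, smul_eq_mul]
  ring

/-- the Cauchy Schwarz inequality -/
theorem qf_cs {A : Matrix ι ι ℝ} (hs : A.IsSymm) (h0 : ∀ v, 0 ≤ qf A v) (x y : ι → ℝ) :
    (x ⬝ᵥ (A *ᵥ y)) ^ 2 ≤ qf A x * qf A y := by
  have hxy : y ⬝ᵥ (A *ᵥ x) = x ⬝ᵥ (A *ᵥ y) := by
    rw [dotProduct_mulVec, ← Matrix.mulVec_transpose, hs.eq, dotProduct_comm]
  have hq : ∀ t : ℝ, 0 ≤ qf A x * (t * t) + (2 * (x ⬝ᵥ (A *ᵥ y))) * t + qf A y := by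
    intro t
    have h1 := h0 (t • x + y)
    have h2 : qf A (t • x + y) = qf A x * (t * t) + (2 * (x ⬝ᵥ (A *ᵥ y))) * t + qf A y := by
      unfold qf
      rw [Matrix.mulVec_add, Matrix.mulVec_smul, add_dotProduct, dotProduct_add, dotProduct_add, smul_dotProduct,
        smul_dotProduct, dotProduct_smul, dotProduct_smul, hxy]
      simp only [smul_eq_mul]
      ring
    rw [h2] at h1
    exact h1
  have h3 := discrim_le_zero hq
  unfold discrim at h3
  nlinarith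

end

/-- THE TOP RELATIVE CONORMAL: an affine function `n`, horizontally of dual norm one for `A₀`, such that `μ n²` is at
most `A`, where `μ` is the largest quotient of `A` and `A₀` on horizontal vectors -/
theorem exists_tcn (hq : 0 < q) {A A₀ : Matrix (Mon (q + 1) 1) (Mon (q + 1) 1) ℝ} (hA : PdM A) (h₀ : PdM A₀) :
    ∃ (n : Mon (q + 1) 1 → ℝ) (μ : ℝ), 0 < μ ∧ (∀ u : Fin q → ℝ, (n ⬝ᵥ gM u) ^ 2 ≤ qf A₀ (gM u)) ∧
      (∃ u : Fin q → ℝ, qf A₀ (gM u) = 1 ∧ n ⬝ᵥ gM u = 1) ∧ (∀ v, μ * (n ⬝ᵥ v) ^ 2 ≤ qf A v) ∧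
      ∀ u : Fin q → ℝ, qf A (gM u) ≤ μ * qf A₀ (gM u) := by
  classical
  have i1 : Nonempty (Fin q) := ⟨⟨0, hq⟩⟩
  have i2 : Nontrivial (Fin q → ℝ) := inferInstance
  have hpos : ∀ {B : Matrix (Mon (q + 1) 1) (Mon (q + 1) 1) ℝ}, PdM B → ∀ u : Fin q → ℝ, u ≠ 0 → 0 < qf B (gM u) :=
    fun hB u hu => hB.2 _ (gM_ne hu)
  have hcont : ∀ B : Matrix (Mon (q + 1) 1) (Mon (q + 1) 1) ℝ, Continuous fun u : Fin q → ℝ => qf B (gM u) := by
    intro B
    have hg : Continuous fun u : Fin q → ℝ => (gM u : Mon (q + 1) 1 → ℝ) := by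
      refine continuous_pi fun a => ?_
      unfold gM gv
      refine continuous_finset_sum _ fun i _ => ?_
      refine Continuous.mul ?_ continuous_const
      refine Fin.cases ?_ (fun j => ?_) i
      · simp only [Fin.cons_zero]
        exact continuous_const
      · simp only [Fin.cons_succ]
        exact continuous_apply j
    unfold qf dotProduct Matrix.mulVec dotProduct
    refine continuous_finset_sum _ fun a _ => ?_
    refine Continuous.mul ((continuous_apply a).comp hg) ?_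
    exact continuous_finset_sum _ fun b _ => continuous_const.mul ((continuous_apply b).comp hg)
  obtain ⟨u₀, hu₀, hmax⟩ := (isCompact_sphere (0 : Fin q → ℝ) 1).exists_isMaxOn
    (NormedSpace.sphere_nonempty.mpr zero_le_one)
    (f := fun u => qf A (gM u) / qf A₀ (gM u)) (by
      refine ContinuousOn.div (hcont A).continuousOn (hcont A₀).continuousOn ?_
      intro u hu
      have hne : u ≠ 0 := by
        intro h
        rw [h] at hu
        simp at hu
      exact (hpos h₀ u hne).ne')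
  have hu₀ne : u₀ ≠ 0 := by
    intro h
    rw [h] at hu₀
    simp at hu₀
  have hq0 := hpos h₀ u₀ hu₀ne
  set s : ℝ := (Real.sqrt (qf A₀ (gM u₀)))⁻¹ with hs
  have hs0 : 0 < s := inv_pos.mpr (Real.sqrt_pos.mpr hq0)
  have hs2 : s ^ 2 * qf A₀ (gM u₀) = 1 := by
    rw [hs, inv_pow, Real.sq_sqrt hq0.le, inv_mul_cancel₀ hq0.ne']
  set u₁ : Fin q → ℝ := s • u₀ with hu₁
  have h1 : qf A₀ (gM u₁) = 1 := by
    rw [hu₁, gM_smul, qf_smul_vec, hs2]
  set μ : ℝ := qf A (gM u₁) with hμ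
  have hμ0 : 0 < μ := by
    apply hpos hA
    exact smul_ne_zero hs0.ne' hu₀ne
  have hμe : μ = qf A (gM u₀) / qf A₀ (gM u₀) := by
    rw [hμ, hu₁, gM_smul, qf_smul_vec, eq_div_iff hq0.ne']
    calc s ^ 2 * qf A (gM u₀) * qf A₀ (gM u₀) = (s ^ 2 * qf A₀ (gM u₀)) * qf A (gM u₀) := by ring
      _ = _ := by rw [hs2, one_mul]
  have hle : ∀ u : Fin q → ℝ, qf A (gM u) ≤ μ * qf A₀ (gM u) := by
    intro u
    by_cases hu : u = 0
    · have h2 : (gM u : Mon (q + 1) 1 → ℝ) = 0 := by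
        have h3 := gM_smul (0 : ℝ) u
        rw [zero_smul, zero_smul] at h3
        rw [hu]
        exact h3
      rw [h2]
      unfold qf
      simp
    · have hn : 0 < ‖u‖ := norm_pos_iff.mpr hu
      have h2 : (‖u‖⁻¹ • u) ∈ Metric.sphere (0 : Fin q → ℝ) 1 := by
        rw [mem_sphere_zero_iff_norm, norm_smul, norm_inv, norm_norm, inv_mul_cancel₀ hn.ne']
      have h3 : qf A (gM (‖u‖⁻¹ • u)) / qf A₀ (gM (‖u‖⁻¹ • u)) ≤ qf A (gM u₀) / qf A₀ (gM u₀) := hmax h2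
      rw [gM_smul, qf_smul_vec, qf_smul_vec, mul_div_mul_left _ _ (by positivity), ← hμe,
        div_le_iff₀ (hpos h₀ u hu)] at h3
      exact h3
  refine ⟨μ⁻¹ • (A *ᵥ gM u₁), μ, hμ0, ?_, ⟨u₁, h1, ?_⟩, ?_, hle⟩
  · intro u
    have h2 := qf_cs hA.1 (fun v => hA.nonneg v) (gM u) (gM u₁)
    rw [smul_dotProduct, smul_eq_mul, dotProduct_comm, mul_pow]
    have h3 : (μ⁻¹) ^ 2 * (gM u ⬝ᵥ (A *ᵥ gM u₁)) ^ 2 ≤ (μ⁻¹) ^ 2 * (qf A (gM u) * μ) :=
      mul_le_mul_of_nonneg_left h2 (by positivity)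
    refine h3.trans ?_
    have h4 : (μ⁻¹) ^ 2 * (qf A (gM u) * μ) = μ⁻¹ * qf A (gM u) := by
      field_simp
    rw [h4, inv_mul_le_iff₀ hμ0]
    exact hle u
  · rw [smul_dotProduct, smul_eq_mul, dotProduct_comm]
    exact inv_mul_cancel₀ hμ0.ne'
  · intro v
    have h2 := qf_cs hA.1 (fun v => hA.nonneg v) v (gM u₁)
    rw [smul_dotProduct, smul_eq_mul, dotProduct_comm, mul_pow]
    have h3 : μ * ((μ⁻¹) ^ 2 * (v ⬝ᵥ (A *ᵥ gM u₁)) ^ 2) = μ⁻¹ * (v ⬝ᵥ (A *ᵥ gM u₁)) ^ 2 := by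
      field_simp
    rw [h3, inv_mul_le_iff₀ hμ0, mul_comm μ]
    exact h2

/-- the data of the top conormal -/
structure IsTcn (A A₀ : Matrix (Mon (q + 1) 1) (Mon (q + 1) 1) ℝ) (n : Mon (q + 1) 1 → ℝ) (μ : ℝ) : Prop where
  pos : 0 < μ
  dual : ∀ u : Fin q → ℝ, (n ⬝ᵥ gM u) ^ 2 ≤ qf A₀ (gM u)
  unit : ∃ u : Fin q → ℝ, qf A₀ (gM u) = 1 ∧ n ⬝ᵥ gM u = 1
  low : ∀ v, μ * (n ⬝ᵥ v) ^ 2 ≤ qf A v
  up : ∀ u : Fin q → ℝ, qf A (gM u) ≤ μ * qf A₀ (gM u)

open Classical in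
/-- the top conormal, as a function of the two forms -/
def tcn (A A₀ : Matrix (Mon (q + 1) 1) (Mon (q + 1) 1) ℝ) : Mon (q + 1) 1 → ℝ :=
  if h : ∃ n : Mon (q + 1) 1 → ℝ, ∃ μ : ℝ, IsTcn A A₀ n μ then h.choose else 0

open Classical in
/-- the top relative eigenvalue -/
def tmu (A A₀ : Matrix (Mon (q + 1) 1) (Mon (q + 1) 1) ℝ) : ℝ :=
  if h : ∃ n : Mon (q + 1) 1 → ℝ, ∃ μ : ℝ, IsTcn A A₀ n μ then h.choose_spec.choose else 0

theorem tcn_spec (hq : 0 < q) {A A₀ : Matrix (Mon (q + 1) 1) (Mon (q + 1) 1) ℝ} (hA : PdM A) (h₀ : PdM A₀) :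
    IsTcn A A₀ (tcn A A₀) (tmu A A₀) := by
  have h : ∃ n : Mon (q + 1) 1 → ℝ, ∃ μ : ℝ, IsTcn A A₀ n μ := by
    obtain ⟨n, μ, h1, h2, h3, h4, h5⟩ := exists_tcn hq hA h₀
    exact ⟨n, μ, h1, h2, h3, h4, h5⟩
  unfold tcn tmu
  rw [dif_pos h, dif_pos h]
  exact h.choose_spec.choose_spec

/-- the top eigenvalue is large if the volume is -/
theorem IsTcn.ge {A A₀ : Matrix (Mon (q + 1) 1) (Mon (q + 1) 1) ℝ} (hA : PdM A) (h₀ : PdM A₀)
    {n : Mon (q + 1) 1 → ℝ} {μ : ℝ} (h : IsTcn A A₀ n μ) (r : ℝ) (p p' : Fin (q + 1) → ℝ) {R : ℝ}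
    (hR : 1 ≤ R) (hG : R ^ q * GG r A₀ p' < GG r A p) : R ≤ μ := by
  by_contra hc
  push Not at hc
  have h1 := GG_le_of r r A₀ A h₀.1 (fun x => h₀.nonneg x) hA.1 (fun x => hA.nonneg x) p' p R hR (fun e => by
    rw [Jf_gM, Jf_gM]
    have h2 := h.up e
    have h3 := nn_one (q + 1) 1
    have h4 : 0 ≤ qf A₀ (gM e) := h₀.nonneg _
    have h5 : qf A (gM e) ≤ R * qf A₀ (gM e) := h2.trans (mul_le_mul_of_nonneg_right hc.le h4)
    calc nn (q + 1) 1 * qf A (gM e) ≤ nn (q + 1) 1 * (R * qf A₀ (gM e)) :=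
          mul_le_mul_of_nonneg_left h5 (by linarith)
      _ = _ := by ring)
  exact absurd h1 (not_le.mpr hG)

end

end Pool.Agent.Helper39.LIP
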