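import Pool.Agent.Helper39.LIP.St
import Pool.Agent.Helper89.LIP.Lab2
import Pool.Agent.Helper39.LIP.Aff

/-! (2.4) of LIP(A), algebra: two top conormals which are close for the known form agree modulo the known form. -/

set_option autoImplicit false

namespace Pool.Agent.Helper39.LIP

open Matrix MvPolynomial Pool.Agent.Helper3.LF Pool.Agent.Helper48.NS Pool.Agent.Helper89.LX
open Pool.Agent.Helper95.LF (PdM)
open Pool.Agent.Helper40.EL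

noncomputable section

variable {N q : ℕ}

/-- the linear monomial -/
def Mon.sg1 (i : Fin N) : Mon N 1 := ⟨Pi.single i 1, by
  have h1 : ∀ j, ((Pi.single i (1 : Fin 2) : Fin N → Fin 2) j : ℕ) = if j = i then 1 else 0 := by
    intro j
    by_cases h : j = i
    · subst h
      simp
    · rw [Pi.single_eq_of_ne h, if_neg h]
      rfl
  rw [Finset.sum_congr rfl fun j _ => h1 j, Finset.sum_ite_eq' Finset.univ i, if_pos (Finset.mem_univ i)]⟩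

theorem dd_eq (i : Fin N) (p : Fin N → ℝ) (a : Mon N 1) : (dd i p : Mon N 1 → ℝ) a = if (a.1 i : ℕ) = 1 then 1 else 0 := by
  have hs : ∑ j, (a.1 j : ℕ) ≤ 1 := a.2
  show eval p (pderiv i (monomial a.ex 1)) = _
  rw [pderiv_monomial, eval_monomial, Mon.ex_apply]
  split_ifs with h
  · have h1 : a.ex - Finsupp.single i 1 = 0 := by
      ext j
      rw [Finsupp.tsub_apply, Mon.ex_apply, Finsupp.coe_zero, Pi.zero_apply]
      by_cases hj : j = i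
      · rw [hj, Finsupp.single_eq_same, h]
        rfl
      · have h2 : ({i, j} : Finset (Fin N)).sum (fun j => (a.1 j : ℕ)) ≤ ∑ j, (a.1 j : ℕ) :=
          Finset.sum_le_sum_of_subset (Finset.subset_univ _)
        rw [Finset.sum_pair (Ne.symm hj)] at h2
        omega
    rw [h1, h, Finsupp.prod_zero_index]
    norm_num
  · have h1 : (a.1 i : ℕ) ≤ 1 := (Finset.single_le_sum (f := fun j => (a.1 j : ℕ)) (fun _ _ => Nat.zero_le _)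
      (Finset.mem_univ i)).trans hs
    have h2 : (a.1 i : ℕ) = 0 := by omega
    rw [h2]
    norm_num

theorem gv_zero_mon (u : Fin N → ℝ) : (gv u : Mon N 1 → ℝ) (Mon.zero N 1) = 0 := by
  unfold gv
  apply Finset.sum_eq_zero
  intro i _
  rw [dd_eq, if_neg (by show ¬ ((0 : Fin 2) : ℕ) = 1; norm_num), mul_zero]

theorem gv_sg1 (u : Fin N → ℝ) (i : Fin N) : (gv u : Mon N 1 → ℝ) (Mon.sg1 i) = u i := by
  unfold gv
  rw [Finset.sum_eq_single i]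
  · rw [dd_eq, if_pos, mul_one]
    show ((Pi.single i (1 : Fin 2) : Fin N → Fin 2) i : ℕ) = 1
    rw [Pi.single_eq_same]
    rfl
  · intro j _ hj
    rw [dd_eq, if_neg, mul_zero]
    show ¬ ((Pi.single i (1 : Fin 2) : Fin N → Fin 2) j : ℕ) = 1
    rw [Pi.single_eq_of_ne hj]
    norm_num
  · intro h
    exact absurd (Finset.mem_univ i) h

theorem vv_sg1 (p : Fin N → ℝ) (i : Fin N) : (vv p : Mon N 1 → ℝ) (Mon.sg1 i) = p i := by
  have h1 := vv_gv (0 : Fin N → ℝ) p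
  rw [zero_add] at h1
  rw [h1, Pi.add_apply, gv_sg1, vv_apply]
  have h2 : ∏ j, (0 : Fin N → ℝ) j ^ (((Mon.sg1 i).1 j : Fin 2) : ℕ) = 0 := by
    apply Finset.prod_eq_zero (Finset.mem_univ i)
    have h3 : (((Mon.sg1 i).1 i : Fin 2) : ℕ) = 1 := by
      show ((Pi.single i (1 : Fin 2) : Fin N → Fin 2) i : ℕ) = 1
      rw [Pi.single_eq_same]
      rfl
    rw [h3, Pi.zero_apply, pow_one]
  rw [h2, zero_add]

/-- monomials of degree at most one -/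
theorem mon_cases (a : Mon N 1) : a = Mon.zero N 1 ∨ ∃ i, a = Mon.sg1 i := by
  have hs : ∑ j, (a.1 j : ℕ) ≤ 1 := a.2
  by_cases h : ∃ i, (a.1 i : ℕ) = 1
  · obtain ⟨i, hi⟩ := h
    right
    refine ⟨i, Subtype.ext ?_⟩
    funext j
    show a.1 j = (Pi.single i (1 : Fin 2) : Fin N → Fin 2) j
    by_cases hj : j = i
    · subst hj
      rw [Pi.single_eq_same]
      exact Fin.ext hi
    · rw [Pi.single_eq_of_ne hj]
      have h2 : ({i, j} : Finset (Fin N)).sum (fun j => (a.1 j : ℕ)) ≤ ∑ j, (a.1 j : ℕ) :=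
        Finset.sum_le_sum_of_subset (Finset.subset_univ _)
      rw [Finset.sum_pair (Ne.symm hj)] at h2
      apply Fin.ext
      show (a.1 j : ℕ) = 0
      omega
  · left
    push Not at h
    refine Subtype.ext ?_
    funext j
    show a.1 j = 0
    apply Fin.ext
    show (a.1 j : ℕ) = 0
    have h1 : (a.1 j : ℕ) ≤ 1 := (Finset.single_le_sum (f := fun j => (a.1 j : ℕ)) (fun _ _ => Nat.zero_le _)
      (Finset.mem_univ j)).trans hs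
    have h2 := h j
    omega

/-- decomposition of a vector at a point -/
theorem dec_pt (p : Fin N → ℝ) (v : Mon N 1 → ℝ) :
    v = v (Mon.zero N 1) • vv p + gv (fun i => v (Mon.sg1 i) - v (Mon.zero N 1) * p i) := by
  funext a
  rw [Pi.add_apply, Pi.smul_apply, smul_eq_mul]
  rcases mon_cases a with rfl | ⟨i, rfl⟩
  · rw [gv_zero_mon, add_zero]
    have h1 : (vv p : Mon N 1 → ℝ) (Mon.zero N 1) = 1 := vv_zero p
    rw [h1, mul_one]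
  · rw [gv_sg1, vv_sg1]
    ring

/-- the time relative to `t` -/
def tv (t : ℝ) : Mon (q + 1) 1 → ℝ := Pi.single (Mon.sg1 0) 1 - t • Pi.single (Mon.zero (q + 1) 1) 1

theorem tv_dot (t : ℝ) (v : Mon (q + 1) 1 → ℝ) : tv t ⬝ᵥ v = v (Mon.sg1 0) - t * v (Mon.zero (q + 1) 1) := by
  unfold tv
  rw [sub_dotProduct, smul_dotProduct, single_dotProduct, single_dotProduct, one_mul, one_mul, smul_eq_mul]

/-- the form of the time at the scale `W⁻¹` -/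
def tf (W t : ℝ) : Matrix (Mon (q + 1) 1) (Mon (q + 1) 1) ℝ := (W ^ 2) • vecMulVec (tv t) (tv t)

theorem qf_smulM {ι : Type} [Fintype ι] (c : ℝ) (A : Matrix ι ι ℝ) (v : ι → ℝ) : qf (c • A) v = c * qf A v := by
  unfold qf
  rw [Matrix.smul_mulVec, dotProduct_smul, smul_eq_mul]

theorem qf_tf (W t : ℝ) (v : Mon (q + 1) 1 → ℝ) :
    qf (tf W t) v = W ^ 2 * (v (Mon.sg1 0) - t * v (Mon.zero (q + 1) 1)) ^ 2 := by
  unfold tf
  rw [qf_smulM, qf_vec, tv_dot]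

theorem Psd_smul {ι : Type} [Fintype ι] {c : ℝ} (hc : 0 ≤ c) {A : Matrix ι ι ℝ} (h : Psd A) : Psd (c • A) := by
  refine ⟨?_, fun v => by rw [qf_smulM]; exact mul_nonneg hc (h.2 v)⟩
  have h1 : A.transpose = A := h.1
  show (c • A).transpose = c • A
  rw [Matrix.transpose_smul, h1]

theorem Psd_add {ι : Type} [Fintype ι] {A B : Matrix ι ι ℝ} (h : Psd A) (h' : Psd B) : Psd (A + B) := by
  refine ⟨?_, fun v => by rw [qf_add]; exact add_nonneg (h.2 v) (h'.2 v)⟩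
  have h1 : A.transpose = A := h.1
  have h2 : B.transpose = B := h'.1
  show (A + B).transpose = A + B
  rw [Matrix.transpose_add, h1, h2]

theorem tf_Psd (W t : ℝ) : Psd (tf W t : Matrix (Mon (q + 1) 1) (Mon (q + 1) 1) ℝ) :=
  Psd_smul (sq_nonneg W) (Psd_vec _)

section
variable {ι : Type} [Fintype ι] {A : Matrix ι ι ℝ}

theorem qf_add3_le (h0 : ∀ v, 0 ≤ qf A v) (x y z : ι → ℝ) : qf A (x + y + z) ≤ 3 * (qf A x + qf A y + qf A z) := by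
  have h1 := h0 (x - y)
  have h2 := h0 (y - z)
  have h3 := h0 (x - z)
  have e1 : qf A (x - y) + qf A (y - z) + qf A (x - z) + qf A (x + y + z) = 3 * (qf A x + qf A y + qf A z) := by
    unfold qf
    simp only [Matrix.mulVec_sub, Matrix.mulVec_add, sub_dotProduct, add_dotProduct, dotProduct_sub, dotProduct_add]
    ring
  linarith

end

/-- the coefficient of the constant -/
theorem sq_zero_le {cp : ℝ} {A : Matrix (Mon N 1) (Mon N 1) ℝ} (h : Cpd cp A) (v : Mon N 1 → ℝ) :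
    v (Mon.zero N 1) ^ 2 ≤ qf A v := by
  refine le_trans ?_ (h.2.1 v)
  unfold dotProduct
  have h1 := Finset.single_le_sum (f := fun i => v i * v i) (fun i _ => mul_self_nonneg _)
    (Finset.mem_univ (Mon.zero N 1))
  have h2 : v (Mon.zero N 1) * v (Mon.zero N 1) ≤ ∑ i, v i * v i := h1
  rw [pow_two]
  exact h2

/-- horizontal closeness, velocities: agreement modulo the known form and the time -/
theorem clo_A {cp W t B δ τ : ℝ} (hW : 0 < W) (hB : 1 ≤ B) {g₀ : Matrix (Mon (q + 1) 1) (Mon (q + 1) 1) ℝ}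
    (h₀ : Cpd cp g₀) {d : Mon (q + 1) 1 → ℝ} (a x : Fin q → ℝ)
    (hd : (d ⬝ᵥ vv (pl a x t)) ^ 2 ≤ δ) (hv : (d ⬝ᵥ gv (Fin.cons 1 x : Fin (q + 1) → ℝ)) ^ 2 ≤ δ * W ^ 2)
    (hM : ∀ u : Fin q → ℝ, (d ⬝ᵥ gM u) ^ 2 ≤ τ ^ 2 * qf g₀ (gM u))
    (h1 : qf g₀ (vv (pl a x t)) ≤ B) (h2 : qf g₀ (gv (Fin.cons 1 x : Fin (q + 1) → ℝ)) ≤ B * W ^ 2)
    (v : Mon (q + 1) 1 → ℝ) :
    (d ⬝ᵥ v) ^ 2 ≤ (3 * δ + 27 * τ ^ 2 * B) * (qf g₀ v + qf (tf W t) v) := by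
  set α := v (Mon.zero (q + 1) 1) with hα
  set w : ℝ := v (Mon.sg1 0) - t * α with hw
  set u : Fin q → ℝ := fun i => v (Mon.sg1 i.succ) - α * pl a x t i.succ - w * x i with hu
  have e0 : v = α • vv (pl a x t) + w • gv (Fin.cons 1 x : Fin (q + 1) → ℝ) + gM u := by
    have h3 := dec_pt (pl a x t) v
    have h4 : (fun i => v (Mon.sg1 i) - v (Mon.zero (q + 1) 1) * pl a x t i) =
        w • (Fin.cons 1 x : Fin (q + 1) → ℝ) + (Fin.cons 0 u : Fin (q + 1) → ℝ) := by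
      funext i
      refine Fin.cases ?_ (fun i => ?_) i
      · rw [Pi.add_apply, Pi.smul_apply, Fin.cons_zero, Fin.cons_zero, smul_eq_mul, mul_one, add_zero, pl_zero, hw, hα]
        ring
      · rw [Pi.add_apply, Pi.smul_apply, Fin.cons_succ, Fin.cons_succ, smul_eq_mul, hu]
        simp only
        rw [← hα]
        ring
    rw [h4, gv_add, gv_smul] at h3
    rw [add_assoc]
    exact h3
  have hα2 : α ^ 2 ≤ qf g₀ v := sq_zero_le h₀ v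
  have hq0 : ∀ v, 0 ≤ qf g₀ v := fun v => h₀.psd.2 v
  have hT : qf (tf W t) v = W ^ 2 * w ^ 2 := by rw [qf_tf]
  have hT0 : 0 ≤ qf (tf W t) v := by rw [hT]; positivity
  have hg := hq0 v
  set Q := qf g₀ v + qf (tf W t) v with hQ
  have hQ0 : 0 ≤ Q := by rw [hQ]; linarith
  have hgu : qf g₀ (gM u) ≤ 9 * B * Q := by
    have e1 : gM u = v + (-α) • vv (pl a x t) + (-w) • gv (Fin.cons 1 x : Fin (q + 1) → ℝ) := by
      rw [e0]
      simp only [neg_smul]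
      abel
    rw [e1]
    refine (qf_add3_le hq0 _ _ _).trans ?_
    rw [qf_smul_vec, qf_smul_vec]
    have f1 : (-α) ^ 2 * qf g₀ (vv (pl a x t)) ≤ Q * B := by
      rw [neg_sq]
      exact mul_le_mul (by linarith) h1 (hq0 _) hQ0
    have f2 : (-w) ^ 2 * qf g₀ (gv (Fin.cons 1 x : Fin (q + 1) → ℝ)) ≤ B * Q := by
      rw [neg_sq]
      calc w ^ 2 * qf g₀ (gv (Fin.cons 1 x : Fin (q + 1) → ℝ)) ≤ w ^ 2 * (B * W ^ 2) :=
            mul_le_mul_of_nonneg_left h2 (sq_nonneg _)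
        _ = B * (W ^ 2 * w ^ 2) := by ring
        _ ≤ B * Q := mul_le_mul_of_nonneg_left (by rw [hQ, hT]; linarith) (by linarith)
    have f3 : qf g₀ v ≤ B * Q := by
      have : Q ≤ B * Q := le_mul_of_one_le_left hQ0 hB
      linarith
    linarith
  have hδ0 : 0 ≤ δ := (sq_nonneg _).trans hd
  have e2 : d ⬝ᵥ v = α * (d ⬝ᵥ vv (pl a x t)) + w * (d ⬝ᵥ gv (Fin.cons 1 x : Fin (q + 1) → ℝ)) + d ⬝ᵥ gM u := by
    conv_lhs => rw [e0]
    rw [dotProduct_add, dotProduct_add, dotProduct_smul, dotProduct_smul, smul_eq_mul, smul_eq_mul]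
  rw [e2]
  have s1 : (α * (d ⬝ᵥ vv (pl a x t))) ^ 2 ≤ qf g₀ v * δ := by
    rw [mul_pow]
    exact mul_le_mul hα2 hd (sq_nonneg _) hg
  have s2 : (w * (d ⬝ᵥ gv (Fin.cons 1 x : Fin (q + 1) → ℝ))) ^ 2 ≤ δ * qf (tf W t) v := by
    rw [mul_pow, hT]
    calc w ^ 2 * (d ⬝ᵥ gv (Fin.cons 1 x : Fin (q + 1) → ℝ)) ^ 2 ≤ w ^ 2 * (δ * W ^ 2) :=
          mul_le_mul_of_nonneg_left hv (sq_nonneg _)
      _ = _ := by ring
  have s3 : (d ⬝ᵥ gM u) ^ 2 ≤ τ ^ 2 * (9 * B * Q) := (hM u).trans (mul_le_mul_of_nonneg_left hgu (sq_nonneg _))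
  have s4 : ∀ x y z : ℝ, (x + y + z) ^ 2 ≤ 3 * (x ^ 2 + y ^ 2 + z ^ 2) := by
    intro x y z
    nlinarith [sq_nonneg (x - y), sq_nonneg (y - z), sq_nonneg (x - z)]
  refine (s4 _ _ _).trans ?_
  have s5 : qf g₀ v * δ + δ * qf (tf W t) v = δ * Q := by rw [hQ]; ring
  have s6 : τ ^ 2 * (9 * B * Q) = 9 * τ ^ 2 * B * Q := by ring
  rw [s6] at s3
  have s7 : (3 * δ + 27 * τ ^ 2 * B) * Q = 3 * (δ * Q + 9 * τ ^ 2 * B * Q) := by ring
  rw [s7]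
  linarith

/-- closeness in all directions at a point: agreement modulo the known form -/
theorem clo_B {cp B δ τ : ℝ} (hB : 1 ≤ B) {g₀ : Matrix (Mon (q + 1) 1) (Mon (q + 1) 1) ℝ}
    (h₀ : Cpd cp g₀) {d : Mon (q + 1) 1 → ℝ} (p : Fin (q + 1) → ℝ)
    (hd : (d ⬝ᵥ vv p) ^ 2 ≤ δ) (hM : ∀ u : Fin (q + 1) → ℝ, (d ⬝ᵥ gv u) ^ 2 ≤ τ ^ 2 * qf g₀ (gv u))
    (h1 : qf g₀ (vv p) ≤ B) (v : Mon (q + 1) 1 → ℝ) :
    (d ⬝ᵥ v) ^ 2 ≤ (3 * δ + 27 * τ ^ 2 * B) * qf g₀ v := by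
  set α := v (Mon.zero (q + 1) 1) with hα
  set u : Fin (q + 1) → ℝ := fun i => v (Mon.sg1 i) - α * p i with hu
  have e0 : v = α • vv p + gv u := dec_pt p v
  have hα2 : α ^ 2 ≤ qf g₀ v := sq_zero_le h₀ v
  have hq0 : ∀ v, 0 ≤ qf g₀ v := fun v => h₀.psd.2 v
  have hg := hq0 v
  have hδ0 : 0 ≤ δ := (sq_nonneg _).trans hd
  have hgu : qf g₀ (gv u) ≤ 4 * B * qf g₀ v := by
    have e1 : gv u = v - α • vv p := by
      rw [e0]
      abel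
    rw [e1]
    refine (Pool.Agent.Helper93.LIP.qf_sub_le hq0 _ _).trans ?_
    rw [qf_smul_vec]
    have f1 : α ^ 2 * qf g₀ (vv p) ≤ qf g₀ v * B := mul_le_mul hα2 h1 (hq0 _) hg
    have f2 : qf g₀ v ≤ B * qf g₀ v := le_mul_of_one_le_left hg hB
    linarith
  have e2 : d ⬝ᵥ v = α * (d ⬝ᵥ vv p) + d ⬝ᵥ gv u := by
    conv_lhs => rw [e0]
    rw [dotProduct_add, dotProduct_smul, smul_eq_mul]
  rw [e2]
  have s1 : (α * (d ⬝ᵥ vv p)) ^ 2 ≤ qf g₀ v * δ := by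
    rw [mul_pow]
    exact mul_le_mul hα2 hd (sq_nonneg _) hg
  have s3 : (d ⬝ᵥ gv u) ^ 2 ≤ τ ^ 2 * (4 * B * qf g₀ v) := (hM u).trans (mul_le_mul_of_nonneg_left hgu (sq_nonneg _))
  have s4 : ∀ x y : ℝ, (x + y) ^ 2 ≤ 2 * (x ^ 2 + y ^ 2) := by
    intro x y
    nlinarith [sq_nonneg (x - y)]
  refine (s4 _ _).trans ?_
  have s5 : 0 ≤ τ ^ 2 * B * qf g₀ v := by positivity
  have s6 : 0 ≤ qf g₀ v * δ := by positivity
  nlinarith

/-! ### the forms of the agreement -/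

/-- the form of a conormal at the scale `T⁻¹`, with the time -/
def bf (T : ℝ) (n : Mon (q + 1) 1 → ℝ) (W t : ℝ) : Matrix (Mon (q + 1) 1) (Mon (q + 1) 1) ℝ :=
  (T ^ 2) • vecMulVec n n + tf W t

theorem bf_Psd (T : ℝ) (n : Mon (q + 1) 1 → ℝ) (W t : ℝ) : Psd (bf T n W t) :=
  Psd_add (Psd_smul (sq_nonneg T) (Psd_vec _)) (tf_Psd W t)

theorem qf_bf (T : ℝ) (n : Mon (q + 1) 1 → ℝ) (W t : ℝ) (v : Mon (q + 1) 1 → ℝ) :
    qf (bf T n W t) v = T ^ 2 * (n ⬝ᵥ v) ^ 2 + qf (tf W t) v := by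
  unfold bf
  rw [qf_add, qf_smulM, qf_vec]

theorem tf_cmp {cp W t t' : ℝ} {g₀ : Matrix (Mon (q + 1) 1) (Mon (q + 1) 1) ℝ} (h₀ : Cpd cp g₀) {K : ℝ}
    (hK : (W * (t - t')) ^ 2 ≤ K) (v : Mon (q + 1) 1 → ℝ) : qf (tf W t) v ≤ 2 * (K * qf g₀ v + qf (tf W t') v) := by
  rw [qf_tf, qf_tf]
  have h1 := sq_zero_le h₀ v
  set α := v (Mon.zero (q + 1) 1)
  set β := v (Mon.sg1 0)
  have h2 : (W * (t - t')) ^ 2 * α ^ 2 ≤ K * qf g₀ v := mul_le_mul hK h1 (sq_nonneg _) ((sq_nonneg _).trans hK)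
  nlinarith [sq_nonneg (W * (t - t') * α - W * (β - t' * α)), sq_nonneg (W * (t - t') * α + W * (β - t' * α))]

/-- agreement of the forms from closeness of the conormals -/
theorem bf_cmp {cp W t t' T K C : ℝ} {g₀ : Matrix (Mon (q + 1) 1) (Mon (q + 1) 1) ℝ} (h₀ : Cpd cp g₀)
    (hK : (W * (t - t')) ^ 2 ≤ K) {n n' : Mon (q + 1) 1 → ℝ} {ε : ℝ} (hε : ε = 1 ∨ ε = -1) (hC : 0 ≤ C)
    (h : ∀ v, T ^ 2 * ((n - ε • n') ⬝ᵥ v) ^ 2 ≤ C * (qf g₀ v + qf (tf W t) v)) (v : Mon (q + 1) 1 → ℝ) :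
    qf (bf T n W t) v ≤ (2 + (2 * C + 1) * (2 * K + 2)) * (qf g₀ v + qf (bf T n' W t') v) := by
  rw [qf_bf, qf_bf]
  have h1 := h v
  have h2 := tf_cmp h₀ hK v
  have h3 : 0 ≤ qf g₀ v := h₀.psd.2 v
  have h4 : 0 ≤ qf (tf W t') v := (tf_Psd W t').2 v
  have h4' : 0 ≤ qf (tf W t) v := (tf_Psd W t).2 v
  have hK0 : 0 ≤ K := (sq_nonneg _).trans hK
  have h5 : T ^ 2 * (n ⬝ᵥ v) ^ 2 ≤ 2 * (T ^ 2 * ((n - ε • n') ⬝ᵥ v) ^ 2) + 2 * (T ^ 2 * (n' ⬝ᵥ v) ^ 2) := by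
    rw [sub_dotProduct, smul_dotProduct, smul_eq_mul]
    have e1 : (ε * (n' ⬝ᵥ v)) ^ 2 = (n' ⬝ᵥ v) ^ 2 := by
      rcases hε with rfl | rfl <;> ring
    have e2 : (n ⬝ᵥ v) ^ 2 ≤ 2 * ((n ⬝ᵥ v - ε * (n' ⬝ᵥ v)) ^ 2) + 2 * (n' ⬝ᵥ v) ^ 2 := by
      rw [← e1]
      nlinarith [sq_nonneg (n ⬝ᵥ v - 2 * (ε * (n' ⬝ᵥ v)))]
    nlinarith [sq_nonneg T]
  have h6 : 0 ≤ T ^ 2 * (n' ⬝ᵥ v) ^ 2 := by positivity
  set G := qf g₀ v
  set Y := qf (tf W t') v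
  set Z := T ^ 2 * (n' ⬝ᵥ v) ^ 2
  have h7 : qf (tf W t) v ≤ (2 * K + 2) * (G + Y) := by nlinarith
  have h8 : G + qf (tf W t) v ≤ (2 * K + 3) * (G + Y) := by nlinarith
  have h9 : C * (G + qf (tf W t) v) ≤ C * ((2 * K + 3) * (G + Y)) := mul_le_mul_of_nonneg_left h8 hC
  nlinarith [mul_nonneg hC h3, mul_nonneg hC h4, mul_nonneg (mul_nonneg hC hK0) h3, mul_nonneg (mul_nonneg hC hK0) h4,
    mul_nonneg hK0 h3, mul_nonneg hK0 h4, mul_nonneg hC h6, mul_nonneg (mul_nonneg hC hK0) h6, mul_nonneg hK0 h6]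

/-! ### pairs -/

/-- the constant of neighbouring cells -/
def Cnb (q : ℕ) (K : ℝ) : ℝ := nn (q + 1) 1 * (Pool.Agent.Helper3.LF.Cu 1 * Pool.Agent.Helper3.LF.Cm (q + 1) 1 * K ^ 1) ^ 2

theorem dot_le {A : Matrix (Mon (q + 1) 1) (Mon (q + 1) 1) ℝ} {n v : Mon (q + 1) 1 → ℝ} {μ R B : ℝ} (hR : 0 < R)
    (hμ : R ≤ μ) (h : μ * (n ⬝ᵥ v) ^ 2 ≤ qf A v) (hB : qf A v ≤ B) : (n ⬝ᵥ v) ^ 2 ≤ B / R := by
  rw [le_div_iff₀ hR]
  have h1 : (n ⬝ᵥ v) ^ 2 * R ≤ (n ⬝ᵥ v) ^ 2 * μ := mul_le_mul_of_nonneg_left hμ (sq_nonneg _)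
  linarith

theorem sub_sq_le {n n' v : Mon (q + 1) 1 → ℝ} {ε δ : ℝ} (hε : ε = 1 ∨ ε = -1) (h : (n ⬝ᵥ v) ^ 2 ≤ δ)
    (h' : (n' ⬝ᵥ v) ^ 2 ≤ δ) : ((n - ε • n') ⬝ᵥ v) ^ 2 ≤ 4 * δ := by
  rw [sub_dotProduct, smul_dotProduct, smul_eq_mul]
  have e1 : (ε * (n' ⬝ᵥ v)) ^ 2 = (n' ⬝ᵥ v) ^ 2 := by
    rcases hε with rfl | rfl <;> ring
  nlinarith [sq_nonneg (n ⬝ᵥ v + ε * (n' ⬝ᵥ v))]

/-- values and velocities on a line nearby -/
theorem near_line {X : Matrix (Mon (q + 1) 1) (Mon (q + 1) 1) ℝ} (hX : PdM X) {r d B Kt : ℝ} (hr : 0 < r) (hd : 0 < d)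
    (hKt : 0 ≤ Kt) {a x a' x' : Fin q → ℝ} (ha : ∀ i, |a i - a' i| ≤ r) (hx : ∀ i, |x i - x' i| ≤ r) {t t' : ℝ}
    (ht : |t - t'| ≤ d) (htK : |t| + d ≤ Kt)
    (hB : ∀ u, |u - t'| ≤ 4 * d → phi r X (pl a' x' u) ≤ B) :
    qf X (vv (pl a x t)) ≤ Cnb q (Kt + 2) * B ∧
      qf X (gv (Fin.cons 1 x : Fin (q + 1) → ℝ)) ≤ 4 * (Cnb q (Kt + 2) * B) * (d⁻¹) ^ 2 := by
  have h0 : ∀ v, 0 ≤ qf X v := fun v => hX.nonneg v
  have key : ∀ u, |u - t| ≤ d → phi r X (pl a x u) ≤ Cnb q (Kt + 2) * B := by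
    intro u hu
    have hu2 : |u - t'| ≤ 4 * d := by
      have := abs_sub_le u t t'
      linarith
    have huK : |u| ≤ Kt := by
      have h1 := abs_sub_abs_le_abs_sub u t
      linarith
    have h1 := phi_comp X hX r r (Kt + 2) hr hr.le (by linarith) (pl a' x' u) (pl a x u) (by
      intro i
      refine Fin.cases ?_ (fun i => ?_) i
      · rw [pl_zero, pl_zero, sub_self, abs_zero, zero_add]
        exact le_mul_of_one_le_left hr.le (by linarith)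
      · rw [pl_succ, pl_succ]
        have e1 : a i + u * x i - (a' i + u * x' i) = (a i - a' i) + u * (x i - x' i) := by ring
        rw [e1]
        have h2 : |u * (x i - x' i)| ≤ Kt * r := by
          rw [abs_mul]
          exact mul_le_mul huK (hx i) (abs_nonneg _) hKt
        have h3 := abs_add_le (a i - a' i) (u * (x i - x' i))
        have h4 := ha i
        nlinarith)
    have h2 := hB u hu2
    have h3 : 0 ≤ Cnb q (Kt + 2) := by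
      unfold Cnb
      have := nn_one (q + 1) 1
      positivity
    exact h1.trans (mul_le_mul_of_nonneg_left h2 h3)
  have k0 := key t (by rw [sub_self, abs_zero]; exact hd.le)
  have k1 := key (t + d) (by rw [add_sub_cancel_left, abs_of_pos hd])
  have v0 := (Pool.Agent.Helper93.LIP.qf_vv_le h0 r (pl a x t)).trans k0
  have v1 := (Pool.Agent.Helper93.LIP.qf_vv_le h0 r (pl a x (t + d))).trans k1
  exact ⟨v0, Pool.Agent.Helper93.LIP.vel_le h0 a x t d _ hd v0 v1⟩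

/-- A-pairs -/
theorem pair_A {cp r d B Kt R τ : ℝ} (hr : 0 < r) (hd : 0 < d) (hKt : 0 ≤ Kt) (hR : 0 < R)
    {X X' g₀ : Matrix (Mon (q + 1) 1) (Mon (q + 1) 1) ℝ} (hX : PdM X) (hX' : PdM X') (h₀ : Cpd cp g₀)
    {a x a' x' : Fin q → ℝ} (ha : ∀ i, |a i - a' i| ≤ r) (hx : ∀ i, |x i - x' i| ≤ r) {t t' : ℝ}
    (ht : |t - t'| ≤ d) (htK : |t| + d ≤ Kt)
    (hb : ∀ u, |u - t| ≤ 4 * d → phi r X (pl a x u) ≤ B) (hb' : ∀ u, |u - t'| ≤ 4 * d → phi r X' (pl a' x' u) ≤ B)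
    (hb₀ : ∀ u, |u - t| ≤ 4 * d → phi r g₀ (pl a x u) ≤ B)
    {n n' : Mon (q + 1) 1 → ℝ} {μ μ' ε : ℝ} (hμ : R ≤ μ) (hμ' : R ≤ μ') (hn : ∀ v, μ * (n ⬝ᵥ v) ^ 2 ≤ qf X v)
    (hn' : ∀ v, μ' * (n' ⬝ᵥ v) ^ 2 ≤ qf X' v) (hε : ε = 1 ∨ ε = -1)
    (hM : ∀ u : Fin q → ℝ, ((n - ε • n') ⬝ᵥ gM u) ^ 2 ≤ τ ^ 2 * qf g₀ (gM u)) (v : Mon (q + 1) 1 → ℝ) :
    ((n - ε • n') ⬝ᵥ v) ^ 2 ≤ (48 * (Cnb q (Kt + 2) * B / R) + 108 * τ ^ 2 * (Cnb q (Kt + 2) * B)) *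
      (qf g₀ v + qf (tf d⁻¹ t) v) := by
  have h0 : ∀ v, 0 ≤ qf g₀ v := fun v => h₀.psd.2 v
  have hp₀ : PdM g₀ := Cpd.pdM h₀
  have e0 : ∀ i : Fin q, |a i - a i| ≤ r := fun i => by rw [sub_self, abs_zero]; exact hr.le
  have e0' : ∀ i : Fin q, |x i - x i| ≤ r := fun i => by rw [sub_self, abs_zero]; exact hr.le
  have e0'' : |t - t| ≤ d := by rw [sub_self, abs_zero]; exact hd.le
  obtain ⟨b1, b2⟩ := near_line hX hr hd hKt e0 e0' e0'' htK hb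
  obtain ⟨b3, b4⟩ := near_line hX' hr hd hKt ha hx ht htK hb'
  obtain ⟨b5, b6⟩ := near_line hp₀ hr hd hKt e0 e0' e0'' htK hb₀
  set C := Cnb q (Kt + 2) * B with hC
  have hC1 : 1 ≤ C := by
    have h1 := Pool.Agent.Helper93.LIP.qf_vv_le h0 r (pl a x t)
    have h2 := sq_zero_le h₀ (vv (pl a x t))
    have h3 : (vv (pl a x t) : Mon (q + 1) 1 → ℝ) (Mon.zero (q + 1) 1) = 1 := vv_zero _
    rw [h3] at h2
    linarith
  have d1 := sub_sq_le (v := vv (pl a x t)) hε (dot_le hR hμ (hn _) b1) (dot_le hR hμ' (hn' _) b3)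
  have d2 := sub_sq_le (v := gv (Fin.cons 1 x : Fin (q + 1) → ℝ)) hε (dot_le hR hμ (hn _) b2)
    (dot_le hR hμ' (hn' _) b4)
  have hCR : 0 ≤ C / R := by positivity
  refine (clo_A (W := d⁻¹) (t := t) (B := 4 * C) (δ := 16 * (C / R)) (τ := τ) (inv_pos.mpr hd) (by linarith) h₀ a x
    (d1.trans (by linarith)) (d2.trans (le_of_eq (by ring))) hM (b5.trans (by linarith)) b6 v).trans (le_of_eq ?_)
  ring

/-- B-pairs -/
theorem pair_B {cp r B R τ : ℝ} (hr : 0 < r) (hR : 0 < R)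
    {X X' g₀ : Matrix (Mon (q + 1) 1) (Mon (q + 1) 1) ℝ} (hX : PdM X) (hX' : PdM X') (h₀ : Cpd cp g₀)
    {p p' : Fin (q + 1) → ℝ} (hp : ∀ i, |p i - p' i| ≤ r)
    (hb : phi r X p ≤ B) (hb' : phi r X' p' ≤ B) (hb₀ : phi r g₀ p ≤ B)
    {n n' : Mon (q + 1) 1 → ℝ} {μ μ' ε : ℝ} (hμ : R ≤ μ) (hμ' : R ≤ μ') (hn : ∀ v, μ * (n ⬝ᵥ v) ^ 2 ≤ qf X v)
    (hn' : ∀ v, μ' * (n' ⬝ᵥ v) ^ 2 ≤ qf X' v) (hε : ε = 1 ∨ ε = -1)
    (hM : ∀ u : Fin (q + 1) → ℝ, ((n - ε • n') ⬝ᵥ gv u) ^ 2 ≤ τ ^ 2 * qf g₀ (gv u)) (v : Mon (q + 1) 1 → ℝ) :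
    ((n - ε • n') ⬝ᵥ v) ^ 2 ≤ (12 * (Cnb q 2 * B / R) + 27 * τ ^ 2 * (Cnb q 2 * B)) * qf g₀ v := by
  have h0 : ∀ v, 0 ≤ qf g₀ v := fun v => h₀.psd.2 v
  have hp₀ : PdM g₀ := Cpd.pdM h₀
  have hc : 0 ≤ Cnb q 2 := by
    unfold Cnb
    have := nn_one (q + 1) 1
    positivity
  have key : ∀ {Y : Matrix (Mon (q + 1) 1) (Mon (q + 1) 1) ℝ}, PdM Y → ∀ {z : Fin (q + 1) → ℝ},
      (∀ i, |p i - z i| ≤ r) → phi r Y z ≤ B → qf Y (vv p) ≤ Cnb q 2 * B := by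
    intro Y hY z hz hBz
    refine (Pool.Agent.Helper93.LIP.qf_vv_le (fun v => hY.nonneg v) r p).trans ?_
    have h1 := phi_comp Y hY r r 2 hr hr.le (by norm_num) z p (fun i => by linarith [hz i])
    exact h1.trans (mul_le_mul_of_nonneg_left hBz hc)
  have e0 : ∀ i, |p i - p i| ≤ r := fun i => by rw [sub_self, abs_zero]; exact hr.le
  have b1 := key hX e0 hb
  have b3 := key hX' hp hb'
  have b5 := key hp₀ e0 hb₀
  set C := Cnb q 2 * B with hC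
  have hC1 : 1 ≤ C := by
    have h2 := sq_zero_le h₀ (vv p)
    have h3 : (vv p : Mon (q + 1) 1 → ℝ) (Mon.zero (q + 1) 1) = 1 := vv_zero _
    rw [h3] at h2
    linarith
  have d1 := sub_sq_le (v := vv p) hε (dot_le hR hμ (hn _) b1) (dot_le hR hμ' (hn' _) b3)
  refine (clo_B (B := C) (δ := 4 * (C / R)) (τ := τ) hC1 h₀ p d1 hM b5 v).trans (le_of_eq ?_)
  ring

end

end Pool.Agent.Helper39.LIP
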