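import Pool.Agent.Helper48.LIP.U3

/-! LIP(A), the chain rule of (2.2): on an event of an extension of the space of the triples the information of the
label at the first point about the second point given the label there is at most the loss of entropy of the third
point, up to leaks. -/

set_option autoImplicit false

namespace Pool.Agent.Helper39.LIP

open Finset Filter Topology Matrix Pool.Agent.Helper69.RK Pool.Agent.Helper31.EC Pool.Agent.Helper40.EL
open Pool.Agent.Helper89.LX Pool.Agent.Helper3.LF Pool.Agent.Helper48.NS Pool.Agent.Helper48.LIP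

noncomputable section

/-- the abstract chain: `κ` the first label, `κ'` the second label, `T` everything at the second point, `a` the
condition of the window, `K` the coarse label, `P, t` the point and the height of the third point; all in the space of
the event -/
theorem chain_abs {L : Type*} [PM L] {κ κ' T a K P t : L} (hK : K ≤ κ') :
    I κ T κ' ≤ I κ T (κ' ⊔ (K ⊔ a)) + I κ t κ' + (h P (κ' ⊔ t) - h P (κ ⊔ κ' ⊔ t)) + I κ a (κ' ⊔ (P ⊔ t)) := by
  have h1 : I κ T κ' ≤ I κ ((K ⊔ a) ⊔ T) κ' := I_mono_right (le_sup_right.trans le_sup_left)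
  rw [I_chain_right] at h1
  have h2 : I κ (K ⊔ a) κ' ≤ I κ a κ' :=
    I_mono_right (sup_le (hK.trans le_sup_right) le_sup_left)
  have h3 : I κ a κ' ≤ I κ ((t ⊔ P) ⊔ a) κ' := I_mono_right (le_sup_right.trans le_sup_left)
  rw [I_chain_right, I_chain_right] at h3
  have e1 : I κ P (t ⊔ κ') = h P (κ' ⊔ t) - h P (κ ⊔ κ' ⊔ t) := by
    rw [I_eq', sup_comm t κ', sup_assoc]
  have e2 : I κ a (t ⊔ P ⊔ κ') = I κ a (κ' ⊔ (P ⊔ t)) := by
    rw [sup_comm t P, sup_comm (P ⊔ t) κ']
  have e3 : I κ T (K ⊔ a ⊔ κ') = I κ T (κ' ⊔ (K ⊔ a)) := by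
    rw [sup_comm (K ⊔ a) κ']
  rw [e1, e2] at h3
  rw [e3] at h1
  linarith

section fin

variable {F : FSp} (l : FLab F) (K : Setoid l.T.Ω) (A : Setoid F.Ω)

/-- everything at the first point -/
def t1 : FL (fam3 l K A).sp := (fam3 l K A).p1.map (pam l K A).p1.top

/-- everything at the second point -/
def t2 : FL (fam3 l K A).sp := (fam3 l K A).p1.map (pam l K A).p2.top

/-- informations at the third point -/
abbrev m3 (x : FL F) : FL (fam3 l K A).sp := (fam3 l K A).p2.map (l.p.map x)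

theorem top_fc {T F : FSp} (p : FPj T F) : p.top = p.map (fc (⊥ : Setoid F.Ω)) := by
  rw [p.map_fc]
  rfl

/-- independence of the labels at two points given the common variable -/
theorem ind_t2 : I (k1 l K A) (t2 l K A) (yc l K A) = 0 := by
  have h1 := ind12 l K A l.v (fc (⊥ : Setoid l.T.Ω))
  rw [← top_fc] at h1
  exact h1

theorem ind_t1 : I (k2 l K A) (t1 l K A) (yc l K A) = 0 := by
  have h1 := ind12 l K A (fc (⊥ : Setoid l.T.Ω)) l.v
  rw [← top_fc, I_comm] at h1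
  exact h1

theorem k2_le_t2 : k2 l K A ≤ t2 l K A :=
  (fam3 l K A).p1.map_mono ((pam l K A).p2.map_le_top l.v)

theorem k1_le_t1 : k1 l K A ≤ t1 l K A :=
  (fam3 l K A).p1.map_mono ((pam l K A).p1.map_le_top l.v)

/-- the coarse label at the third point is a function of the labels at the other points -/
theorem K_le_k2 (hK : l.V ≤ K) : (fam3 l K A).p2.map (fc K) ≤ k2 l K A := by
  rw [← K_common2]
  exact (fam3 l K A).p1.map_mono ((pam l K A).p2.map_mono (fc_mono hK))

theorem K_le_k1 (hK : l.V ≤ K) : (fam3 l K A).p2.map (fc K) ≤ k1 l K A := by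
  rw [← K_common]
  exact (fam3 l K A).p1.map_mono ((pam l K A).p1.map_mono (fc_mono hK))

theorem k12_eq : k1 l K A ⊔ k2 l K A =
    (fam3 l K A).p1.map ((pam l K A).p1.map l.v ⊔ (pam l K A).p2.map l.v) := by
  rw [FPj.map_sup]
  rfl

/-- the height of the third point is almost independent of the labels -/
theorem ind_ht (hK : l.V ≤ K) (t : FL F) : I (k1 l K A) (m3 l K A t) (k2 l K A) ≤
    I (l.p.map t) (l.p.map (fc A)) (fc K) := by
  set κ1 := k1 l K A with hκ1
  set κ2 := k2 l K A with hκ2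
  set T := m3 l K A t with hT
  set y := yc l K A with hy
  have i0 : I (κ1 ⊔ κ2) T y = 0 := by
    rw [k12_eq]
    exact ind3 l K A _ _
  have i1 : I κ1 T (κ2 ⊔ y) = 0 := by
    rw [sup_comm κ1 κ2, I_chain] at i0
    have a := I_nonneg κ2 T y
    have b := I_nonneg κ1 T (κ2 ⊔ y)
    linarith
  have i2 : I κ2 T y = 0 := by
    rw [sup_comm κ1 κ2, I_chain] at i0
    have a := I_nonneg κ2 T y
    have b := I_nonneg κ1 T (κ2 ⊔ y)
    linarith
  have a1 : I κ1 T κ2 ≤ I (y ⊔ κ1) T κ2 := I_mono_left (le_sup_right.trans le_sup_left)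
  rw [I_chain, sup_comm y κ2, i1, add_zero] at a1
  refine a1.trans ?_
  rw [I_eq']
  have a2 : h T (y ⊔ κ2) = h T y := by
    rw [sup_comm]
    exact I_zero_iff_h'.mp i2
  rw [a2]
  have a3 : h T κ2 ≤ h T ((fam3 l K A).p2.map (fc K)) := h_anti (K_le_k2 l K A hK)
  have a4 : y = (fam3 l K A).p2.map (fc K) ⊔ m3 l K A (fc A) := FPj.map_sup _ _ _
  have a5 : I (l.p.map t) (l.p.map (fc A)) (fc K) =
      h T ((fam3 l K A).p2.map (fc K)) - h T ((fam3 l K A).p2.map (fc K) ⊔ m3 l K A (fc A)) := by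
    rw [← (fam3 l K A).p2.I_map, I_eq, sup_comm ((fam3 l K A).p2.map (l.p.map (fc A)))]
  rw [a5, ← a4]
  linarith

theorem ind_ht' (hK : l.V ≤ K) (t : FL F) : I (k2 l K A) (m3 l K A t) (k1 l K A) ≤
    I (l.p.map t) (l.p.map (fc A)) (fc K) := by
  set κ1 := k1 l K A with hκ1
  set κ2 := k2 l K A with hκ2
  set T := m3 l K A t with hT
  set y := yc l K A with hy
  have i0 : I (κ1 ⊔ κ2) T y = 0 := by
    rw [k12_eq]
    exact ind3 l K A _ _
  have i1 : I κ2 T (κ1 ⊔ y) = 0 := by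
    rw [I_chain] at i0
    have a := I_nonneg κ1 T y
    have b := I_nonneg κ2 T (κ1 ⊔ y)
    linarith
  have i2 : I κ1 T y = 0 := by
    rw [I_chain] at i0
    have a := I_nonneg κ1 T y
    have b := I_nonneg κ2 T (κ1 ⊔ y)
    linarith
  have a1 : I κ2 T κ1 ≤ I (y ⊔ κ2) T κ1 := I_mono_left (le_sup_right.trans le_sup_left)
  rw [I_chain, sup_comm y κ1, i1, add_zero] at a1
  refine a1.trans ?_
  rw [I_eq']
  have a2 : h T (y ⊔ κ1) = h T y := by
    rw [sup_comm]
    exact I_zero_iff_h'.mp i2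
  rw [a2]
  have a3 : h T κ1 ≤ h T ((fam3 l K A).p2.map (fc K)) := h_anti (K_le_k1 l K A hK)
  have a4 : y = (fam3 l K A).p2.map (fc K) ⊔ m3 l K A (fc A) := FPj.map_sup _ _ _
  have a5 : I (l.p.map t) (l.p.map (fc A)) (fc K) =
      h T ((fam3 l K A).p2.map (fc K)) - h T ((fam3 l K A).p2.map (fc K) ⊔ m3 l K A (fc A)) := by
    rw [← (fam3 l K A).p2.I_map, I_eq, sup_comm ((fam3 l K A).p2.map (l.p.map (fc A)))]
  rw [a5, ← a4]
  linarith

/-- the leak of the pair at the third point bounds the informations given the point -/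
theorem leak_a (P t : FL F) : I (k1 l K A) (m3 l K A (fc A)) (k2 l K A ⊔ (m3 l K A P ⊔ m3 l K A t)) ≤
    (lab3 l K A).leak (P ⊔ t) := by
  rw [lab3_leak]
  have e1 : (fam3 l K A).p2.map (l.p.map (P ⊔ t)) = m3 l K A P ⊔ m3 l K A t := by
    rw [FPj.map_sup, FPj.map_sup]
  rw [e1]
  have h1 : I (k1 l K A) (m3 l K A (fc A)) (k2 l K A ⊔ (m3 l K A P ⊔ m3 l K A t)) ≤
      I (k2 l K A ⊔ k1 l K A) (m3 l K A (fc A)) (m3 l K A P ⊔ m3 l K A t) := by
    rw [I_chain (k2 l K A) (k1 l K A)]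
    have := I_nonneg (k2 l K A) (m3 l K A (fc A)) (m3 l K A P ⊔ m3 l K A t)
    linarith
  refine h1.trans ?_
  rw [sup_comm (k2 l K A)]
  exact I_mono_right (le_trans ((fam3 l K A).p2.map_mono (l.p.map_le_top _)) le_sup_left)

theorem leak_a' (P t : FL F) : I (k2 l K A) (m3 l K A (fc A)) (k1 l K A ⊔ (m3 l K A P ⊔ m3 l K A t)) ≤
    (lab3 l K A).leak (P ⊔ t) := by
  rw [lab3_leak]
  have e1 : (fam3 l K A).p2.map (l.p.map (P ⊔ t)) = m3 l K A P ⊔ m3 l K A t := by
    rw [FPj.map_sup, FPj.map_sup]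
  rw [e1]
  have h1 : I (k2 l K A) (m3 l K A (fc A)) (k1 l K A ⊔ (m3 l K A P ⊔ m3 l K A t)) ≤
      I (k1 l K A ⊔ k2 l K A) (m3 l K A (fc A)) (m3 l K A P ⊔ m3 l K A t) := by
    rw [I_chain (k1 l K A) (k2 l K A)]
    have := I_nonneg (k1 l K A) (m3 l K A (fc A)) (m3 l K A P ⊔ m3 l K A t)
    linarith
  refine h1.trans ?_
  exact I_mono_right (le_trans ((fam3 l K A).p2.map_mono (l.p.map_le_top _)) le_sup_left)

variable {T : FSp} (r : FPj T (fam3 l K A).sp) (E : T.Ω → Prop)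

/-- an information of the space of the triples on the event -/
abbrev oe (x : FL (fam3 l K A).sp) : FL (T.rest E) := T.rmap E (r.map x)

theorem oe_sup (x y : FL (fam3 l K A).sp) : oe l K A r E (x ⊔ y) = oe l K A r E x ⊔ oe l K A r E y := by
  unfold oe
  rw [FPj.map_sup, FSp.rmap_sup]

theorem oe_mono {x y : FL (fam3 l K A).sp} (hxy : x ≤ y) : oe l K A r E x ≤ oe l K A r E y :=
  T.rmap_mono E (r.map_mono hxy)

theorem oe_I (x y z : FL (fam3 l K A).sp) (hE : 0 < T.pb E) :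
    I (oe l K A r E x) (oe l K A r E y) (oe l K A r E z) ≤ (I x y z + 1) / T.pb E := by
  rw [le_div_iff₀ hE, mul_comm]
  have h1 := T.rmap_I_le E (r.map x) (r.map y) (r.map z)
  rw [r.I_map] at h1
  exact h1

/-- (2.2), finite level -/
theorem drop_fin (hK : l.V ≤ K) (hE : 0 < T.pb E) (P t : FL F) :
    I (oe l K A r E (k1 l K A)) (oe l K A r E (t2 l K A)) (oe l K A r E (k2 l K A)) ≤
      (h (oe l K A r E (m3 l K A P)) (oe l K A r E (k2 l K A) ⊔ oe l K A r E (m3 l K A t)) -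
        h (oe l K A r E (m3 l K A P)) (oe l K A r E (lab3 l K A).v ⊔ oe l K A r E (m3 l K A t))) +
      (I (l.p.map t) (l.p.map (fc A)) (fc K) + (lab3 l K A).leak (P ⊔ t) + 3) / T.pb E := by
  have h0 := chain_abs (κ := oe l K A r E (k1 l K A)) (κ' := oe l K A r E (k2 l K A))
    (T := oe l K A r E (t2 l K A)) (a := oe l K A r E (m3 l K A (fc A)))
    (K := oe l K A r E ((fam3 l K A).p2.map (fc K))) (P := oe l K A r E (m3 l K A P))
    (t := oe l K A r E (m3 l K A t)) (oe_mono l K A r E (K_le_k2 l K A hK))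
  have e1 : oe l K A r E ((fam3 l K A).p2.map (fc K)) ⊔ oe l K A r E (m3 l K A (fc A)) =
      oe l K A r E (yc l K A) := by
    rw [← oe_sup]
    congr 1
  rw [e1] at h0
  have h1 := oe_I l K A r E (k1 l K A) (t2 l K A) (k2 l K A ⊔ yc l K A) hE
  have h2 : I (k1 l K A) (t2 l K A) (k2 l K A ⊔ yc l K A) = 0 := by
    have h3 := ind_t2 l K A
    have h4 : I (k1 l K A) (k2 l K A ⊔ t2 l K A) (yc l K A) = 0 := by
      rw [sup_eq_right.mpr (k2_le_t2 l K A)]
      exact h3
    exact (I_decomp h4).2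
  rw [h2, oe_sup] at h1
  have h3 := oe_I l K A r E (k1 l K A) (m3 l K A t) (k2 l K A) hE
  have h4 := ind_ht l K A hK t
  have h5 := oe_I l K A r E (k1 l K A) (m3 l K A (fc A)) (k2 l K A ⊔ (m3 l K A P ⊔ m3 l K A t)) hE
  have h6 := leak_a l K A P t
  rw [oe_sup, oe_sup] at h5
  have e2 : oe l K A r E (k1 l K A) ⊔ oe l K A r E (k2 l K A) = oe l K A r E (lab3 l K A).v := by
    rw [lab3_v, oe_sup]
  rw [e2] at h0
  have h7 : (I (l.p.map t) (l.p.map (fc A)) (fc K) + (lab3 l K A).leak (P ⊔ t) + 3) / T.pb E =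
      (0 + 1) / T.pb E + (I (l.p.map t) (l.p.map (fc A)) (fc K) + 1) / T.pb E +
        ((lab3 l K A).leak (P ⊔ t) + 1) / T.pb E := by
    rw [← add_div, ← add_div]
    congr 1
    ring
  rw [h7]
  have h8 := div_le_div_of_nonneg_right (add_le_add_left h4 1) hE.le
  have h9 := div_le_div_of_nonneg_right (add_le_add_left h6 1) hE.le
  linarith

/-- (2.2), finite level, the two labels exchanged -/
theorem drop_fin' (hK : l.V ≤ K) (hE : 0 < T.pb E) (P t : FL F) :
    I (oe l K A r E (k2 l K A)) (oe l K A r E (t1 l K A)) (oe l K A r E (k1 l K A)) ≤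
      (h (oe l K A r E (m3 l K A P)) (oe l K A r E (k1 l K A) ⊔ oe l K A r E (m3 l K A t)) -
        h (oe l K A r E (m3 l K A P)) (oe l K A r E (lab3 l K A).v ⊔ oe l K A r E (m3 l K A t))) +
      (I (l.p.map t) (l.p.map (fc A)) (fc K) + (lab3 l K A).leak (P ⊔ t) + 3) / T.pb E := by
  have h0 := chain_abs (κ := oe l K A r E (k2 l K A)) (κ' := oe l K A r E (k1 l K A))
    (T := oe l K A r E (t1 l K A)) (a := oe l K A r E (m3 l K A (fc A)))
    (K := oe l K A r E ((fam3 l K A).p2.map (fc K))) (P := oe l K A r E (m3 l K A P))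
    (t := oe l K A r E (m3 l K A t)) (oe_mono l K A r E (K_le_k1 l K A hK))
  have e1 : oe l K A r E ((fam3 l K A).p2.map (fc K)) ⊔ oe l K A r E (m3 l K A (fc A)) =
      oe l K A r E (yc l K A) := by
    rw [← oe_sup]
    congr 1
  rw [e1] at h0
  have h1 := oe_I l K A r E (k2 l K A) (t1 l K A) (k1 l K A ⊔ yc l K A) hE
  have h2 : I (k2 l K A) (t1 l K A) (k1 l K A ⊔ yc l K A) = 0 := by
    have h3 := ind_t1 l K A
    have h4 : I (k2 l K A) (k1 l K A ⊔ t1 l K A) (yc l K A) = 0 := by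
      rw [sup_eq_right.mpr (k1_le_t1 l K A)]
      exact h3
    exact (I_decomp h4).2
  rw [h2, oe_sup] at h1
  have h3 := oe_I l K A r E (k2 l K A) (m3 l K A t) (k1 l K A) hE
  have h4 := ind_ht' l K A hK t
  have h5 := oe_I l K A r E (k2 l K A) (m3 l K A (fc A)) (k1 l K A ⊔ (m3 l K A P ⊔ m3 l K A t)) hE
  have h6 := leak_a' l K A P t
  rw [oe_sup, oe_sup] at h5
  have e2 : oe l K A r E (k2 l K A) ⊔ oe l K A r E (k1 l K A) = oe l K A r E (lab3 l K A).v := by
    rw [lab3_v, sup_comm, oe_sup]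
  rw [e2] at h0
  have h7 : (I (l.p.map t) (l.p.map (fc A)) (fc K) + (lab3 l K A).leak (P ⊔ t) + 3) / T.pb E =
      (0 + 1) / T.pb E + (I (l.p.map t) (l.p.map (fc A)) (fc K) + 1) / T.pb E +
        ((lab3 l K A).leak (P ⊔ t) + 1) / T.pb E := by
    rw [← add_div, ← add_div]
    congr 1
    ring
  rw [h7]
  have h8 := div_le_div_of_nonneg_right (add_le_add_left h4 1) hE.le
  have h9 := div_le_div_of_nonneg_right (add_le_add_left h6 1) hE.le
  linarith

end fin

end

end Pool.Agent.Helper39.LIP
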