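import Pool.Agent.Helper39.LIP.Aff
import Pool.Agent.Helper40.NSK.Gdi
import Pool.Agent.Helper48.LIP.Zvf
import Pool.Agent.Helper93.LIP.Line

/-! A linear form of full depth in a coordinate direction is a sheet. -/

set_option autoImplicit false

namespace Pool.Agent.Helper39.LIP

open Finset Filter Topology Matrix Pool.Agent.Helper69.RK Pool.Agent.Helper31.EC Pool.Agent.Helper40.EL
open Pool.Agent.Helper31.EC.Sp
open Pool.Agent.Helper89.LX Pool.Agent.Helper3.LF Pool.Agent.Helper48.NS Pool.Agent.Helper48.LIP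
open Pool.Agent.Helper40.NSK Pool.Agent.Helper42.NS Pool.Agent.Helper91.GR
open Pool.Agent.Helper95.LF (PdM)

noncomputable section

variable {m : ℕ}

theorem kap1_id : (kap1 (id : Fin m → Fin m) : Fin (m + 1) → Fin (m + 1)) = id := by
  funext i
  refine Fin.cases ?_ (fun i => ?_) i
  · rfl
  · rfl

theorem Jk_id (i : Fin m) : Jk (id : Fin m → Fin m) i = Finset.univ.erase i.succ := by
  unfold Jk
  rw [kap1_id, Finset.image_id]

theorem gM_single (i : Fin m) : (gM (Pi.single i 1) : Mon (m + 1) 1 → ℝ) = ev1 i.succ := by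
  unfold gM ev1
  congr 1
  funext j
  refine Fin.cases ?_ (fun j => ?_) j
  · rw [Fin.cons_zero, Pi.single_eq_of_ne (Fin.succ_ne_zero i).symm]
  · rw [Fin.cons_succ]
    by_cases h : j = i
    · subst h
      rw [Pi.single_eq_same, Pi.single_eq_same]
    · rw [Pi.single_eq_of_ne h, Pi.single_eq_of_ne (fun h' => h (Fin.succ_injective _ h'))]

theorem ev1_dd (i : Fin (m + 1)) (p : Fin (m + 1) → ℝ) : (ev1 i : Mon (m + 1) 1 → ℝ) = dd i p := by
  funext a
  unfold ev1 gv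
  rw [Finset.sum_eq_single i]
  · rw [Pi.single_eq_same, one_mul, dd_one i 0 p]
  · intro j _ hj
    rw [Pi.single_eq_of_ne hj, zero_mul]
  · intro h
    exact absurd (Finset.mem_univ _) h

/-- the derivative of a form of degree one -/
theorem Jf_single (r : ℝ) (A : Matrix (Mon (m + 1) 1) (Mon (m + 1) 1) ℝ) (p : Fin (m + 1) → ℝ) (i : Fin m) :
    (Pi.single i 1 : Fin m → ℝ) ⬝ᵥ (Jf r A p *ᵥ (Pi.single i 1 : Fin m → ℝ)) = 2 ^ (m + 1) * qf A (ev1 i.succ) := by
  rw [Jf_qf, Finset.sum_congr rfl fun j _ => by rw [Wd_gM, gM_single], Finset.sum_const, Finset.card_univ,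
    Fintype.card_fun, Fintype.card_fin, Fintype.card_fin, nsmul_eq_mul]
  push_cast
  rfl

/-- **A linear form of full depth in the direction `i` is a sheet** -/
theorem HH_of_HfE {S : Sp} {s : Sys S m} (i : Fin m) {c : ℝ} (h : HfE s 1 (Pi.single i 1) c 1) :
    HH (SJ i (Finset.univ.erase i.succ)) s c 1 := by
  obtain ⟨x, hx, hσ⟩ := h
  have h1 := HH_of_forms (s := s) (s' := s) (κ := id) Function.injective_id (fun _ _ _ => rfl) (fun _ _ _ => rfl)
    (fun _ _ => rfl) (c := c) (σ := 1) zero_le_one le_rfl (l := fun k => (x k).l) (Gau.Ad.dm (gau s 1) hx)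
    (fun k => (x k).g) (by filter_upwards [hx 1 one_pos] with k hk ω hω using (hk.2.2.1 ω hω).1.pdM)
    (fun k ω ω' a b c d => ((x k).meas ω ω' a b c d).1) i (fun e he => ?_)
  · rw [Jk_id] at h1
    exact h1
  -- typical estimates
  have hC : S.Sub (fun _ => (Cm (m + 1) 1 ^ 2 + 2 ^ (m + 1) : ℝ)) := S.Sub_const (by positivity)
  rw [Metric.tendsto_nhds]
  intro ε hε
  set η : ℝ := min (e / 10) (ε / 4) with hη
  have hη0 : 0 < η := lt_min (by linarith) (by linarith)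
  have hη1 : η ≤ e / 10 := min_le_left _ _
  have hη2 : η ≤ ε / 4 := min_le_right _ _
  filter_upwards [hx η hη0, (hσ η hη0).eventually (gt_mem_nhds hη0), hC.eventually_le (show 0 < e / 10 by linarith)]
    with k k1 k2 k3
  have hn := (S.F k).pos
  have hP0 := FSp.pb_nonneg (x k).l.T (fun ω =>
      ¬ (qf ((x k).g ω) (vv (ptf s k ((x k).l.p.π ω))) ≤ 2 ^ (e * (S.F k).n) ∧
        2 ^ (2 * (1 - e) * (S.F k).n) ≤ qf ((x k).g ω) (ev1 i.succ) ∧
        ∀ j, qf ((x k).g ω) (ev1 j) ≤ 2 ^ (e * (S.F k).n) * qf ((x k).g ω) (ev1 i.succ)))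
  rw [Real.dist_eq, sub_zero, abs_of_nonneg hP0]
  refine lt_of_le_of_lt (le_trans (FSp.pb_mono _ ?_) ((pb_or _ (fun ω => ¬ sph s 1 k ((x k).l.p.π ω) ((x k).g ω) ≤
    2 ^ (η * (S.F k).n)) (fun ω => ¬ 2 ^ (2 * (1 - η) * (S.F k).n) ≤ (Pi.single i 1 : Fin m → ℝ) ⬝ᵥ
      (Jf (S.dl 1 k) ((x k).g ω) (ptf s k ((x k).l.p.π ω)) *ᵥ (Pi.single i 1 : Fin m → ℝ)))).trans
    (add_le_add k1.2.2.2.1 k2.le))) (by linarith)
  intro ω hω hbad
  by_contra hno
  push Not at hno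
  obtain ⟨a1, a2⟩ := hno
  apply hbad
  have hA : PdM ((x k).g ω) := (k1.2.2.1 ω hω).1.pdM
  rw [Jf_single] at a2
  have a1' : phi (S.dl 1 k) ((x k).g ω) (ptf s k ((x k).l.p.π ω)) ≤ 2 ^ (η * (S.F k).n) := a1
  have c1 : (Cm (m + 1) 1 ^ 2 : ℝ) ≤ 2 ^ (e / 10 * (S.F k).n) := by
    have : (0 : ℝ) ≤ 2 ^ (m + 1) := by positivity
    linarith
  have c2 : (2 ^ (m + 1) : ℝ) ≤ 2 ^ (e / 10 * (S.F k).n) := by
    have : (0 : ℝ) ≤ Cm (m + 1) 1 ^ 2 := by positivity
    linarith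
  -- the lower bound
  have q0 : 0 ≤ qf ((x k).g ω) (ev1 i.succ) := hA.nonneg _
  have lo : 2 ^ ((2 - 3 * (e / 10)) * (S.F k).n) ≤ qf ((x k).g ω) (ev1 i.succ) := by
    have e1 : (2 : ℝ) ^ (2 * (1 - η) * (S.F k).n) ≤ 2 ^ (e / 10 * (S.F k).n) * qf ((x k).g ω) (ev1 i.succ) :=
      a2.trans (mul_le_mul_of_nonneg_right c2 q0)
    have e2 : (2 : ℝ) ^ ((2 - 3 * (e / 10)) * (S.F k).n) * 2 ^ (e / 10 * (S.F k).n) ≤ 2 ^ (2 * (1 - η) * (S.F k).n) := by
      rw [← Real.rpow_add (by norm_num)]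
      apply Real.rpow_le_rpow_of_exponent_le (by norm_num)
      nlinarith
    have e3 : (0 : ℝ) < 2 ^ (e / 10 * (S.F k).n) := by positivity
    have e4 := e2.trans e1
    rw [mul_comm (2 ^ (e / 10 * (S.F k).n)) (qf _ _)] at e4
    exact le_of_mul_le_mul_right e4 e3
  refine ⟨?_, ?_, ?_⟩
  · refine (Pool.Agent.Helper93.LIP.qf_vv_le (fun v => hA.nonneg v) (S.dl 1 k) _).trans (a1'.trans ?_)
    apply Real.rpow_le_rpow_of_exponent_le (by norm_num)
    nlinarith
  · refine le_trans ?_ lo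
    apply Real.rpow_le_rpow_of_exponent_le (by norm_num)
    nlinarith
  · intro j
    have hd : 0 < S.dl 1 k := S.dl_pos 1 k
    have g1 := grad_le hA (S.dl 1 k) 1 hd le_rfl (ptf s k ((x k).l.p.π ω)) (ptf s k ((x k).l.p.π ω))
      (fun i => by rw [sub_self, abs_zero]; linarith) j
    rw [one_pow, mul_one, ← ev1_dd] at g1
    have g2 : S.dl 1 k ^ 2 = 2 ^ (-(2 * (S.F k).n)) := by
      unfold Sp.dl
      rw [← Real.rpow_natCast, ← Real.rpow_mul (by norm_num)]
      congr 1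
      push_cast
      ring
    have g3 : qf ((x k).g ω) (ev1 j) ≤ 2 ^ (2 * (S.F k).n) * (2 ^ (e / 10 * (S.F k).n) * 2 ^ (η * (S.F k).n)) := by
      have e1 : qf ((x k).g ω) (ev1 j) = 2 ^ (2 * (S.F k).n) * (S.dl 1 k ^ 2 * qf ((x k).g ω) (ev1 j)) := by
        rw [g2, ← mul_assoc, ← Real.rpow_add (by norm_num), add_neg_cancel, Real.rpow_zero, one_mul]
      rw [e1]
      apply mul_le_mul_of_nonneg_left _ (by positivity)
      refine g1.trans ?_
      exact mul_le_mul c1 a1' (phi_nonneg _ (fun y => hA.nonneg y) _) (by positivity)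
    refine g3.trans (le_trans ?_ (mul_le_mul_of_nonneg_left lo (by positivity)))
    rw [← Real.rpow_add (by norm_num), ← Real.rpow_add (by norm_num), ← Real.rpow_add (by norm_num)]
    apply Real.rpow_le_rpow_of_exponent_le (by norm_num)
    nlinarith

end

end Pool.Agent.Helper39.LIP
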