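import Pool.Agent.Helper39.LIP.Top2
import Pool.Agent.Helper39.LIP.Hfe
import Pool.Agent.Helper42.NS.Np1
import Pool.Agent.Helper3.UF.Xo
import Pool.Agent.Helper91.GR.Ltp

/-! LIP(A), final assembly: the depth of the sheets is Lipschitz at the first window with a sheet of full depth. -/

set_option autoImplicit false

namespace Pool.Agent.Helper39.LIP

open Finset Filter Topology Matrix Pool.Agent.Helper69.RK Pool.Agent.Helper31.EC Pool.Agent.Helper40.EL
open Pool.Agent.Helper31.EC.Sp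
open Pool.Agent.Helper89.LX Pool.Agent.Helper3.LF Pool.Agent.Helper48.NS Pool.Agent.Helper48.LIP
open Pool.Agent.Helper3.PR Pool.Agent.Helper3.SG Pool.Agent.Helper51.LD2 Pool.Agent.Helper42.NS
open Pool.Agent.Helper40.NSK Pool.Agent.Helper91.GR
open Pool.Agent.Helper95.LF (PdM)
open Pool.Agent.Helper80.MX (Rich)
open Pool.Agent.Helper59.EV (ST)
open Pool.Agent.Helper52.SL (Vp valN robV_of_nat lvolP_rob' valN_le)

noncomputable section

/-! ### limits -/

/-- a linear form of full depth, from forms of almost full depth -/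
theorem HfE_one_of {S : Sp} {m D : ℕ} {s : Sys S m} {e : Fin m → ℝ} {c : ℝ}
    (h : ∀ σ : ℝ, σ < 1 → HfE s D e c σ) : HfE s D e c 1 := by
  rw [HfE_iff_HH]
  refine HH_closed s (fun _ => c) c tendsto_const_nhds (fun j : ℕ => 1 - 1 / ((j : ℝ) + 1)) 1 ?_ fun j => ?_
  · have := tendsto_one_div_add_atTop_nhds_zero_nat (𝕜 := ℝ)
    simpa using (tendsto_const_nhds (x := (1 : ℝ))).sub this
  · have : (0 : ℝ) < 1 / ((j : ℝ) + 1) := by positivity
    exact HfE_iff_HH.mp (h _ (by linarith))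

/-- the derivative in the direction of a coordinate -/
theorem Hz_of_HfE {S : Sp} {m D : ℕ} {s : Sys S m} {i : Fin m} {c : ℝ} (h : HfE s D (Pi.single i 1) c 1)
    {x : ∀ k, FD (S.F k) (Mon (m + 1) D)} (hx : (gau s D).Opt (cA s c) (cB s) x) : Hz s i x := by
  intro e he
  refine (HfE_opt h hx e he).congr fun k => ?_
  congr 1
  funext ω
  have h1 : gE s D (Pi.single i 1) k ((x k).l.p.π ω) ((x k).g ω) =
      gami i.succ (S.dl 1 k) ((x k).g ω) (ptf s k ((x k).l.p.π ω)) := by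
    unfold gE
    rw [single_dotProduct, Matrix.mulVec_single_one, one_mul]
    exact Jf_apply (S.dl 1 k) ((x k).g ω) (ptf s k ((x k).l.p.π ω)) i i
  rw [h1]

/-! ### the projection which forgets one coordinate -/

section
variable {S : Sp} (s : Sys S 3) (z : Fin 3)

theorem crd_prI : Crd s (prI s z) z.succAbove :=
  Crd.prB (B := selM z) (κ := z.succAbove) (fun _ _ => rfl) s

theorem delC_prI : DelC s (prI s z) z where
  t := rfl
  P := by
    intro k ω j
    have h1 : ∀ f : Fin 3 → ℝ, ∑ l, selM z j l * f l = f (z.succAbove j) := by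
      intro f
      show ∑ l, (if z.succAbove j = l then (1 : ℝ) else 0) * f l = _
      simp
    show (∑ l, selM z j l * s.a.v k ω l) + s.t.v k ω 0 * (∑ l, selM z j l * s.x.v k ω l) = _
    rw [h1, h1]
    rfl

theorem nr_prI : Pool.Agent.Helper42.NS.Nr s (prI s z) := Nr.prB s (selM z)

theorem fac_prI : Fac s (prI s z) := Fac.pr s _ _ _ _

end

/-! ### the row S34 -/

/-- **SEC34**: the window `c₀` has linear forms of almost full depth in the direction `i` if the top conormals of the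
copies of the point are not close and their velocities are separated -/
def S34P (D : ℕ) : Prop := ∃ K q₁ : ℝ, 1 ≤ K ∧ 0 < q₁ ∧ ∀ {S : Sp} (s : Sys S 3) (s' : Sys S 2) (i : Fin 3),
  Crd s s' i.succAbove → DelC s s' i → Pool.Agent.Helper42.NS.Nr s s' → Fac s s' → ST 1 2 → RobH s →
  RobustG (fun j : Fin 3 => GDe 3 1 (Pi.single j 1)) s → ∀ {g : ℝ}, 0 < g → Rich s g →
  ∀ {c₀ c : ℝ}, 0 ≤ c → c < c₀ → c₀ < 1 → RobV s s' 1 c →
  ∀ {x : ∀ k, FD (S.F k) (Mon (2 + 1 + 1) D)}, IsCan s D c₀ x → ZG s i x 2 → Hz s i x →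
  ∀ {x' : ∀ k, FD (S.F k) (Mon (2 + 1) 1)}, IsCanP s s' 1 c x' → ∀ (O : XO s s' x x' c) {θ ν : ℝ},
  0 < ν → K * ν ≤ θ → θ ≤ 1 → K * (c₀ - c) ≤ ν → K * ν ≤ 1 - c₀ →
  (∀ᶠ k in UF, (O.X k).l.T.pb (fun ω => ¬ O.Lg θ k ω) ≤ q₁) →
  ul (fun k => (FAm.self (O.X k).l.T (YBs O k)).sp.pb (CEv O ν k)) ≤ q₁ →
  ul (fun k => (FAm.self (O.X k).l.T (YSs O k)).sp.pb (SEv O ν k)) ≤ q₁ →
  ∀ e : ℝ, 0 < e → HfE s 1 (Pi.single i 1) c₀ (1 - K * ν - e)

/-- **NOT LIPSCHITZ implies LINEAR** -/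
theorem lin_of_not_lip {D : ℕ} (hD : 1 ≤ D) (hS34 : S34P D) (hst : ST 1 2) {S : Sp} (s : Sys S 3) (i : Fin 3)
    (hR : RobH s) (hR1 : RobustG (fun j : Fin 3 => GDe 3 1 (Pi.single j 1)) s) (hV : ∀ c, RobV s (prI s i) 1 c)
    {g : ℝ} (hg0 : 0 < g) (hg : Rich s g) {c₀ : ℝ} (h0 : 0 < c₀) (h1 : c₀ < 1)
    (hz : HfE s D (Pi.single i 1) c₀ 1) (hH : Hf s D c₀ 1)
    (hno : ∀ C : ℝ, 0 < C → ∀ c1 : ℝ, c1 < c₀ → ∃ c, c1 < c ∧ c < c₀ ∧ C * (c₀ - c) < 1 - eta s D c) :
    HfE s 1 (Pi.single i 1) c₀ 1 := by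
  obtain ⟨K, q₁, hK, hq₁, hS⟩ := hS34
  obtain ⟨β₀, hβ₀, hcfg⟩ := top_cfg D hD
  apply HfE_one_of
  intro σ hσ
  have hc1 : 0 < 1 - c₀ := by linarith
  -- the parameters
  set β : ℝ := min 1 (β₀ * (1 - c₀)) with hβ
  have hβ0 : 0 < β := lt_min one_pos (mul_pos hβ₀ hc1)
  have hβ1 : β ≤ 1 := min_le_left _ _
  have hβ2 : β ≤ β₀ * (1 - c₀) := min_le_right _ _
  set v : ℝ := min (β / (8 * K)) (min ((1 - c₀) / (2 * K)) ((1 - σ) / (2 * K))) with hv
  have hK0 : 0 < K := by linarith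
  have hv0 : 0 < v := lt_min (by positivity) (lt_min (by positivity) (div_pos (by linarith) (by linarith)))
  have v1 : 8 * (K * v) ≤ β := by
    have : v ≤ β / (8 * K) := min_le_left _ _
    rw [le_div_iff₀ (by positivity)] at this
    linarith
  have v2 : 2 * (K * v) ≤ 1 - c₀ := by
    have : v ≤ (1 - c₀) / (2 * K) := (min_le_right _ _).trans (min_le_left _ _)
    rw [le_div_iff₀ (by positivity)] at this
    linarith
  have v3 : 2 * (K * v) ≤ 1 - σ := by
    have : v ≤ (1 - σ) / (2 * K) := (min_le_right _ _).trans (min_le_right _ _)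
    rw [le_div_iff₀ (by positivity)] at this
    linarith
  have v4 : v ≤ K * v := le_mul_of_one_le_left hv0.le hK
  obtain ⟨C, hC, hc⟩ := hcfg s (prI s i) i (crd_prI s i) (delC_prI s i) (nr_prI s i) (fac_prI s i) hst hR hg0 hg h0.le
    h1 hH hβ0 hβ2 hv0 (by linarith) (by linarith) (q₀ := q₁ / 9) (by linarith)
  obtain ⟨c, a1, a2, a3⟩ := hno (C + K / v) (by positivity) (c₀ / 2) (by linarith)
  have hc0 : 0 ≤ c := by linarith
  have hdel : 0 < c₀ - c := by linarith
  have hKv : 0 < K / v := by positivity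
  set eps : ℝ := 1 - eta s D c with heps
  have heps1 : eps ≤ 1 := by
    have := eta_nonneg (s := s) hD c
    rw [heps]
    linarith
  have b1 : C * (c₀ - c) ≤ eps := by
    have := mul_pos hKv hdel
    nlinarith
  have b2 : K * (c₀ - c) ≤ v * eps := by
    have e1 : K / v * (c₀ - c) ≤ eps := by
      have := mul_pos hC hdel
      nlinarith
    rw [div_mul_eq_mul_div, div_le_iff₀ hv0] at e1
    linarith
  have heps0 : 0 < eps := lt_of_lt_of_le (mul_pos hC hdel) b1
  -- the data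
  obtain ⟨x, hx, y, hy, hY⟩ := exists_xy s (prI s i) D 1 c₀
  have hHz := Hz_of_HfE hz hx.1
  have hZG := ZG_of_Hz hHz
  obtain ⟨x', hx'⟩ := exists_canP s (prI s i) 1 c
  obtain ⟨O⟩ := Pool.Agent.Helper3.UF.exists_XO (fac_prI s i) hst hc0 (a2.trans h1) x hx'.1.1 hx'.2
  obtain ⟨d1, d2, d3⟩ := hc hc0 a2 b1 (hV c) hx hZG hHz y hy hY hx' O
  have hve : v * eps ≤ v := mul_le_of_le_one_right hv0.le heps1
  have hfin := hS s (prI s i) i (crd_prI s i) (delC_prI s i) (nr_prI s i) (fac_prI s i) hst hR hR1 hg0 hg hc0 a2 h1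
    (hV c) hx hZG hHz hx' O (θ := β * eps) (ν := v * eps) (mul_pos hv0 heps0) (by
      have : K * (v * eps) = K * v * eps := by ring
      rw [this]
      exact mul_le_mul_of_nonneg_right (by linarith) heps0.le) (by nlinarith) b2 (by nlinarith)
    (by filter_upwards [d1] with k hk using hk.trans (by linarith)) (by linarith) (by linarith)
    ((1 - σ) / 2) (by linarith)
  rw [HfE_iff_HH] at hfin ⊢
  refine HH.mono s hfin le_rfl ?_
  have : K * (v * eps) ≤ K * v := mul_le_mul_of_nonneg_left hve hK0.le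
  linarith

/-! ### the selected systems -/

section
variable {G : ℕ → Gg 3} {Φ : ℕ → Fnl 3} {D : ℕ} {g : ℝ} {S : Sp} {s : Sys S 3}

/-- the values used for LIP: the volumes of the projections which forget one coordinate -/
def vI (z : Fin 3) : Vp 3 := Vp.vol (selM z) 1

/-- the list of gauges contains the gauges used for LIP -/
structure GLip (G : ℕ → Gg 3) : Prop where
  gd : ∀ D : ℕ, ∃ k, G k = GD 3 D
  sl : ∀ (z : Fin 3) (j : Fin 2), ∃ k, G k = SJ (z.succAbove j) {0, (z.succAbove (1 - j)).succ}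

/-- the list of functionals contains the functionals used for LIP -/
def PLip (Φ : ℕ → Fnl 3) : Prop := ∀ n : ℕ, ∃ k, Φ k = valN vI n

theorem robH_sel (hs : Sel4 G Φ D g s) (hG : GLip G) : RobH s := by
  intro D' T p E hE c σ
  obtain ⟨k, hk⟩ := hG.gd D'
  have h1 := hs.rob.g k T p E hE c σ
  rw [hk] at h1
  exact h1

theorem robV_sel (hs : Sel4 G Φ D g s) (hΦ : PLip Φ) (z : Fin 3) (c : ℝ) : RobV s (prI s z) 1 c := by
  have h1 : Pool.Agent.Helper52.SL.RobV vI s := robV_of_nat fun n => by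
    obtain ⟨k, hk⟩ := hΦ n
    rw [← hk]
    exact hs.rob.f k
  intro T p E hE
  exact (lvolP_rob' (h1 z c) p E hE).le

/-- **LIP(A)**: the depth of the sheets of degree `D` is Lipschitz at the first window with a sheet of full depth, if
the planks of this window are not of full depth -/
theorem lipA (hD : 1 ≤ D) (hS34 : S34P D) (hst : ST 1 2) (hG : GLip G) (hΦ : PLip Φ) (hs : Sel4 G Φ D g s) {z : Fin 3}
    (hz : ZDir s D z) (hlt : lamI s z (c0 s D) < 1) :
    ∃ C c1 : ℝ, 0 < C ∧ 0 ≤ c1 ∧ c1 < c0 s D ∧ ∀ c, c1 < c → c < c0 s D → 1 - eta s D c ≤ C * (c0 s D - c) := by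
  have h0 := Sel4.c0_pos hD hs
  have h1 : c0 s D < 1 := by
    refine lt_of_le_of_lt (lamP_ge_self (fac_prI s z) le_rfl h0.le (Sel4.c0_le_one hD s)) hlt
  have hz' : HfE s D (Pi.single z 1) (c0 s D) 1 := hz.resolve_left h1.ne
  by_contra hcon
  have hlin : HfE s 1 (Pi.single z 1) (c0 s D) 1 := by
    refine lin_of_not_lip hD hS34 hst s z (robH_sel hs hG) hs.robE1 (robV_sel hs hΦ z) hs.g0 hs.rich h0 h1 hz'
      (Sel4.Hf_c0 hD s) ?_
    intro C hC c1 hc1
    by_contra hno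
    push Not at hno
    refine hcon ⟨C, max c1 0, hC, le_max_right _ _, max_lt hc1 h0, fun c hc hc' => ?_⟩
    exact hno c (lt_of_le_of_lt (le_max_left _ _) hc) hc'
  obtain ⟨Cc, d', hCc, hd', hd'', hl⟩ := lip_sel hD hst hs (hG.sl z) (J := Finset.univ.erase z.succ)
    (Finset.notMem_erase _ _) (HH_of_HfE z hlin) hlt
  refine hcon ⟨Cc + 1, c0 s D - d', by linarith, by linarith, by linarith, fun c hc hc' => ?_⟩
  have h2 := (hl c ⟨hc, hc'⟩).2
  nlinarith

end

end

end Pool.Agent.Helper39.LIP
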