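import Pool.Agent.Helper39.LIP.Fin
import Pool.Agent.Helper83.NSA.St

/-! LIP(A) in the form used by the assembly of case A. -/

set_option autoImplicit false

namespace Pool.Agent.Helper39.LIP

open Finset Filter Topology Matrix Pool.Agent.Helper69.RK Pool.Agent.Helper31.EC Pool.Agent.Helper40.EL
open Pool.Agent.Helper31.EC.Sp Pool.Agent.Helper3.LF
open Pool.Agent.Helper42.NS Pool.Agent.Helper40.NSK Pool.Agent.Helper91.GR Pool.Agent.Helper83.NSA
open Pool.Agent.Helper59.EV (ST)
open Pool.Agent.Helper52.SL (valN valN_le)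

noncomputable section

/-- the gauges used for LIP -/
def gLip (k : ℕ) : Gg 3 :=
  if k % 2 = 0 then GD 3 (k / 2) else
    SJ ((Fin.ofNat 3 (k / 2 / 2)).succAbove (Fin.ofNat 2 (k / 2)))
      {0, ((Fin.ofNat 3 (k / 2 / 2)).succAbove (1 - Fin.ofNat 2 (k / 2))).succ}

theorem gLip_spec : GLip gLip where
  gd := by
    intro D
    refine ⟨2 * D, ?_⟩
    have h1 : 2 * D % 2 = 0 := by omega
    have h2 : 2 * D / 2 = D := by omega
    unfold gLip
    rw [if_pos h1, h2]
  sl := by
    intro z j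
    refine ⟨2 * (2 * z.val + j.val) + 1, ?_⟩
    have h1 : ¬ (2 * (2 * z.val + j.val) + 1) % 2 = 0 := by omega
    have h2 : (2 * (2 * z.val + j.val) + 1) / 2 = 2 * z.val + j.val := by omega
    have hj := j.isLt
    have hz := z.isLt
    have h3 : (2 * z.val + j.val) / 2 = z.val := by omega
    have e1 : Fin.ofNat 3 z.val = z := by
      ext
      exact Nat.mod_eq_of_lt hz
    have e2 : Fin.ofNat 2 (2 * z.val + j.val) = j := by
      ext
      show (2 * z.val + j.val) % 2 = j.val
      omega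
    unfold gLip
    rw [if_neg h1, h2, h3, e1, e2]

/-- **LIP(A)** -/
theorem st_lipa {D : ℕ} (hD : 1 ≤ D) (hS34 : S34P D) (hst : ST 1 2) : ST_LIPA D := by
  refine ⟨gLip, valN vI, 1, fun q S s => valN_le vI q S s, fun g S s hs i hz hlt _ => ?_⟩
  obtain ⟨C, c1, -, -, h1, h2⟩ := lipA hD hS34 hst gLip_spec (fun n => ⟨n, rfl⟩) hs hz hlt
  exact ⟨C, c0 s D - c1, by linarith, fun c a b => h2 c (by linarith) b⟩

end

end Pool.Agent.Helper39.LIP
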