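import Pool.Agent.Helper39.LIP.B24b
import Pool.Agent.Helper51.LIP.Dir2
import Pool.Agent.Helper51.LIP.K3

/-! LIP(A), the top conormals of the copies of the point are not close. -/

set_option autoImplicit false

namespace Pool.Agent.Helper39.LIP

open Finset Filter Topology Matrix Pool.Agent.Helper69.RK Pool.Agent.Helper31.EC Pool.Agent.Helper40.EL
open Pool.Agent.Helper31.EC.Sp
open Pool.Agent.Helper89.LX Pool.Agent.Helper3.LF Pool.Agent.Helper48.NS Pool.Agent.Helper48.LIP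
open Pool.Agent.Helper3.PR Pool.Agent.Helper3.SG Pool.Agent.Helper51.LD2
open Pool.Agent.Helper95.LF (PdM)
open Pool.Agent.Helper80.MX (Rich)

noncomputable section

/-- probabilities are bounded -/
theorem UB_pb (T : ℕ → FSp) (E : ∀ k, (T k).Ω → Prop) : UB (fun k => (T k).pb (E k)) := by
  refine ⟨1, Eventually.of_forall fun k => ?_⟩
  rw [abs_of_nonneg (FSp.pb_nonneg _ _)]
  exact FSp.pb_le_one _ _

variable {S : Sp} {s : Sys S 3} {s' : Sys S 2} {ι : Type}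
  {x : ∀ k, FD (S.F k) ι} {x' : ∀ k, FD (S.F k) (Mon (2 + 1) 1)} {c : ℝ}

/-- the copies of the space of `X` given the label of the third point and the point -/
def YBs (O : XO s s' x x' c) (k : ℕ) : Setoid (O.X k).l.T.Ω :=
  K3 O k ⊓ Setoid.comap (O.X k).l.p.π ((s.fin k).kP 1 ⊓ (s.fin k).kt 1)

/-- the event: the conormals are close -/
def CEv (O : XO s s' x x' c) (ν : ℝ) (k : ℕ) (w : (O.X k).l.T.Ω × (O.X k).l.T.Ω) : Prop :=
  Clo (O.g₀ k w.1) (2 ^ (-(ν * (S.F k).n))) (O.n k w.1) (O.n k w.2)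

/-- **THE CONORMALS OF THE COPIES OF THE POINT ARE NOT CLOSE** -/
theorem top_B (O : XO s s' x x' c) {i : Fin 3} (crd : Crd s s' i.succAbove) (fac : Fac s s') (h0 : 0 ≤ c) (h1 : c < 1)
    (hx' : IsCanP s s' 1 c x') (hV : RobV s s' 1 c) (hxB : Nul S (fun k => (x k).l.leak (cB s k)))
    {g : ℝ} (hg : Rich s g) (hg0 : 0 < g) {a b : ℝ} (ha : 0 ≤ a) (hz : Zve O i a b) {θ ν : ℝ} (hν : 0 < ν)
    (hν1 : ν ≤ 1) {lk : ℝ} (hl0 : 0 ≤ lk)
    (hlk : ∀ e : ℝ, 0 < e → ∀ᶠ k in UF, (LA O k).leak (cB s k) ≤ (lk + e) * (S.F k).n)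
    (r1 : 4 * ν + 2 * a ≤ θ) (r2 : ν + a ≤ b) {q₀ : ℝ}
    (hmu : ∀ᶠ k in UF, (O.X k).l.T.pb (fun ω => ¬ O.Lg θ k ω) ≤ q₀) :
    ul (fun k => (FAm.self (O.X k).l.T (YBs O k)).sp.pb (CEv O ν k)) ≤ lk / (g * ν) + 8 * q₀ := by
  have hgν : 0 < g * ν := mul_pos hg0 hν
  have hT := dir_M O fac i crd.x h0 h1 hx'.1 hg ha hz (θ := θ / 2) hν.le hl0 hlk hν.le hν1 (by linarith) (by linarith)
  have hT' : ul (fun k => (AmA O k).sp.pb (Tev O (θ / 2) ν k)) ≤ lk / (g * ν) := by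
    rw [le_div_iff₀ hgν]
    exact hT
  by_contra hcon
  push Not at hcon
  set P := ul (fun k => (FAm.self (O.X k).l.T (YBs O k)).sp.pb (CEv O ν k)) with hP
  set e : ℝ := (P - (lk / (g * ν) + 8 * q₀)) / 4 with he
  have he0 : 0 < e := by rw [he]; linarith
  have u1 := UB_pb (fun k => (FAm.self (O.X k).l.T (YBs O k)).sp) (CEv O ν)
  have u2 := UB_pb (fun k => (AmA O k).sp) (Tev O (θ / 2) ν)
  have hB : ∀ᶠ k in UF, P - e ≤ (FAm.self (O.X k).l.T (YBs O k)).sp.pb (CEv O ν k) := by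
    filter_upwards [eventually_gt_of_lt_ul u1 (show P - e < P by linarith)] with k hk using hk.le
  have hA0 := eventually_lt_of_ul_lt u2 (show ul (fun k => (AmA O k).sp.pb (Tev O (θ / 2) ν k)) < lk / (g * ν) + e by
    linarith)
  have hA : ∀ᶠ k in UF, 1 - (lk / (g * ν) + e + 2 * q₀) ≤ (FAm.self (O.X k).l.T (O.K k ⊓
      Setoid.comap (O.X k).l.p.π (cAs s c k))).sp.pb (fun w =>
      CloM (O.g₀ k w.1) (2 ^ (-(ν * (S.F k).n))) (O.n k w.1) (O.n k w.2)) := by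
    filter_upwards [hA0, hmu] with k k1 k2
    set DA := FAm.self (O.X k).l.T (O.K k ⊓ Setoid.comap (O.X k).l.p.π (cAs s c k)) with hDA
    have p1 := pb_pair DA (fun w => ¬ CloM (O.g₀ k w.1) (2 ^ (-(ν * (S.F k).n))) (O.n k w.1) (O.n k w.2))
      (Tev O (θ / 2) ν k) (O.Lg θ k) (by
        intro w hw hP' g1 g2
        have e2 : 2 * (θ / 2) * (S.F k).n = θ * (S.F k).n := by ring
        refine ⟨by rw [e2]; exact g1, by rw [e2]; exact g2, ?_⟩
        obtain ⟨m1, m2, hY, hZ⟩ := self_pair _ w hw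
        rw [← XO_g0 O k w.1 w.2 m1 m2 hY.1 hZ]
        exact hP')
    have p2 := DA.sp.pb_add_compl (fun w => CloM (O.g₀ k w.1) (2 ^ (-(ν * (S.F k).n))) (O.n k w.1) (O.n k w.2))
    have p3 : DA.sp.pb (Tev O (θ / 2) ν k) < lk / (g * ν) + e := k1
    linarith
  have hfin := O.b24 crd (by norm_num) hx' fac h0 h1 hV hν (show 2 * ν ≤ θ by linarith)
    (YA := fun k => O.K k ⊓ Setoid.comap (O.X k).l.p.π (cAs s c k)) (YB := YBs O) (LB := K3 O)
    (fun k => le_rfl) (fun k => le_rfl) (K3_le O) (L3_Nul O hxB hx'.2.1.2) (fun k => le_rfl) (fun k => le_rfl)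
    hmu hA hB
  linarith

end

end Pool.Agent.Helper39.LIP
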