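import Pool.Agent.Helper39.LIP.Top
import Pool.Agent.Helper42.NS.Bdg

/-! LIP(A), the choice of the parameters: on the windows `c` with `1 - eta(c) ≥ C (c₀ - c)` the conormals of the copies
of the point are not close and their velocities are separated. -/

set_option autoImplicit false

namespace Pool.Agent.Helper39.LIP

open Finset Filter Topology Matrix Pool.Agent.Helper69.RK Pool.Agent.Helper31.EC Pool.Agent.Helper40.EL
open Pool.Agent.Helper31.EC.Sp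
open Pool.Agent.Helper89.LX Pool.Agent.Helper3.LF Pool.Agent.Helper48.NS Pool.Agent.Helper48.LIP
open Pool.Agent.Helper3.PR Pool.Agent.Helper3.SG Pool.Agent.Helper51.LD2 Pool.Agent.Helper42.NS
open Pool.Agent.Helper95.LF (PdM)
open Pool.Agent.Helper80.MX (Rich)
open Pool.Agent.Helper59.EV (ST)

noncomputable section

variable {S : Sp} {s : Sys S 3} {s' : Sys S 2}

/-- the event: the velocities are close -/
def SEv {ι : Type} {x : ∀ k, FD (S.F k) ι} {x' : ∀ k, FD (S.F k) (Mon (2 + 1) 1)} {c : ℝ} (O : XO s s' x x' c) (ν : ℝ)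
    (k : ℕ) (w : (O.X k).l.T.Ω × (O.X k).l.T.Ω) : Prop :=
  ∀ i, |s.x.v k ((O.X k).l.p.π w.1) i - s.x.v k ((O.X k).l.p.π w.2) i| ≤ 2 ^ (-(ν * (S.F k).n))

/-- the copies of the space of `X` given the label of `X`, the label of the third point and the point -/
def YSs {ι : Type} {x : ∀ k, FD (S.F k) ι} {x' : ∀ k, FD (S.F k) (Mon (2 + 1) 1)} {c : ℝ} (O : XO s s' x x' c)
    (k : ℕ) : Setoid (O.X k).l.T.Ω :=
  ((O.X k).l.V ⊓ K3 O k) ⊓ Setoid.comap (O.X k).l.p.π ((s.fin k).kP 1 ⊓ (s.fin k).kt 1)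

/-- the leak of the label of `X` -/
theorem X_leakB {ι : Type} {x : ∀ k, FD (S.F k) ι} {x' : ∀ k, FD (S.F k) (Mon (2 + 1) 1)} {c : ℝ}
    (O : XO s s' x x' c) (h1 : Nul S (fun k => (x k).l.leak (cB s k))) (h2 : Nul S (fun k => (x' k).l.leak (cB s k)))
    {a : ℝ} (ha : ∀ e : ℝ, 0 < e → ∀ᶠ k in UF, (Lab3 s x (lb x') c k).leak (cB s k) ≤ (a + e) * (S.F k).n) (e : ℝ)
    (he : 0 < e) : ∀ᶠ k in UF, (O.X k).l.leak (cB s k) ≤ (a + e) * (S.F k).n := by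
  filter_upwards [XL3_leakB O h1 h2 ha e he] with k hk
  refine le_trans ?_ hk
  have e1 : (XL3 O k).leak (cB s k) = I ((O.X k).l.v ⊔ fc (K3 O k)) (O.X k).l.p.top ((O.X k).l.p.map (cB s k)) := rfl
  have e2 : (O.X k).l.leak (cB s k) = I (O.X k).l.v (O.X k).l.p.top ((O.X k).l.p.map (cB s k)) := rfl
  rw [e1, e2]
  exact I_mono_left (le_sup_left.trans le_sup_left)

/-- **THE CONFIGURATION** -/
theorem top_cfg (D : ℕ) (hD : 1 ≤ D) : ∃ β₀ : ℝ, 0 < β₀ ∧ ∀ {S : Sp} (s : Sys S 3) (s' : Sys S 2) (i : Fin 3),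
    Crd s s' i.succAbove → DelC s s' i → Nr s s' → Fac s s' → ST 1 2 → RobH s → ∀ {g : ℝ}, 0 < g → Rich s g →
    ∀ {c₀ : ℝ}, 0 ≤ c₀ → c₀ < 1 → Hf s D c₀ 1 → ∀ {β : ℝ}, 0 < β → β ≤ β₀ * (1 - c₀) → ∀ {v : ℝ}, 0 < v →
    8 * v ≤ β → 2 * v ≤ 1 - c₀ → ∀ {q₀ : ℝ}, 0 < q₀ → ∃ C : ℝ, 0 < C ∧ ∀ {c : ℝ}, 0 ≤ c → c < c₀ →
    C * (c₀ - c) ≤ 1 - eta s D c → RobV s s' 1 c →
    ∀ {x : ∀ k, FD (S.F k) (Mon (2 + 1 + 1) D)}, IsCan s D c₀ x → ZG s i x 2 → Hz s i x →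
    ∀ (y : ∀ k, (x k).l.T.Ω → Matrix (Mon (2 + 1) 1) (Mon (2 + 1) 1) ℝ)
    (hy : ∀ k ω ω', (x k).l.T.μ ω ≠ 0 → (x k).l.T.μ ω' ≠ 0 → (x k).l.V ω ω' → (x k).l.T.Z ω ω' → y k ω = y k ω'),
    (gau s' 1).Opt (cA s c₀) (cB s) (fun k => mkFD (x k).l (y k) (hy k)) →
    ∀ {x' : ∀ k, FD (S.F k) (Mon (2 + 1) 1)}, IsCanP s s' 1 c x' → ∀ O : XO s s' x x' c,
    (∀ᶠ k in UF, (O.X k).l.T.pb (fun ω => ¬ O.Lg (β * (1 - eta s D c)) k ω) ≤ q₀) ∧
    ul (fun k => (FAm.self (O.X k).l.T (YBs O k)).sp.pb (CEv O (v * (1 - eta s D c)) k)) ≤ 9 * q₀ ∧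
    ul (fun k => (FAm.self (O.X k).l.T (YSs O k)).sp.pb (SEv O (v * (1 - eta s D c)) k)) ≤ q₀ := by
  obtain ⟨β₀, hβ₀, hbd⟩ := bd_lg 2 D (by norm_num) hD
  refine ⟨β₀, hβ₀, ?_⟩
  intro S s s' i crd hdel hN fac hst hR g hg0 hg c₀ h0 h1 hH β hβ hβ1 v hv hvβ hvc q₀ hq₀
  obtain ⟨C₁, hC₁, hb⟩ := hbd s s' i hdel hN fac hst hR h0 h1 hH hβ hβ1 hq₀
  have hD' : (1 : ℝ) ≤ D := by exact_mod_cast hD
  have hgv : 0 < g * v := mul_pos hg0 hv
  have hc1 : 0 < 1 - c₀ := by linarith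
  set C : ℝ := C₁ + 4 * D / β + 2 * D / (1 - c₀) + (5 * D + 8) / (g * v * q₀) with hC
  have t1 : 0 ≤ 4 * D / β := by positivity
  have t2 : 0 ≤ 2 * D / (1 - c₀) := by positivity
  have t3 : 0 ≤ (5 * D + 8) / (g * v * q₀) := by positivity
  refine ⟨C, by linarith, ?_⟩
  intro c hc0 hc hCc hV x hx hz hHz y hy hY x' hx' O
  set del : ℝ := c₀ - c with hdel'
  set eps : ℝ := 1 - eta s D c with heps
  have hdel0 : 0 < del := by rw [hdel']; linarith
  have heps1 : eps ≤ 1 := by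
    have := eta_nonneg (s := s) hD c
    rw [heps]
    linarith
  have hCC₁ : C₁ * del ≤ eps := by
    refine le_trans ?_ hCc
    apply mul_le_mul_of_nonneg_right _ hdel0.le
    linarith
  have heps0 : 0 < eps := lt_of_lt_of_le (mul_pos hC₁ hdel0) hCC₁
  have hlg := hb hc0 hc hCC₁ hV hx hz y hy hY hx' O
  have b1 : 4 * D * del ≤ β * eps := by
    have : 4 * D / β * del ≤ eps := by
      refine le_trans ?_ hCc
      apply mul_le_mul_of_nonneg_right _ hdel0.le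
      linarith
    rw [div_mul_eq_mul_div, div_le_iff₀ hβ] at this
    linarith
  have b2 : 2 * D * del ≤ 1 - c₀ := by
    have : 2 * D / (1 - c₀) * del ≤ eps := by
      refine le_trans ?_ hCc
      apply mul_le_mul_of_nonneg_right _ hdel0.le
      linarith
    rw [div_mul_eq_mul_div, div_le_iff₀ hc1] at this
    nlinarith
  have b3 : (5 * D + 8) * del ≤ q₀ * (g * (v * eps)) := by
    have : (5 * D + 8) / (g * v * q₀) * del ≤ eps := by
      refine le_trans ?_ hCc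
      apply mul_le_mul_of_nonneg_right _ hdel0.le
      linarith
    rw [div_mul_eq_mul_div, div_le_iff₀ (by positivity)] at this
    linarith
  have hve : v * eps ≤ v := mul_le_of_le_one_right hv.le heps1
  have hve0 : 0 < v * eps := mul_pos hv heps0
  have hlk3 : ∀ e : ℝ, 0 < e → ∀ᶠ k in UF, (Lab3 s x (lb x') c k).leak (cB s k) ≤
      (2 * ((D + 2) * del) + e) * (S.F k).n := by
    intro e he
    exact XF.leak3 hdel hN fac hst hc0 hc.le h1 hx hx'.2 hz y hy hY e he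
  have hlk : ∀ e : ℝ, 0 < e → ∀ᶠ k in UF, (LA O k).leak (cB s k) ≤ ((5 * D + 8) * del + e) * (S.F k).n := by
    intro e he
    have a1 := X_leakB O hx.2.1.2 hx'.2.1.2 hlk3 (e / 4) (by linarith)
    have a2 := XF.F2 O hdel hN hc0 hc.le h1 hx hx'.2 hz a1 (e / 4) (by linarith)
    filter_upwards [a2] with k hk
    refine le_trans hk ?_
    apply mul_le_mul_of_nonneg_right _ (S.F k).pos.le
    rw [← hdel']
    nlinarith
  have hZ : Zve O i (D * (c₀ - c)) (1 - c) := Zve_of O hc0 hc.le h1 hx.1 hx'.2 i hHz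
  refine ⟨hlg, ?_, ?_⟩
  · have := top_B O crd fac hc0 (hc.trans h1) hx' hV hx.2.1.2 hg hg0 (a := D * (c₀ - c)) (by positivity) hZ
      (θ := β * eps) hve0 (by linarith) (lk := (5 * D + 8) * del) (by positivity) hlk (by rw [← hdel']; nlinarith)
      (by rw [← hdel']; linarith) hlg
    have e1 : (5 * D + 8) * del / (g * (v * eps)) ≤ q₀ := by
      rw [div_le_iff₀ (by positivity)]
      exact b3
    linarith
  · have h3 := XO_sepx O hg hg0.le hx.2.1.2 hx'.2.1.2 (a := 2 * ((D + 2) * del)) (by positivity) hlk3 hve0.le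
      (show v * eps ≤ 1 by linarith)
    have h4 : ul (fun k => (FAm.self (O.X k).l.T (YSs O k)).sp.pb (SEv O (v * eps) k)) * (g * (v * eps)) ≤
        2 * ((D + 2) * del) := h3
    have e1 : 2 * ((D + 2) * del) ≤ q₀ * (g * (v * eps)) := by nlinarith
    exact le_of_mul_le_mul_right (h4.trans e1) (by positivity)

end

end Pool.Agent.Helper39.LIP
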